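import Mathlib

set_option autoImplicit false

open Polynomial

namespace Pool.Agent.Lib.MP_d73f62_nt

/-- The D'Arcais polynomials `P_n` with rational coefficients: `P_0 = 1` and
`P_{n+1} = (x / (n+1)) * ∑_{k=0}^{n} σ(k+1) P_{n-k}`, where `σ` is the sum of divisors. -/
noncomputable def dArcais : ℕ → ℚ[X]
  | 0 => 1
  | n + 1 => C (1 / ((n : ℚ) + 1)) * X *
      ∑ k : Fin (n + 1), C ((ArithmeticFunction.sigma 1 (k.1 + 1) : ℕ) : ℚ) * dArcais (n - k.1)

/-- Value of `P_n` at a complex number. -/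
noncomputable def P (n : ℕ) (x : ℂ) : ℂ := aeval x (dArcais n)

theorem P_zero (x : ℂ) : P 0 x = 1 := by
  simp [P, dArcais]

theorem P_succ (n : ℕ) (x : ℂ) :
    ((n : ℂ) + 1) * P (n + 1) x =
      x * ∑ k ∈ Finset.range (n + 1), ((ArithmeticFunction.sigma 1 (k + 1) : ℕ) : ℂ) * P (n - k) x := by
  have hn : ((n : ℂ) + 1) ≠ 0 := Nat.cast_add_one_ne_zero n
  rw [← Fin.sum_univ_eq_sum_range
    (fun k => ((ArithmeticFunction.sigma 1 (k + 1) : ℕ) : ℂ) * P (n - k) x) (n + 1)]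
  unfold P
  rw [dArcais]
  simp only [map_mul, map_sum, aeval_X, aeval_C, map_div₀, map_one, map_add, map_natCast]
  field_simp

end Pool.Agent.Lib.MP_d73f62_nt
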