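import Mathlib
import Pool.Agent.Lib.MP_d73f62_nt.Defs

set_option autoImplicit false

open Polynomial

namespace Pool.Agent.Lib.MP_d73f62_nt

/-- Sum of divisors. -/
abbrev sg (n : ℕ) : ℕ := ArithmeticFunction.sigma 1 n

/-- The integral version `A_n = n! P_n` over any commutative ring. -/
def A {R : Type*} [CommRing R] (x : R) : ℕ → R
  | 0 => 1
  | n + 1 => x * ∑ k : Fin (n + 1), ((sg (k.1 + 1) * n.descFactorial k.1 : ℕ) : R) * A x (n - k.1)

theorem A_zero {R : Type*} [CommRing R] (x : R) : A x 0 = 1 := by rw [A]

theorem A_succ {R : Type*} [CommRing R] (x : R) (n : ℕ) :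
    A x (n + 1) = x * ∑ k ∈ Finset.range (n + 1),
      ((sg (k + 1) * n.descFactorial k : ℕ) : R) * A x (n - k) := by
  rw [A, ← Fin.sum_univ_eq_sum_range
    (fun k => ((sg (k + 1) * n.descFactorial k : ℕ) : R) * A x (n - k)) (n + 1)]

theorem A_map {R S : Type*} [CommRing R] [CommRing S] (f : R →+* S) (x : R) (n : ℕ) :
    f (A x n) = A (f x) n := by
  induction n using Nat.strong_induction_on with
  | _ n ih =>
    cases n with
    | zero => rw [A_zero, A_zero, map_one]
    | succ n =>
      rw [A_succ, A_succ, map_mul, map_sum]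
      congr 1
      refine Finset.sum_congr rfl ?_
      intro k _
      rw [map_mul, map_natCast, ih (n - k) (by omega)]

theorem A_eq (x : ℂ) (n : ℕ) : A x n = (n.factorial : ℂ) * P n x := by
  induction n using Nat.strong_induction_on with
  | _ n ih =>
    cases n with
    | zero => rw [A_zero, P_zero]; simp
    | succ n =>
      rw [A_succ, Nat.factorial_succ]
      push_cast
      have h := P_succ n x
      have h2 : ((n : ℂ) + 1) * (n.factorial : ℂ) * P (n + 1) x
          = (n.factorial : ℂ) * (((n : ℂ) + 1) * P (n + 1) x) := by ring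
      rw [h2, h, mul_left_comm]
      refine congrArg (fun z => x * z) ?_
      rw [Finset.mul_sum]
      refine Finset.sum_congr rfl ?_
      intro k hk
      have hk' : k ≤ n := by
        have := Finset.mem_range.mp hk
        omega
      rw [ih (n - k) (by omega)]
      have h3 : (n.factorial : ℂ) = ((n - k).factorial : ℂ) * (n.descFactorial k : ℂ) := by
        rw [← Nat.cast_mul, Nat.factorial_mul_descFactorial hk']
      rw [h3]
      ring

theorem desc_mod {R : Type*} [CommRing R] (p : ℕ) (hp : (p : R) = 0) (m r k : ℕ) :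
    (((p * m + r).descFactorial k : ℕ) : R) = ((r.descFactorial k : ℕ) : R) := by
  induction k with
  | zero => simp
  | succ k ih =>
    rw [Nat.descFactorial_succ, Nat.descFactorial_succ]
    push_cast
    rw [ih]
    rcases Nat.lt_or_ge r k with h | h
    · rw [Nat.descFactorial_eq_zero_iff_lt.mpr h]
      simp
    · have h1 : p * m + r - k = p * m + (r - k) := by omega
      rw [h1]
      push_cast
      rw [hp]
      ring

theorem A_block {R : Type*} [CommRing R] (p : ℕ) (hp : (p : R) = 0) (x : R) (m r : ℕ) :
    A x (p * m + r) = A x (p * m) * A x r := by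
  induction r using Nat.strong_induction_on with
  | _ r ih =>
    cases r with
    | zero => rw [A_zero]; simp
    | succ r =>
      rw [← Nat.add_assoc, A_succ, A_succ]
      have h1 : ∀ k ∈ Finset.range (p * m + r + 1),
          ((sg (k + 1) * (p * m + r).descFactorial k : ℕ) : R) * A x (p * m + r - k)
          = if k < r + 1 then ((sg (k + 1) * r.descFactorial k : ℕ) : R) *
              (A x (p * m) * A x (r - k)) else 0 := by
        intro k _
        split_ifs with h
        · push_cast
          rw [desc_mod p hp]
          have h2 : p * m + r - k = p * m + (r - k) := by omega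
          rw [h2, ih (r - k) (by omega)]
        · push_cast
          rw [desc_mod p hp, Nat.descFactorial_eq_zero_iff_lt.mpr (by omega)]
          simp
      rw [Finset.sum_congr rfl h1, ← Finset.sum_filter]
      have h3 : (Finset.range (p * m + r + 1)).filter (fun k => k < r + 1)
          = Finset.range (r + 1) := by
        ext k
        simp only [Finset.mem_filter, Finset.mem_range]
        omega
      rw [h3, mul_left_comm (A x (p * m))]
      refine congrArg (fun z => x * z) ?_
      rw [Finset.mul_sum]
      refine Finset.sum_congr rfl ?_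
      intro k _
      ring

theorem A_mul_p {R : Type*} [CommRing R] (p : ℕ) (hp : (p : R) = 0) (x : R) (m : ℕ) :
    A x (p * m) = (A x p) ^ m := by
  induction m with
  | zero => rw [Nat.mul_zero, A_zero, pow_zero]
  | succ m ih =>
    have h := A_block p hp x m p
    rw [Nat.mul_succ, h, ih, pow_succ]

/-- In a domain of characteristic `p`, non-vanishing of `A_0, …, A_p` gives non-vanishing of all
`A_n`. -/
theorem A_ne_zero {R : Type*} [CommRing R] [IsDomain R] (p : ℕ) (hp0 : 0 < p) (hp : (p : R) = 0)
    (x : R) (h : ∀ r ≤ p, A x r ≠ 0) (n : ℕ) : A x n ≠ 0 := by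
  rw [← Nat.div_add_mod n p, A_block p hp, A_mul_p p hp]
  exact mul_ne_zero (pow_ne_zero _ (h p le_rfl)) (h _ (Nat.mod_lt n hp0).le)

/-! ### Computation modulo `p` -/

/-- Auxiliary dot product. -/
def dot (p : ℕ) : ℕ → ℕ → List ℕ → List (ℕ × ℕ) → ℕ → ℕ → ℕ × ℕ
  | _, _, [], _, a, b => (a, b)
  | _, _, _ :: _, [], a, b => (a, b)
  | n, f, s :: ss, (u, v) :: l, a, b =>
    dot p (n - 1) (f * n % p) ss l ((a + s * f * u) % p) ((b + s * f * v) % p)

/-- Next value. -/
def push (p t : ℕ) (ab : ℕ × ℕ) (l : List (ℕ × ℕ)) : List (ℕ × ℕ) :=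
  ((p - (t * ab.2) % p) % p, (t * ab.1) % p) :: l

/-- List of the values `A_n, …, A_0` modulo `p`. -/
def st (p t : ℕ) (sl : List ℕ) : ℕ → List (ℕ × ℕ)
  | 0 => [(1, 0)]
  | n + 1 => push p t (dot p n 1 sl (st p t sl n) 0 0) (st p t sl n)

/-- Test that no entry vanishes and that all entries are reduced. -/
def good (p : ℕ) (l : List (ℕ × ℕ)) : Bool :=
  l.all fun w => Nat.blt w.1 p && Nat.blt w.2 p && !(w.1 == 0 && w.2 == 0)

/-- The full test for the prime `p`. -/
def chk (p M : ℕ) (s : ℕ → ℕ) : Bool :=
  (List.range (p - 1)).all fun t => good p (st p (t + 1) ((List.range M).map s) p)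

section
variable {R : Type*} [CommRing R] (I : R)

/-- Value of a pair. -/
def val (w : ℕ × ℕ) : R := (w.1 : R) + (w.2 : R) * I

theorem cast_mod (p : ℕ) (hp : (p : R) = 0) (a : ℕ) : ((a % p : ℕ) : R) = (a : R) := by
  conv_rhs => rw [← Nat.mod_add_div a p]
  push_cast
  rw [hp]
  ring

theorem dot_spec (p : ℕ) (hp : (p : R) = 0) (m : ℕ) :
    ∀ (M n f a b : ℕ) (s : ℕ → ℕ) (g : ℕ → ℕ × ℕ), m ≤ M →
      val I (dot p n f ((List.range M).map s) ((List.range m).map g) a b)
        = val I (a, b) + (f : R) * ∑ j ∈ Finset.range m,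
            ((s j * n.descFactorial j : ℕ) : R) * val I (g j) := by
  induction m with
  | zero =>
    intro M n f a b s g _
    cases M with
    | zero => simp [dot]
    | succ M => rw [List.range_succ_eq_map]; simp [dot]
  | succ m ih =>
    intro M n f a b s g hM
    obtain ⟨M', rfl⟩ : ∃ M', M = M' + 1 := ⟨M - 1, by omega⟩
    rw [List.range_succ_eq_map, List.range_succ_eq_map]
    simp only [List.map_cons, List.map_map]
    rcases hg : g 0 with ⟨u, v⟩
    rw [dot, ih M' (n - 1) (f * n % p) _ _ (s ∘ Nat.succ) (g ∘ Nat.succ) (by omega)]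
    rw [Finset.sum_range_succ' (fun j => ((s j * n.descFactorial j : ℕ) : R) * val I (g j)), hg]
    have h1 : ∀ j ∈ Finset.range m,
        ((s (j + 1) * n.descFactorial (j + 1) : ℕ) : R) * val I (g (j + 1))
        = (n : R) * ((((s ∘ Nat.succ) j * (n - 1).descFactorial j : ℕ) : R)
            * val I ((g ∘ Nat.succ) j)) := by
      intro j _
      have h2 : n.descFactorial (j + 1) = n * (n - 1).descFactorial j := by
        cases n with
        | zero => simp
        | succ n => rw [Nat.succ_descFactorial_succ]; simp
      rw [h2]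
      simp only [Function.comp, Nat.succ_eq_add_one]
      push_cast
      ring
    rw [Finset.sum_congr rfl h1, ← Finset.mul_sum]
    simp only [val, cast_mod p hp, Nat.descFactorial_zero]
    push_cast
    ring

theorem st_spec (hI : I * I = -1) (p : ℕ) (hp0 : 0 < p) (hp : (p : R) = 0) (t M : ℕ) (s : ℕ → ℕ)
    (hs : ∀ k < M, s k = sg (k + 1)) :
    ∀ n < M, ∃ g : ℕ → ℕ × ℕ, st p t ((List.range M).map s) n = (List.range (n + 1)).map g ∧
      ∀ k ≤ n, val I (g k) = A ((t : R) * I) (n - k) := by
  intro n
  induction n with
  | zero =>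
    intro _
    refine ⟨fun _ => (1, 0), ?_, ?_⟩
    · simp [st]
    · intro k hk
      have : k = 0 := by omega
      subst this
      simp [val, A_zero]
  | succ n ih =>
    intro hn
    obtain ⟨g, hg, hgv⟩ := ih (by omega)
    have hst : st p t ((List.range M).map s) (n + 1)
        = push p t (dot p n 1 ((List.range M).map s) (st p t ((List.range M).map s) n) 0 0)
            (st p t ((List.range M).map s) n) := by rw [st]
    set d := dot p n 1 ((List.range M).map s) (st p t ((List.range M).map s) n) 0 0 with hd
    have hdv : val I d = ∑ j ∈ Finset.range (n + 1),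
        ((sg (j + 1) * n.descFactorial j : ℕ) : R) * A ((t : R) * I) (n - j) := by
      rw [hd, hg, dot_spec I p hp (n + 1) M n 1 0 0 s g (by omega)]
      simp only [val, Nat.cast_zero, Nat.cast_one, zero_mul, add_zero, one_mul, zero_add]
      refine Finset.sum_congr rfl ?_
      intro j hj
      have hj' : j ≤ n := by
        have := Finset.mem_range.mp hj
        omega
      rw [hs j (by omega)]
      have h3 := hgv j hj'
      rw [val] at h3
      rw [h3]
    refine ⟨fun k => if k = 0 then ((p - (t * d.2) % p) % p, (t * d.1) % p) else g (k - 1), ?_, ?_⟩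
    · rw [hst, push, List.range_succ_eq_map (n := n + 1), List.map_cons, List.map_map, hg]
      simp only [if_true]
      congr 1
    · intro k hk
      by_cases hk0 : k = 0
      · subst hk0
        simp only [if_true, Nat.sub_zero]
        rw [A_succ, ← hdv]
        simp only [val, cast_mod p hp]
        have h4 : ((p - (t * d.2) % p : ℕ) : R) = -((t : R) * (d.2 : R)) := by
          have h5 : (t * d.2) % p ≤ p := (Nat.mod_lt _ hp0).le
          rw [Nat.cast_sub h5, cast_mod p hp, hp]
          push_cast
          ring
        rw [h4]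
        push_cast
        have h6 : (t : R) * I * ((d.1 : R) + (d.2 : R) * I)
            = (t : R) * (d.1 : R) * I + (t : R) * (d.2 : R) * (I * I) := by ring
        rw [h6, hI]
        ring
      · simp only [if_neg hk0]
        rw [hgv (k - 1) (by omega)]
        congr 1
        omega

end

end Pool.Agent.Lib.MP_d73f62_nt
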