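import Mathlib
import Pool.Agent.Lib.MP_d73f62_nt.Local

set_option autoImplicit false

open Polynomial

namespace Pool.Agent.Lib.MP_d73f62_nt

theorem good_prime (p : ℕ) [hp : Fact p.Prime] (hp4 : p % 4 = 3) (s : ℕ → ℕ)
    (hs : ∀ k < p + 1, s k = sg (k + 1)) (hchk : chk p (p + 1) s = true)
    (t : ℤ) (ht : ¬ (p : ℤ) ∣ t) (n : ℕ) : P n ((t : ℂ) * Complex.I) ≠ 0 := by
  intro h0
  have hppos : 0 < p := hp.out.pos
  -- the Gaussian integer
  set i : GaussianInt := ⟨0, 1⟩ with hi
  have hiC : (GaussianInt.toComplex i) = Complex.I := by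
    rw [hi, GaussianInt.toComplex_def']; simp
  have hA0 : A ((t : ℂ) * Complex.I) n = 0 := by rw [A_eq, h0, mul_zero]
  have hAG : A ((t : GaussianInt) * i) n = 0 := by
    apply GaussianInt.toComplex_injective
    rw [A_map, map_mul, hiC, map_intCast, map_zero]
    exact hA0
  -- the quotient
  have hprime : Prime ((p : GaussianInt)) :=
    GaussianInt.prime_of_nat_prime_of_mod_four_eq_three p hp4
  have hpr : (Ideal.span {(p : GaussianInt)}).IsPrime :=
    (Ideal.span_singleton_prime hprime.ne_zero).mpr hprime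
  set Q := GaussianInt ⧸ Ideal.span {(p : GaussianInt)} with hQ
  have : IsDomain Q := Ideal.Quotient.isDomain _
  set mk : GaussianInt →+* Q := Ideal.Quotient.mk (Ideal.span {(p : GaussianInt)}) with hmk
  have hpQ : (p : Q) = 0 := by
    have h1 : mk (p : GaussianInt) = 0 :=
      Ideal.Quotient.eq_zero_iff_mem.mpr (Ideal.subset_span rfl)
    rw [map_natCast] at h1
    exact h1
  have hmk0 : ∀ z : GaussianInt, mk z = 0 ↔ (p : ℤ) ∣ z.re ∧ (p : ℤ) ∣ z.im := by
    intro z
    rw [hmk, Ideal.Quotient.eq_zero_iff_mem, Ideal.mem_span_singleton]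
    have h1 := Zsqrtd.intCast_dvd (d := -1) (p : ℤ) z
    rw [← h1]
    simp
  have hII : mk i * mk i = -1 := by
    rw [← map_mul]
    have h1 : i * i = -1 := by
      rw [hi]; ext <;> simp
    rw [h1, map_neg, map_one]
  -- reduce t modulo p
  set t' : ℕ := (t % (p : ℤ)).toNat with ht'
  have hpz : (0 : ℤ) < (p : ℤ) := by exact_mod_cast hppos
  have hmod0 : 0 ≤ t % (p : ℤ) := Int.emod_nonneg _ hpz.ne'
  have ht'z : (t' : ℤ) = t % (p : ℤ) := Int.toNat_of_nonneg hmod0
  have ht'lt : t' < p := by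
    have := Int.emod_lt_of_pos t hpz
    omega
  have ht'pos : 0 < t' := by
    rcases Nat.eq_zero_or_pos t' with h | h
    · exfalso
      apply ht
      apply Int.dvd_of_emod_eq_zero
      rw [← ht'z, h]
      rfl
    · exact h
  have htQ : (t : Q) = (t' : Q) := by
    have h1 : t = (t' : ℤ) + (p : ℤ) * (t / (p : ℤ)) := by
      rw [ht'z]
      exact (Int.emod_add_mul_ediv t p).symm
    rw [h1, Int.cast_add, Int.cast_mul]
    rw [Int.cast_natCast, Int.cast_natCast, hpQ]
    ring
  have hx : mk ((t : GaussianInt) * i) = (t' : Q) * mk i := by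
    rw [map_mul, map_intCast, htQ]
  have hAQ : A ((t' : Q) * mk i) n = 0 := by
    rw [← hx, ← A_map, hAG, map_zero]
  -- contradiction
  refine A_ne_zero p hppos hpQ ((t' : Q) * mk i) ?_ n hAQ
  obtain ⟨g, hg, hgv⟩ := st_spec (mk i) hII p hppos hpQ t' (p + 1) s hs p (by omega)
  have hgood : good p (st p t' ((List.range (p + 1)).map s) p) = true := by
    rw [chk, List.all_eq_true] at hchk
    have h1 := hchk (t' - 1) (List.mem_range.mpr (by omega))
    have h2 : t' - 1 + 1 = t' := by omega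
    rw [h2] at h1
    exact h1
  intro r hr hzero
  have h3 := hgv (p - r) (by omega)
  have h4 : p - (p - r) = r := by omega
  rw [h4, hzero] at h3
  rw [good, List.all_eq_true] at hgood
  have h5 := hgood (g (p - r)) (by
    rw [hg]
    exact List.mem_map.mpr ⟨p - r, List.mem_range.mpr (by omega), rfl⟩)
  simp only [Bool.and_eq_true, Bool.not_eq_true', Nat.blt_eq] at h5
  obtain ⟨⟨ha, hb⟩, hab⟩ := h5
  set a := (g (p - r)).1 with hadef
  set b := (g (p - r)).2 with hbdef
  have h6 : mk (⟨(a : ℤ), (b : ℤ)⟩ : GaussianInt) = 0 := by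
    have h7 : (⟨(a : ℤ), (b : ℤ)⟩ : GaussianInt) = (a : GaussianInt) + (b : GaussianInt) * i := by
      rw [hi]; ext <;> simp
    rw [h7, map_add, map_mul, map_natCast, map_natCast]
    exact h3
  rw [hmk0] at h6
  have h8 : a = 0 := by
    have h61 : (p : ℤ) ∣ (a : ℤ) := h6.1
    exact Nat.eq_zero_of_dvd_of_lt (Int.natCast_dvd_natCast.mp h61) ha
  have h9 : b = 0 := by
    have h62 : (p : ℤ) ∣ (b : ℤ) := h6.2
    exact Nat.eq_zero_of_dvd_of_lt (Int.natCast_dvd_natCast.mp h62) hb
  rw [h8, h9] at hab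
  simp at hab

end Pool.Agent.Lib.MP_d73f62_nt
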