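import Mathlib
import Pool.Agent.Lib.MP_d73f62_nt.Good

set_option autoImplicit false

namespace Pool.Agent.Lib.MP_d73f62_nt

/-- Table of `σ(1), σ(2), …`. -/
def tab : List ℕ := [1, 3, 4, 7, 6, 12, 8, 15, 13, 18, 12, 28, 14, 24, 24, 31, 18, 39, 20, 42, 32, 36, 24, 60, 31, 42, 40, 56, 30, 72, 32, 63, 48, 54, 48, 91, 38, 60, 56, 90, 42, 96, 44, 84, 78, 72, 48, 124, 57, 93, 72, 98, 54, 120, 72, 120, 80, 90, 60, 168, 62, 96, 104, 127, 84, 144, 68, 126, 96, 144, 72, 195, 74]

theorem tab_spec : ∀ k < 73, tab.getD k 0 = sg (k + 1) := by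
  have h : ∀ k < 73, tab.getD k 0 = ∑ d ∈ (k + 1).divisors, d := by decide +kernel
  intro k hk
  rw [h k hk, sg, ArithmeticFunction.sigma_one_apply]

theorem dvd_3 (t : ℤ) (n : ℕ) (h : P n ((t : ℂ) * Complex.I) = 0) : (3 : ℤ) ∣ t := by
  have hp : Fact (Nat.Prime 3) := ⟨by norm_num⟩
  by_contra hcon
  exact good_prime 3 (by norm_num) (fun k => tab.getD k 0) (fun k hk => tab_spec k (by omega))
    (by decide +kernel) t (by exact_mod_cast hcon) n h

theorem dvd_11 (t : ℤ) (n : ℕ) (h : P n ((t : ℂ) * Complex.I) = 0) : (11 : ℤ) ∣ t := by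
  have hp : Fact (Nat.Prime 11) := ⟨by norm_num⟩
  by_contra hcon
  exact good_prime 11 (by norm_num) (fun k => tab.getD k 0) (fun k hk => tab_spec k (by omega))
    (by decide +kernel) t (by exact_mod_cast hcon) n h

theorem dvd_19 (t : ℤ) (n : ℕ) (h : P n ((t : ℂ) * Complex.I) = 0) : (19 : ℤ) ∣ t := by
  have hp : Fact (Nat.Prime 19) := ⟨by norm_num⟩
  by_contra hcon
  exact good_prime 19 (by norm_num) (fun k => tab.getD k 0) (fun k hk => tab_spec k (by omega))
    (by decide +kernel) t (by exact_mod_cast hcon) n h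

theorem dvd_43 (t : ℤ) (n : ℕ) (h : P n ((t : ℂ) * Complex.I) = 0) : (43 : ℤ) ∣ t := by
  have hp : Fact (Nat.Prime 43) := ⟨by norm_num⟩
  by_contra hcon
  exact good_prime 43 (by norm_num) (fun k => tab.getD k 0) (fun k hk => tab_spec k (by omega))
    (by decide +kernel) t (by exact_mod_cast hcon) n h

theorem dvd_47 (t : ℤ) (n : ℕ) (h : P n ((t : ℂ) * Complex.I) = 0) : (47 : ℤ) ∣ t := by
  have hp : Fact (Nat.Prime 47) := ⟨by norm_num⟩
  by_contra hcon
  exact good_prime 47 (by norm_num) (fun k => tab.getD k 0) (fun k hk => tab_spec k (by omega))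
    (by decide +kernel) t (by exact_mod_cast hcon) n h

theorem dvd_59 (t : ℤ) (n : ℕ) (h : P n ((t : ℂ) * Complex.I) = 0) : (59 : ℤ) ∣ t := by
  have hp : Fact (Nat.Prime 59) := ⟨by norm_num⟩
  by_contra hcon
  exact good_prime 59 (by norm_num) (fun k => tab.getD k 0) (fun k hk => tab_spec k (by omega))
    (by decide +kernel) t (by exact_mod_cast hcon) n h

theorem dvd_67 (t : ℤ) (n : ℕ) (h : P n ((t : ℂ) * Complex.I) = 0) : (67 : ℤ) ∣ t := by
  have hp : Fact (Nat.Prime 67) := ⟨by norm_num⟩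
  by_contra hcon
  exact good_prime 67 (by norm_num) (fun k => tab.getD k 0) (fun k hk => tab_spec k (by omega))
    (by decide +kernel) t (by exact_mod_cast hcon) n h

theorem dvd_71 (t : ℤ) (n : ℕ) (h : P n ((t : ℂ) * Complex.I) = 0) : (71 : ℤ) ∣ t := by
  have hp : Fact (Nat.Prime 71) := ⟨by norm_num⟩
  by_contra hcon
  exact good_prime 71 (by norm_num) (fun k => tab.getD k 0) (fun k hk => tab_spec k (by omega))
    (by decide +kernel) t (by exact_mod_cast hcon) n h

end Pool.Agent.Lib.MP_d73f62_nt
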