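import Mathlib
import Pool.Agent.Lib.MP_d73f62_nt.Primes

set_option autoImplicit false

namespace Pool.Agent.Lib.MP_d73f62_nt

theorem cop_dvd (a b c t : ℤ) (hab : a * b = c) (hc : IsCoprime a b) (ha : a ∣ t) (hb : b ∣ t) :
    c ∣ t := hab ▸ hc.mul_dvd ha hb

theorem big_dvd (t : ℤ) (n : ℕ) (h : P n ((t : ℂ) * Complex.I) = 0) :
    (355646891721 : ℤ) ∣ t := by
  have h2 : (33 : ℤ) ∣ t := cop_dvd 3 11 33 t (by norm_num) (by norm_num) (dvd_3 t n h) (dvd_11 t n h)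
  have h3 : (627 : ℤ) ∣ t := cop_dvd 33 19 627 t (by norm_num) (by norm_num) h2 (dvd_19 t n h)
  have h4 : (26961 : ℤ) ∣ t :=
    cop_dvd 627 43 26961 t (by norm_num) (by norm_num) h3 (dvd_43 t n h)
  have h5 : (1267167 : ℤ) ∣ t :=
    cop_dvd 26961 47 1267167 t (by norm_num) (by norm_num) h4 (dvd_47 t n h)
  have h6 : (74762853 : ℤ) ∣ t :=
    cop_dvd 1267167 59 74762853 t (by norm_num) (by norm_num) h5 (dvd_59 t n h)
  have h7 : (5009111151 : ℤ) ∣ t :=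
    cop_dvd 74762853 67 5009111151 t (by norm_num) (by norm_num) h6 (dvd_67 t n h)
  exact cop_dvd 5009111151 71 355646891721 t (by norm_num) (by norm_num) h7 (dvd_71 t n h)

theorem big_abs (t : ℤ) (ht : t ≠ 0) (n : ℕ) (h : P n ((t : ℂ) * Complex.I) = 0) :
    (355646891721 : ℤ) ≤ |t| := by
  have h1 := big_dvd t n h
  exact Int.le_of_dvd (abs_pos.mpr ht) ((dvd_abs _ _).mpr h1)

end Pool.Agent.Lib.MP_d73f62_nt
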