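import Mathlib
import Pool.Agent.Lib.MP_d73f62_nt.Local

set_option autoImplicit false

namespace Pool.Agent.Lib.MP_d73f62_nt

theorem sg_le_tri (k : ℕ) : 2 * sg (k + 1) ≤ (k + 1) * (k + 2) := by
  have h1 : sg (k + 1) ≤ ∑ d ∈ Finset.range (k + 2), d := by
    rw [sg, ArithmeticFunction.sigma_one_apply]
    apply Finset.sum_le_sum_of_subset
    intro d hd
    have := Nat.divisor_le hd
    exact Finset.mem_range.mpr (by omega)
  have h2 := Finset.sum_range_id_mul_two (k + 2)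
  have h3 : k + 2 - 1 = k + 1 := by omega
  rw [h3] at h2
  nlinarith

theorem tri_le_pow (k : ℕ) : (k + 1) * (k + 2) ≤ 2 * 3 ^ k := by
  induction k with
  | zero => norm_num
  | succ k ih =>
    rw [pow_succ]
    nlinarith

theorem sg_le_pow (k : ℕ) : sg (k + 1) ≤ 3 ^ k := by
  have h1 := sg_le_tri k
  have h2 := tri_le_pow k
  omega

theorem geom_tail (m : ℕ) : ∑ k ∈ Finset.range m, ((3 : ℝ) / 10) ^ (k + 1) ≤ 3 / 7 := by
  have h : ∀ m : ℕ, ∑ k ∈ Finset.range m, ((3 : ℝ) / 10) ^ (k + 1)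
      = 3 / 7 - 3 / 7 * (3 / 10) ^ m := by
    intro m
    induction m with
    | zero => simp
    | succ m ih =>
      rw [Finset.sum_range_succ, ih, pow_succ]
      ring
  rw [h m]
  have : (0 : ℝ) ≤ 3 / 7 * (3 / 10) ^ m := by positivity
  linarith

theorem P_growth (n : ℕ) (x : ℂ) (hx : 20 * (n : ℝ) ≤ ‖x‖) :
    ∀ m, m < n → 10 * ‖P m x‖ ≤ ‖P (m + 1) x‖ := by
  intro m
  induction m using Nat.strong_induction_on with
  | _ m ih =>
    intro hm
    -- bound of previous ones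
    have hprev : ∀ k ≤ m, (10 : ℝ) ^ k * ‖P (m - k) x‖ ≤ ‖P m x‖ := by
      intro k
      induction k with
      | zero => intro _; simp
      | succ k ihk =>
        intro hk
        have h1 := ihk (by omega)
        have h2 := ih (m - (k + 1)) (by omega) (by omega)
        have h3 : m - (k + 1) + 1 = m - k := by omega
        rw [h3] at h2
        calc (10 : ℝ) ^ (k + 1) * ‖P (m - (k + 1)) x‖
            = (10 : ℝ) ^ k * (10 * ‖P (m - (k + 1)) x‖) := by rw [pow_succ]; ring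
          _ ≤ (10 : ℝ) ^ k * ‖P (m - k) x‖ := by gcongr
          _ ≤ ‖P m x‖ := h1
    have hrec := P_succ m x
    rw [Finset.sum_range_succ'] at hrec
    have h0 : ((ArithmeticFunction.sigma 1 (0 + 1) : ℕ) : ℂ) * P (m - 0) x = P m x := by
      simp
    rw [h0] at hrec
    set S := ∑ k ∈ Finset.range m,
      ((ArithmeticFunction.sigma 1 (k + 1 + 1) : ℕ) : ℂ) * P (m - (k + 1)) x with hS
    have hSn : ‖S‖ ≤ 3 / 7 * ‖P m x‖ := by
      calc ‖S‖ ≤ ∑ k ∈ Finset.range m, ‖((ArithmeticFunction.sigma 1 (k + 1 + 1) : ℕ) : ℂ) *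
            P (m - (k + 1)) x‖ := norm_sum_le _ _
        _ ≤ ∑ k ∈ Finset.range m, ((3 : ℝ) / 10) ^ (k + 1) * ‖P m x‖ := by
          refine Finset.sum_le_sum ?_
          intro k hk
          have hk' : k + 1 ≤ m := by
            have := Finset.mem_range.mp hk
            omega
          rw [norm_mul, Complex.norm_natCast]
          have h1 : ((ArithmeticFunction.sigma 1 (k + 1 + 1) : ℕ) : ℝ) ≤ (3 : ℝ) ^ (k + 1) := by
            exact_mod_cast sg_le_pow (k + 1)
          have h2 := hprev (k + 1) hk'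
          have h10 : (0 : ℝ) < (10 : ℝ) ^ (k + 1) := by positivity
          have h3 : ‖P (m - (k + 1)) x‖ ≤ ‖P m x‖ / (10 : ℝ) ^ (k + 1) := by
            rw [le_div_iff₀ h10]
            linarith
          calc ((ArithmeticFunction.sigma 1 (k + 1 + 1) : ℕ) : ℝ) * ‖P (m - (k + 1)) x‖
              ≤ (3 : ℝ) ^ (k + 1) * (‖P m x‖ / (10 : ℝ) ^ (k + 1)) := by
                gcongr
            _ = ((3 : ℝ) / 10) ^ (k + 1) * ‖P m x‖ := by
                rw [div_pow]; ring
        _ = (∑ k ∈ Finset.range m, ((3 : ℝ) / 10) ^ (k + 1)) * ‖P m x‖ := by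
          rw [Finset.sum_mul]
        _ ≤ 3 / 7 * ‖P m x‖ := by
          have := geom_tail m
          gcongr
    have hlow : 4 / 7 * ‖P m x‖ ≤ ‖S + P m x‖ := by
      have h1 : ‖P m x‖ ≤ ‖S + P m x‖ + ‖S‖ := by
        calc ‖P m x‖ = ‖(S + P m x) - S‖ := by congr 1; ring
          _ ≤ ‖S + P m x‖ + ‖S‖ := norm_sub_le _ _
      linarith
    have hnorm : ((m : ℝ) + 1) * ‖P (m + 1) x‖ = ‖x‖ * ‖S + P m x‖ := by
      have h1 := congrArg norm hrec
      rw [norm_mul, norm_mul] at h1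
      have h2 : ‖((m : ℂ) + 1)‖ = (m : ℝ) + 1 := by
        rw [← Nat.cast_succ, Complex.norm_natCast]
        push_cast; ring
      rw [h2] at h1
      exact h1
    have hm1 : (m : ℝ) + 1 ≤ n := by exact_mod_cast hm
    have hx' : 20 * ((m : ℝ) + 1) ≤ ‖x‖ := by linarith
    have h5 : 20 * ((m : ℝ) + 1) * (4 / 7 * ‖P m x‖) ≤ ((m : ℝ) + 1) * ‖P (m + 1) x‖ := by
      rw [hnorm]
      gcongr
    have hmpos : (0 : ℝ) < (m : ℝ) + 1 := by positivity
    have h6 : ((m : ℝ) + 1) * (10 * ‖P m x‖) ≤ ((m : ℝ) + 1) * ‖P (m + 1) x‖ := by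
      have : 0 ≤ ((m : ℝ) + 1) * ‖P m x‖ := by positivity
      nlinarith
    exact le_of_mul_le_mul_left h6 hmpos

theorem P_ne_zero_of_large (n : ℕ) (x : ℂ) (hx : 20 * (n : ℝ) ≤ ‖x‖) : P n x ≠ 0 := by
  have h := P_growth n x hx
  have h2 : ∀ m ≤ n, 0 < ‖P m x‖ := by
    intro m
    induction m with
    | zero => intro _; rw [P_zero]; simp
    | succ m ih =>
      intro hm
      have h3 := ih (by omega)
      have h4 := h m (by omega)
      linarith
  exact norm_pos_iff.mp (h2 n le_rfl)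

end Pool.Agent.Lib.MP_d73f62_nt
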