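import Mathlib
import Pool.Agent.Lib.MP_d73f62_nt.Elem

set_option autoImplicit false

namespace Pool.Agent.Lib.MP_d73f62_nt

/-- Polynomial growth of a coefficient sequence. -/
def Pg (c : ℕ → ℝ) : Prop := ∃ (C : ℝ) (m : ℕ), 0 ≤ C ∧ ∀ k : ℕ, |c k| ≤ C * ((k : ℝ) + 1) ^ m

/-- The series `∑ c_k e^{-(k+1)s}`. -/
noncomputable def Ds (c : ℕ → ℝ) (s : ℂ) : ℂ :=
  ∑' k : ℕ, (c k : ℂ) * Complex.exp (-((k : ℂ) + 1) * s)

/-- Real version. -/
noncomputable def Dr (c : ℕ → ℝ) (u : ℝ) : ℝ :=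
  ∑' k : ℕ, c k * Real.exp (-((k : ℝ) + 1) * u)

theorem Pg.abs {c : ℕ → ℝ} (h : Pg c) : Pg (fun k => |c k|) := by
  obtain ⟨C, m, hC, h⟩ := h
  exact ⟨C, m, hC, fun k => by rw [abs_abs]; exact h k⟩

theorem Pg.mul {c : ℕ → ℝ} (h : Pg c) : Pg (fun k => ((k : ℝ) + 1) * c k) := by
  obtain ⟨C, m, hC, h⟩ := h
  refine ⟨C, m + 1, hC, fun k => ?_⟩
  have hk : (0 : ℝ) < (k : ℝ) + 1 := by positivity
  rw [abs_mul, abs_of_pos hk, pow_succ]
  calc ((k : ℝ) + 1) * |c k| ≤ ((k : ℝ) + 1) * (C * ((k : ℝ) + 1) ^ m) := by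
        gcongr; exact h k
    _ = C * (((k : ℝ) + 1) ^ m * ((k : ℝ) + 1)) := by ring

theorem Pg.summable {c : ℕ → ℝ} (h : Pg c) {u : ℝ} (hu : 0 < u) :
    Summable fun k : ℕ => c k * Real.exp (-((k : ℝ) + 1) * u) := by
  obtain ⟨C, m, hC, h⟩ := h
  have hr : ‖Real.exp (-u)‖ < 1 := by
    rw [Real.norm_of_nonneg (Real.exp_pos _).le]
    exact Real.exp_lt_one_iff.mpr (by linarith)
  have h1 := summable_pow_mul_geometric_of_norm_lt_one m hr
  have h2 : Summable fun k : ℕ => ((k + 1 : ℕ) : ℝ) ^ m * (Real.exp (-u)) ^ (k + 1) :=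
    (summable_nat_add_iff (f := fun n : ℕ => ((n : ℕ) : ℝ) ^ m * (Real.exp (-u)) ^ n) 1).mpr h1
  refine Summable.of_norm_bounded (h2.mul_left C) ?_
  intro k
  rw [norm_mul, Real.norm_eq_abs, Real.norm_of_nonneg (Real.exp_pos _).le]
  have h3 : Real.exp (-((k : ℝ) + 1) * u) = (Real.exp (-u)) ^ (k + 1) := by
    rw [← Real.exp_nat_mul]
    congr 1
    push_cast
    ring
  rw [h3]
  have h4 := h k
  push_cast
  calc |c k| * Real.exp (-u) ^ (k + 1) ≤ (C * ((k : ℝ) + 1) ^ m) * Real.exp (-u) ^ (k + 1) := by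
        gcongr
    _ = C * (((k : ℝ) + 1) ^ m * Real.exp (-u) ^ (k + 1)) := by ring

theorem norm_term (c : ℕ → ℝ) (s : ℂ) (k : ℕ) :
    ‖(c k : ℂ) * Complex.exp (-((k : ℂ) + 1) * s)‖ = |c k| * Real.exp (-((k : ℝ) + 1) * s.re) := by
  rw [norm_mul, Complex.norm_real, Real.norm_eq_abs, Complex.norm_exp]
  congr 2
  have : (-((k : ℂ) + 1)) = ((-((k : ℝ) + 1) : ℝ) : ℂ) := by push_cast; ring
  rw [this, Complex.re_ofReal_mul]

theorem Pg.summable_norm {c : ℕ → ℝ} (h : Pg c) {s : ℂ} (hs : 0 < s.re) :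
    Summable fun k : ℕ => ‖(c k : ℂ) * Complex.exp (-((k : ℂ) + 1) * s)‖ := by
  have h1 := h.abs.summable hs
  refine h1.congr ?_
  intro k
  rw [norm_term]

theorem Pg.summable_c {c : ℕ → ℝ} (h : Pg c) {s : ℂ} (hs : 0 < s.re) :
    Summable fun k : ℕ => (c k : ℂ) * Complex.exp (-((k : ℂ) + 1) * s) :=
  (h.summable_norm hs).of_norm

theorem norm_Ds_le {c : ℕ → ℝ} (h : Pg c) (hc : ∀ k, 0 ≤ c k) {s : ℂ} (hs : 0 < s.re) :
    ‖Ds c s‖ ≤ Dr c s.re := by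
  unfold Ds Dr
  refine (norm_tsum_le_tsum_norm (h.summable_norm hs)).trans (le_of_eq ?_)
  refine tsum_congr ?_
  intro k
  rw [norm_term, abs_of_nonneg (hc k)]

theorem Ds_ofReal (c : ℕ → ℝ) (u : ℝ) : Ds c (u : ℂ) = (Dr c u : ℂ) := by
  unfold Ds Dr
  rw [Complex.ofReal_tsum]
  refine tsum_congr ?_
  intro k
  push_cast
  rfl

theorem isPreconnected_re (r : ℝ) : IsPreconnected {s : ℂ | r < s.re} :=
  (convex_halfSpace_re_gt r).isPreconnected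

theorem isOpen_re (r : ℝ) : IsOpen {s : ℂ | r < s.re} :=
  isOpen_lt continuous_const Complex.continuous_re

theorem hasDerivAt_Ds {c : ℕ → ℝ} (h : Pg c) {s : ℂ} (hs : 0 < s.re) :
    HasDerivAt (Ds c) (-(Ds (fun k => ((k : ℝ) + 1) * c k) s)) s := by
  set r := s.re / 2 with hr
  have hr0 : 0 < r := by rw [hr]; linarith
  have hsr : s ∈ {z : ℂ | r < z.re} := by
    show r < s.re
    rw [hr]; linarith
  have key := hasDerivAt_tsum_of_isPreconnected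
    (g := fun (k : ℕ) (z : ℂ) => (c k : ℂ) * Complex.exp (-((k : ℂ) + 1) * z))
    (g' := fun (k : ℕ) (z : ℂ) => (c k : ℂ) * (Complex.exp (-((k : ℂ) + 1) * z) * (-((k : ℂ) + 1))))
    (u := fun k : ℕ => |((k : ℝ) + 1) * c k| * Real.exp (-((k : ℝ) + 1) * r))
    (t := {z : ℂ | r < z.re}) (y₀ := s) (y := s)
    (h.mul.abs.summable hr0) (isOpen_re r) (isPreconnected_re r) ?_ ?_ hsr (h.summable_c hs) hsr
  · have h2 : (∑' k : ℕ, (c k : ℂ) * (Complex.exp (-((k : ℂ) + 1) * s) * (-((k : ℂ) + 1))))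
        = -(Ds (fun k => ((k : ℝ) + 1) * c k) s) := by
      unfold Ds
      rw [← tsum_neg]
      refine tsum_congr ?_
      intro k
      push_cast
      ring
    rw [h2] at key
    exact key
  · intro k z _
    have h3 : HasDerivAt (fun z : ℂ => (-((k : ℂ) + 1)) * z) (-((k : ℂ) + 1)) z := by
      simpa using (hasDerivAt_id z).const_mul (-((k : ℂ) + 1))
    exact (h3.cexp).const_mul (c k : ℂ)
  · intro k z hz
    have hz' : r < z.re := hz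
    have h4 : (c k : ℂ) * (Complex.exp (-((k : ℂ) + 1) * z) * (-((k : ℂ) + 1)))
        = -(((((k : ℝ) + 1) * c k : ℝ) : ℂ) * Complex.exp (-((k : ℂ) + 1) * z)) := by
      push_cast; ring
    rw [h4, norm_neg, norm_term (fun k => ((k : ℝ) + 1) * c k) z k]
    have hk : (0 : ℝ) < (k : ℝ) + 1 := by positivity
    gcongr ?_ * Real.exp ?_
    nlinarith

/-- `σ(k+1)/(k+1)`. -/
noncomputable def cL (k : ℕ) : ℝ := (sg (k + 1) : ℝ) / ((k : ℝ) + 1)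
/-- `σ(k+1)`. -/
noncomputable def cG (k : ℕ) : ℝ := (sg (k + 1) : ℝ)
/-- `(k+1) σ(k+1)`. -/
noncomputable def cG1 (k : ℕ) : ℝ := ((k : ℝ) + 1) * (sg (k + 1) : ℝ)
/-- `(k+1)^2 σ(k+1)`. -/
noncomputable def cG2 (k : ℕ) : ℝ := ((k : ℝ) + 1) * cG1 k

theorem cL_nonneg (k : ℕ) : 0 ≤ cL k := by unfold cL; positivity
theorem cG_nonneg (k : ℕ) : 0 ≤ cG k := by unfold cG; positivity
theorem cG1_nonneg (k : ℕ) : 0 ≤ cG1 k := by unfold cG1; positivity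
theorem cG2_nonneg (k : ℕ) : 0 ≤ cG2 k := by
  unfold cG2
  have := cG1_nonneg k
  positivity

theorem pg_cL : Pg cL := by
  refine ⟨1, 1, by norm_num, fun k => ?_⟩
  rw [abs_of_nonneg (cL_nonneg k)]
  unfold cL
  have hk : (0 : ℝ) < (k : ℝ) + 1 := by positivity
  rw [div_le_iff₀ hk]
  have h1 : (2 * sg (k + 1) : ℝ) ≤ ((k : ℝ) + 1) * ((k : ℝ) + 2) := by
    exact_mod_cast sg_le_tri k
  have hk0 : (0 : ℝ) ≤ (k : ℝ) := by positivity
  nlinarith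

theorem pg_cG : Pg cG := by
  have h : cG = fun k : ℕ => ((k : ℝ) + 1) * cL k := by
    funext k
    unfold cG cL
    have hk : ((k : ℝ) + 1) ≠ 0 := by positivity
    field_simp
  rw [h]
  exact pg_cL.mul

theorem pg_cG1 : Pg cG1 := pg_cG.mul
theorem pg_cG2 : Pg cG2 := pg_cG1.mul

/-- `L(s) = ∑ σ(k)/k e^{-ks}`. -/
noncomputable def L (s : ℂ) : ℂ := Ds cL s
/-- `G(s) = ∑ σ(k) e^{-ks}`. -/
noncomputable def G (s : ℂ) : ℂ := Ds cG s
/-- `G1(s) = ∑ k σ(k) e^{-ks}`. -/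
noncomputable def G1 (s : ℂ) : ℂ := Ds cG1 s

theorem hasDerivAt_L {s : ℂ} (hs : 0 < s.re) : HasDerivAt L (-(G s)) s := by
  have h := hasDerivAt_Ds pg_cL hs
  have h2 : (fun k : ℕ => ((k : ℝ) + 1) * cL k) = cG := by
    funext k
    unfold cG cL
    have hk : ((k : ℝ) + 1) ≠ 0 := by positivity
    field_simp
  rw [h2] at h
  exact h

theorem hasDerivAt_G {s : ℂ} (hs : 0 < s.re) : HasDerivAt G (-(G1 s)) s :=
  hasDerivAt_Ds pg_cG hs

end Pool.Agent.Lib.MP_d73f62_nt
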