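import Mathlib
import Pool.Agent.Lib.MP_d73f62_nt.Series

set_option autoImplicit false

open Complex UpperHalfPlane EisensteinSeries
open scoped Real

namespace Pool.Agent.Lib.MP_d73f62_nt

/-- The point `i s / (2π)` of the upper half plane. -/
noncomputable def toH (s : ℂ) (hs : 0 < s.re) : ℍ :=
  ⟨Complex.I * s / (2 * π), by
    have h1 : (Complex.I * s / (2 * π)) = ((1 / (2 * π) : ℝ) : ℂ) * (Complex.I * s) := by
      push_cast; ring
    rw [h1, Complex.im_ofReal_mul]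
    have h2 : (Complex.I * s).im = s.re := by simp
    rw [h2]
    positivity⟩

theorem toH_coe (s : ℂ) (hs : 0 < s.re) : (toH s hs : ℂ) = Complex.I * s / (2 * π) := rfl

theorem E2_toH (s : ℂ) (hs : 0 < s.re) : E2 (toH s hs) = 1 - 24 * G s := by
  rw [E2_eq_tsum_cexp]
  congr 2
  rw [tsum_pnat_eq_tsum_succ (f := fun n : ℕ => (ArithmeticFunction.sigma 1 n : ℂ) *
    cexp (2 * π * Complex.I * (toH s hs : ℂ)) ^ n)]
  unfold G Ds
  refine tsum_congr ?_
  intro k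
  unfold cG sg
  rw [← Complex.exp_nat_mul, toH_coe]
  have hpi : (π : ℂ) ≠ 0 := by exact_mod_cast Real.pi_ne_zero
  have h1 : ((k + 1 : ℕ) : ℂ) * (2 * π * Complex.I * (Complex.I * s / (2 * π)))
      = -((k : ℂ) + 1) * s := by
    push_cast
    field_simp
    rw [Complex.I_sq]
    ring
  rw [h1]
  push_cast
  rfl

theorem re_inv_pos {s : ℂ} (hs : 0 < s.re) : 0 < (4 * (π : ℂ) ^ 2 / s).re := by
  have h1 : (4 * (π : ℂ) ^ 2 / s) = ((4 * π ^ 2 : ℝ) : ℂ) * s⁻¹ := by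
    push_cast; rw [div_eq_mul_inv]
  rw [h1, Complex.re_ofReal_mul, Complex.inv_re]
  have h2 : 0 < Complex.normSq s := by
    rw [Complex.normSq_pos]
    intro h; rw [h] at hs; simp at hs
  positivity

theorem ne_zero_of_re_pos {s : ℂ} (hs : 0 < s.re) : s ≠ 0 := by
  intro h; rw [h] at hs; simp at hs

/-- The modular transformation of `G`. -/
theorem G_transform (s : ℂ) (hs : 0 < s.re) :
    G s = (π : ℂ) ^ 2 / (6 * s ^ 2) - 1 / (2 * s) + 1 / 24
      - 4 * (π : ℂ) ^ 2 / s ^ 2 * G (4 * (π : ℂ) ^ 2 / s) := by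
  have hpi : (π : ℂ) ≠ 0 := by exact_mod_cast Real.pi_ne_zero
  have hs0 := ne_zero_of_re_pos hs
  have h1 := G2_S_transform (toH s hs)
  have hS : ModularGroup.S • (toH s hs) = toH (4 * (π : ℂ) ^ 2 / s) (re_inv_pos hs) := by
    ext
    rw [UpperHalfPlane.modular_S_smul]
    show (-(Complex.I * s / (2 * π)) : ℂ)⁻¹ = Complex.I * (4 * (π : ℂ) ^ 2 / s) / (2 * π)
    have hI : (Complex.I : ℂ) ≠ 0 := Complex.I_ne_zero
    field_simp
    rw [Complex.I_sq]
    ring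
  rw [hS] at h1
  have hE : ∀ z : ℍ, G2 z = (π : ℂ) ^ 2 / 3 * E2 z := by
    intro z
    simp only [E2, Pi.smul_apply, smul_eq_mul, riemannZeta_two]
    field_simp
    ring
  rw [hE, hE, E2_toH, E2_toH, toH_coe] at h1
  have hI : (Complex.I : ℂ) ≠ 0 := Complex.I_ne_zero
  have h2 : (24 : ℂ) * G s = 1 - (1 - 24 * G s) := by ring
  have h3 : (1 - 24 * G s) = 3 / (π : ℂ) ^ 2 * ((π : ℂ) ^ 2 / 3 * (1 - 24 * G s)) := by
    field_simp
  have h4 : G s = (1 / 24) * (24 * G s) := by ring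
  rw [h4, h2, h3, h1]
  have hI2 : (Complex.I * s / (2 * (π : ℂ))) ^ 2 = -(s ^ 2 / (4 * (π : ℂ) ^ 2)) := by
    rw [div_pow, mul_pow, Complex.I_sq]
    field_simp
    ring
  rw [hI2]
  field_simp
  ring

end Pool.Agent.Lib.MP_d73f62_nt
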