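import Mathlib
import Pool.Agent.Lib.MP_d73f62_nt.Transform

set_option autoImplicit false

open Complex
open scoped Real

namespace Pool.Agent.Lib.MP_d73f62_nt

theorem hasDerivAt_inv_arg {s : ℂ} (hs : 0 < s.re) :
    HasDerivAt (fun z : ℂ => 4 * (π : ℂ) ^ 2 / z) (-(4 * (π : ℂ) ^ 2 / s ^ 2)) s := by
  have hs0 := ne_zero_of_re_pos hs
  have h := (hasDerivAt_inv hs0).const_mul (4 * (π : ℂ) ^ 2)
  refine (h.congr_deriv ?_).congr_of_eventuallyEq ?_
  · field_simp
  · exact Filter.Eventually.of_forall fun z => by simp [div_eq_mul_inv]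

/-- Transformation of `G1`. -/
theorem G1_transform (s : ℂ) (hs : 0 < s.re) :
    G1 s = (π : ℂ) ^ 2 / (3 * s ^ 3) - 1 / (2 * s ^ 2)
      - 8 * (π : ℂ) ^ 2 / s ^ 3 * G (4 * (π : ℂ) ^ 2 / s)
      + 16 * (π : ℂ) ^ 4 / s ^ 4 * G1 (4 * (π : ℂ) ^ 2 / s) := by
  have hs0 := ne_zero_of_re_pos hs
  have hw := re_inv_pos hs
  have h1 := hasDerivAt_G hs
  -- derivative of the right hand side
  have hinv2 : HasDerivAt (fun z : ℂ => (π : ℂ) ^ 2 / (6 * z ^ 2)) (-(π : ℂ) ^ 2 / (3 * s ^ 3)) s := by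
    have h := ((hasDerivAt_pow 2 s).inv (pow_ne_zero 2 hs0)).const_mul ((π : ℂ) ^ 2 / 6)
    refine (h.congr_deriv ?_).congr_of_eventuallyEq ?_
    · push_cast
      field_simp
      norm_num
    · exact Filter.Eventually.of_forall fun z => by
        simp [div_eq_mul_inv]
        ring
  have hinv1 : HasDerivAt (fun z : ℂ => 1 / (2 * z)) (-(1 / (2 * s ^ 2))) s := by
    have h := (hasDerivAt_inv hs0).const_mul ((1 : ℂ) / 2)
    refine (h.congr_deriv ?_).congr_of_eventuallyEq ?_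
    · field_simp
    · exact Filter.Eventually.of_forall fun z => by
        simp [div_eq_mul_inv]
        ring
  have hpre : HasDerivAt (fun z : ℂ => 4 * (π : ℂ) ^ 2 / z ^ 2) (-(8 * (π : ℂ) ^ 2 / s ^ 3)) s := by
    have h := ((hasDerivAt_pow 2 s).inv (pow_ne_zero 2 hs0)).const_mul (4 * (π : ℂ) ^ 2)
    refine (h.congr_deriv ?_).congr_of_eventuallyEq ?_
    · push_cast
      field_simp
      norm_num
    · exact Filter.Eventually.of_forall fun z => by
        simp [div_eq_mul_inv]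
  have hGw : HasDerivAt (fun z : ℂ => G (4 * (π : ℂ) ^ 2 / z))
      (-(G1 (4 * (π : ℂ) ^ 2 / s)) * (-(4 * (π : ℂ) ^ 2 / s ^ 2))) s :=
    (hasDerivAt_G hw).comp s (hasDerivAt_inv_arg hs)
  have hR := ((hinv2.sub hinv1).add_const (1 / 24)).sub (hpre.mul hGw)
  have hev : (fun z : ℂ => G z) =ᶠ[nhds s] fun z => (((π : ℂ) ^ 2 / (6 * z ^ 2) - 1 / (2 * z)) + 1 / 24)
      - 4 * (π : ℂ) ^ 2 / z ^ 2 * G (4 * (π : ℂ) ^ 2 / z) := by
    filter_upwards [(isOpen_re 0).mem_nhds hs] with z hz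
    exact G_transform z hz
  have h2 := h1.congr_of_eventuallyEq hev.symm
  have h3 := h2.unique hR
  have h4 : G1 s = -(-(G1 s)) := by ring
  rw [h4, h3]
  field_simp
  ring

/-- Transformation of `L`. -/
theorem L_transform (s : ℂ) (hs : 0 < s.re) :
    L s = (π : ℂ) ^ 2 / (6 * s) + 1 / 2 * Complex.log s - 1 / 2 * Complex.log (2 * π) - s / 24
      + L (4 * (π : ℂ) ^ 2 / s) := by
  set W : ℂ → ℂ := fun z => L z - (π : ℂ) ^ 2 / (6 * z) - 1 / 2 * Complex.log z + z / 24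
    - L (4 * (π : ℂ) ^ 2 / z) with hW
  have hder : ∀ z ∈ {z : ℂ | 0 < z.re}, HasDerivAt W 0 z := by
    intro z hz
    have hz' : 0 < z.re := hz
    have hz0 := ne_zero_of_re_pos hz'
    have h1 := hasDerivAt_L hz'
    have h2 : HasDerivAt (fun z : ℂ => (π : ℂ) ^ 2 / (6 * z)) (-((π : ℂ) ^ 2 / (6 * z ^ 2))) z := by
      have h := (hasDerivAt_inv hz0).const_mul ((π : ℂ) ^ 2 / 6)
      refine (h.congr_deriv ?_).congr_of_eventuallyEq ?_
      · field_simp
      · exact Filter.Eventually.of_forall fun z => by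
          simp [div_eq_mul_inv]
          ring
    have h3 : HasDerivAt (fun z : ℂ => 1 / 2 * Complex.log z) (1 / 2 * z⁻¹) z :=
      (Complex.hasDerivAt_log (Or.inl hz')).const_mul (1 / 2)
    have h4 : HasDerivAt (fun z : ℂ => z / 24) (1 / 24) z := (hasDerivAt_id z).div_const 24
    have h5 : HasDerivAt (fun z : ℂ => L (4 * (π : ℂ) ^ 2 / z))
        (-(G (4 * (π : ℂ) ^ 2 / z)) * (-(4 * (π : ℂ) ^ 2 / z ^ 2))) z :=
      (hasDerivAt_L (re_inv_pos hz')).comp z (hasDerivAt_inv_arg hz')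
    have h6 := (((h1.sub h2).sub h3).add h4).sub h5
    refine h6.congr_deriv ?_
    rw [G_transform z hz']
    field_simp
    ring
  have hconst : ∀ z ∈ {z : ℂ | 0 < z.re}, ∀ w ∈ {z : ℂ | 0 < z.re}, W z = W w := by
    intro z hz w hw
    have hconv : Convex ℝ {z : ℂ | 0 < z.re} := convex_halfSpace_re_gt 0
    have h := hconv.norm_image_sub_le_of_norm_hasDerivWithin_le (f := W) (f' := fun _ => 0) (C := 0)
      (fun x hx => (hder x hx).hasDerivWithinAt) (fun x _ => by simp) hw hz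
    rw [zero_mul] at h
    have := norm_le_zero_iff.mp h
    exact sub_eq_zero.mp this
  have h2pi : (2 * (π : ℂ)) ∈ {z : ℂ | 0 < z.re} := by
    show 0 < (2 * (π : ℂ)).re
    have : (2 * (π : ℂ)) = ((2 * π : ℝ) : ℂ) := by push_cast; ring
    rw [this, Complex.ofReal_re]
    positivity
  have h7 := hconst s hs (2 * π) h2pi
  have hpi : (π : ℂ) ≠ 0 := by exact_mod_cast Real.pi_ne_zero
  have h8 : W (2 * π) = - (1 / 2 * Complex.log (2 * π)) := by
    simp only [hW]
    have h9 : 4 * (π : ℂ) ^ 2 / (2 * π) = 2 * π := by field_simp; ring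
    rw [h9]
    field_simp
    ring
  rw [h8] at h7
  simp only [hW] at h7
  linear_combination h7

end Pool.Agent.Lib.MP_d73f62_nt
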