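import Mathlib
import Pool.Agent.Lib.MP_d73f62_nt.LTransform

set_option autoImplicit false

open Complex
open scoped Real

namespace Pool.Agent.Lib.MP_d73f62_nt

theorem summable_prod_aux {q : ℂ} (hq : ‖q‖ < 1) :
    Summable fun c : ℕ+ × ℕ+ => (1 / (c.1 : ℂ)) * q ^ (c.1 * c.2 : ℕ) := by
  have hq' : ‖(‖q‖ : ℝ)‖ < 1 := by rwa [norm_norm]
  have h := summable_prod_mul_pow 0 hq'
  refine Summable.of_norm_bounded h ?_
  intro c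
  rw [norm_mul, norm_div, norm_one, norm_pow, pow_zero, one_mul]
  have h1 : (1 : ℝ) ≤ ‖((c.1 : ℕ) : ℂ)‖ := by
    rw [Complex.norm_natCast]
    exact_mod_cast c.1.2
  have h2 : 1 / ‖((c.1 : ℕ) : ℂ)‖ ≤ 1 := by
    rw [div_le_one (by linarith)]
    exact h1
  calc 1 / ‖((c.1 : ℕ) : ℂ)‖ * ‖q‖ ^ (c.1 * c.2 : ℕ) ≤ 1 * ‖q‖ ^ (c.1 * c.2 : ℕ) := by
        gcongr
    _ = ‖q‖ ^ (c.1 * c.2 : ℕ) := one_mul _

theorem sum_inv_divisors (n : ℕ) (hn : 0 < n) :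
    ∑ d ∈ n.divisors, (1 / (d : ℂ)) = (sg n : ℂ) / (n : ℂ) := by
  have hn0 : (n : ℂ) ≠ 0 := by exact_mod_cast hn.ne'
  rw [eq_div_iff hn0, Finset.sum_mul, sg, ArithmeticFunction.sigma_one_apply]
  rw [← Nat.sum_div_divisors n (fun d => d)]
  push_cast
  refine Finset.sum_congr rfl ?_
  intro d hd
  have hdn : d ∣ n := Nat.dvd_of_mem_divisors hd
  have hd0 : (d : ℂ) ≠ 0 := by
    have := Nat.pos_of_mem_divisors hd
    exact_mod_cast this.ne'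
  rw [Nat.cast_div hdn hd0]
  field_simp

theorem lambert_q {q : ℂ} (hq : ‖q‖ < 1) :
    ∑' n : ℕ+, ((sg n : ℂ) / ((n : ℕ) : ℂ)) * q ^ (n : ℕ)
      = ∑' a : ℕ+, (1 / ((a : ℕ) : ℂ)) * (q ^ (a : ℕ) / (1 - q ^ (a : ℕ))) := by
  have hs := summable_prod_aux hq
  have h1 : ∑' c : ℕ+ × ℕ+, (1 / (c.1 : ℂ)) * q ^ (c.1 * c.2 : ℕ)
      = ∑' a : ℕ+, (1 / ((a : ℕ) : ℂ)) * (q ^ (a : ℕ) / (1 - q ^ (a : ℕ))) := by
    rw [hs.tsum_prod]
    refine tsum_congr ?_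
    intro a
    simp only []
    rw [tsum_mul_left]
    congr 1
    have ha : ‖q ^ (a : ℕ)‖ < 1 := by
      rw [norm_pow]
      exact pow_lt_one₀ (norm_nonneg _) hq a.ne_zero
    have h2 : ∀ b : ℕ+, q ^ ((a : ℕ) * (b : ℕ)) = (q ^ (a : ℕ)) ^ (b : ℕ) := fun b => pow_mul _ _ _
    simp_rw [h2]
    rw [tsum_pnat_eq_tsum_succ (f := fun b : ℕ => (q ^ (a : ℕ)) ^ b)]
    simp_rw [pow_succ']
    rw [tsum_mul_left, tsum_geometric_of_norm_lt_one ha, div_eq_mul_inv]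
  have h3 : ∑' c : ℕ+ × ℕ+, (1 / (c.1 : ℂ)) * q ^ (c.1 * c.2 : ℕ)
      = ∑' n : ℕ+, ((sg n : ℂ) / ((n : ℕ) : ℂ)) * q ^ (n : ℕ) := by
    have hs' : Summable fun c : (n : ℕ+) × {x // x ∈ (n : ℕ).divisorsAntidiagonal} =>
        (1 / ((c.2.1.1 : ℕ) : ℂ)) * q ^ (c.2.1.1 * c.2.1.2 : ℕ) := by
      have := (sigmaAntidiagonalEquivProd.summable_iff (f := fun c : ℕ+ × ℕ+ =>
        (1 / (c.1 : ℂ)) * q ^ (c.1 * c.2 : ℕ))).mpr hs
      exact this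
    rw [← sigmaAntidiagonalEquivProd.tsum_eq]
    have h4 : (∑' c : (n : ℕ+) × {x // x ∈ (n : ℕ).divisorsAntidiagonal},
        (1 / (((sigmaAntidiagonalEquivProd c).1 : ℕ+) : ℂ)) *
          q ^ ((sigmaAntidiagonalEquivProd c).1 * (sigmaAntidiagonalEquivProd c).2 : ℕ))
        = ∑' c : (n : ℕ+) × {x // x ∈ (n : ℕ).divisorsAntidiagonal},
        (1 / ((c.2.1.1 : ℕ) : ℂ)) * q ^ (c.2.1.1 * c.2.1.2 : ℕ) := rfl
    rw [h4, hs'.tsum_sigma]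
    refine tsum_congr ?_
    intro n
    rw [tsum_fintype]
    rw [Finset.univ_eq_attach]
    rw [(n : ℕ).divisorsAntidiagonal.sum_attach
      (fun x : ℕ × ℕ => (1 / ((x.1 : ℕ) : ℂ)) * q ^ (x.1 * x.2 : ℕ))]
    rw [Nat.sum_divisorsAntidiagonal (fun x y => (1 / ((x : ℕ) : ℂ)) * q ^ (x * y : ℕ))]
    rw [← sum_inv_divisors n n.pos, Finset.sum_mul]
    refine Finset.sum_congr rfl ?_
    intro d hd
    rw [Nat.mul_div_cancel' (Nat.dvd_of_mem_divisors hd)]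
  rw [← h3, h1]

theorem norm_exp_neg_lt {s : ℂ} (hs : 0 < s.re) : ‖cexp (-s)‖ < 1 := by
  rw [Complex.norm_exp]
  exact Real.exp_lt_one_iff.mpr (by simpa using hs)

theorem exp_sub_one_ne {s : ℂ} (hs : 0 < s.re) : cexp s - 1 ≠ 0 := by
  intro h
  have h1 : cexp s = 1 := sub_eq_zero.mp h
  have h2 : ‖cexp s‖ = 1 := by rw [h1, norm_one]
  rw [Complex.norm_exp] at h2
  have := (Real.exp_eq_one_iff s.re).mp h2
  linarith

theorem L_lambert {s : ℂ} (hs : 0 < s.re) :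
    L s = ∑' l : ℕ, (1 / ((l : ℂ) + 1)) * (1 / (cexp (((l : ℂ) + 1) * s) - 1)) := by
  have h := lambert_q (norm_exp_neg_lt hs)
  rw [tsum_pnat_eq_tsum_succ (f := fun n : ℕ => ((sg n : ℂ) / ((n : ℕ) : ℂ)) * cexp (-s) ^ (n : ℕ)),
    tsum_pnat_eq_tsum_succ (f := fun a : ℕ => (1 / ((a : ℕ) : ℂ)) *
      (cexp (-s) ^ (a : ℕ) / (1 - cexp (-s) ^ (a : ℕ))))] at h
  unfold L Ds
  have h1 : ∀ k : ℕ, ((cL k : ℝ) : ℂ) * cexp (-((k : ℂ) + 1) * s)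
      = ((sg (k + 1) : ℂ) / ((k + 1 : ℕ) : ℂ)) * cexp (-s) ^ (k + 1) := by
    intro k
    rw [← Complex.exp_nat_mul]
    unfold cL
    push_cast
    congr 2
    ring
  simp_rw [h1]
  rw [h]
  refine tsum_congr ?_
  intro l
  push_cast
  congr 1
  rw [← Complex.exp_nat_mul]
  have h2 : ((l + 1 : ℕ) : ℂ) * -s = -(((l : ℂ) + 1) * s) := by push_cast; ring
  rw [h2, Complex.exp_neg]
  have hre : 0 < (((l : ℂ) + 1) * s).re := by
    have h3 : ((l : ℂ) + 1) = (((l : ℝ) + 1 : ℝ) : ℂ) := by push_cast; ring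
    rw [h3, Complex.re_ofReal_mul]
    positivity
  have h4 := exp_sub_one_ne hre
  have h5 : cexp (((l : ℂ) + 1) * s) ≠ 0 := Complex.exp_ne_zero _
  field_simp

end Pool.Agent.Lib.MP_d73f62_nt
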