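import Mathlib
import Pool.Agent.Lib.MP_d73f62_nt.Lambert

set_option autoImplicit false

open Complex
open scoped Real

namespace Pool.Agent.Lib.MP_d73f62_nt

/-- Real values of `L`. -/
noncomputable def Lr (u : ℝ) : ℝ := Dr cL u

theorem L_ofReal (u : ℝ) : L (u : ℂ) = (Lr u : ℂ) := Ds_ofReal cL u

/-- `h σ θ = - Im L(σ + iθ)`. -/
noncomputable def h (σ θ : ℝ) : ℝ := -(L ((σ : ℂ) + θ * I)).im

/-- One Lambert term. -/
noncomputable def tau (u v : ℝ) : ℝ := Real.sin v / (2 * (Real.cosh u - Real.cos v))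

theorem cosh_sub_cos_pos {u : ℝ} (hu : 0 < u) (v : ℝ) : 0 < Real.cosh u - Real.cos v := by
  have h1 : 1 < Real.cosh u := Real.one_lt_cosh.mpr hu.ne'
  have h2 := Real.cos_le_one v
  linarith

theorem im_inv_exp {u : ℝ} (hu : 0 < u) (v : ℝ) :
    (1 / (cexp ((u : ℂ) + v * I) - 1)).im = -tau u v := by
  have h1 := cosh_sub_cos_pos hu v
  rw [one_div, Complex.inv_im]
  have him : (cexp ((u : ℂ) + v * I) - 1).im = Real.exp u * Real.sin v := by
    rw [Complex.sub_im, Complex.exp_im]; simp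
  have hre : (cexp ((u : ℂ) + v * I) - 1).re = Real.exp u * Real.cos v - 1 := by
    rw [Complex.sub_re, Complex.exp_re]; simp
  have hn : Complex.normSq (cexp ((u : ℂ) + v * I) - 1)
      = 2 * Real.exp u * (Real.cosh u - Real.cos v) := by
    rw [Complex.normSq_apply, him, hre, Real.cosh_eq]
    have h2 : Real.exp (-u) * Real.exp u = 1 := by rw [← Real.exp_add]; simp
    have h3 := Real.sin_sq_add_cos_sq v
    have h4 : 2 * Real.exp u * ((Real.exp u + Real.exp (-u)) / 2 - Real.cos v)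
        = Real.exp u ^ 2 + Real.exp (-u) * Real.exp u - 2 * Real.exp u * Real.cos v := by ring
    rw [h4, h2]
    nlinarith
  rw [him, hn, tau]
  have h5 : Real.exp u ≠ 0 := (Real.exp_pos u).ne'
  field_simp

theorem tau_le {u : ℝ} (hu : 0 < u) (v : ℝ) : tau u v ≤ 1 / (2 * Real.sinh u) := by
  have h1 := cosh_sub_cos_pos hu v
  have h2 : 0 < Real.sinh u := Real.sinh_pos_iff.mpr hu
  rw [tau, div_le_div_iff₀ (by positivity) (by positivity)]
  have h3 := Real.cosh_sq u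
  have h4 := Real.sin_sq_add_cos_sq v
  have h5 : Real.sinh u * Real.sin v + Real.cos v ≤ Real.cosh u := by
    have h6 : (Real.sinh u * Real.sin v + Real.cos v) ^ 2 ≤ Real.cosh u ^ 2 := by
      nlinarith [sq_nonneg (Real.sinh u * Real.cos v - Real.sin v)]
    exact abs_le_of_sq_le_sq' h6 (by linarith [Real.one_le_cosh u]) |>.2
  linarith

theorem one_div_sinh {u : ℝ} (hu : 0 < u) :
    1 / (2 * Real.sinh u) = 1 / (Real.exp u - 1) - 1 / (Real.exp (2 * u) - 1) := by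
  have h1 : 1 < Real.exp u := Real.one_lt_exp_iff.mpr hu
  have h2 : Real.exp (2 * u) = Real.exp u ^ 2 := by
    rw [← Real.exp_nat_mul]; norm_num
  have h3 : Real.exp (-u) = 1 / Real.exp u := by rw [Real.exp_neg, one_div]
  rw [h2, Real.sinh_eq, h3]
  have h4 : Real.exp u - 1 ≠ 0 := by linarith
  have h5 : Real.exp u ^ 2 - 1 ≠ 0 := by nlinarith
  have h6 : Real.exp u ≠ 0 := by positivity
  have h7 : Real.exp u - 1 / Real.exp u ≠ 0 := by
    have : Real.exp u - 1 / Real.exp u = (Real.exp u ^ 2 - 1) / Real.exp u := by field_simp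
    rw [this]; positivity
  have h8 : Real.exp u ^ 2 - 1 = (Real.exp u - 1) * (Real.exp u + 1) := by ring
  have h9 : Real.exp u + 1 ≠ 0 := by positivity
  rw [h8]
  have h10 : 2 * ((Real.exp u - 1 / Real.exp u) / 2) = (Real.exp u - 1) * (Real.exp u + 1) / Real.exp u := by
    field_simp
    ring
  rw [h10]
  field_simp
  ring

theorem summable_lambert_r {σ : ℝ} (hσ : 0 < σ) :
    Summable fun l : ℕ => (1 / ((l : ℝ) + 1)) * (1 / (Real.exp (((l : ℝ) + 1) * σ) - 1)) := by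
  have h1 : Summable fun l : ℕ => (1 / (1 - Real.exp (-σ))) * (Real.exp (-σ)) ^ (l + 1) := by
    apply Summable.mul_left
    have h2 : Summable fun l : ℕ => (Real.exp (-σ)) ^ l :=
      summable_geometric_of_lt_one (Real.exp_pos _).le (Real.exp_lt_one_iff.mpr (by linarith))
    exact (summable_nat_add_iff 1).mpr h2
  have h0 : Real.exp (-σ) < 1 := Real.exp_lt_one_iff.mpr (by linarith)
  refine Summable.of_nonneg_of_le ?_ ?_ h1
  · intro l
    have h3 : 1 < Real.exp (((l : ℝ) + 1) * σ) := Real.one_lt_exp_iff.mpr (by positivity)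
    have h4 : 0 < Real.exp (((l : ℝ) + 1) * σ) - 1 := by linarith
    positivity
  · intro l
    have h3 : 1 < Real.exp (((l : ℝ) + 1) * σ) := Real.one_lt_exp_iff.mpr (by positivity)
    have h4 : 0 < Real.exp (((l : ℝ) + 1) * σ) - 1 := by linarith
    have h5 : 1 / ((l : ℝ) + 1) ≤ 1 := by
      rw [div_le_one (by positivity)]
      have : (0 : ℝ) ≤ (l : ℝ) := by positivity
      linarith
    have h6 : Real.exp (-σ) ^ (l + 1) = 1 / Real.exp (((l : ℝ) + 1) * σ) := by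
      rw [← Real.exp_nat_mul, one_div, ← Real.exp_neg]
      congr 1
      push_cast; ring
    have h7 : Real.exp (-(((l : ℝ) + 1) * σ)) ≤ Real.exp (-σ) := by
      apply Real.exp_le_exp.mpr
      have : (0 : ℝ) ≤ (l : ℝ) := by positivity
      nlinarith
    rw [h6]
    have h8 : 1 / (Real.exp (((l : ℝ) + 1) * σ) - 1)
        ≤ 1 / (1 - Real.exp (-σ)) * (1 / Real.exp (((l : ℝ) + 1) * σ)) := by
      rw [div_mul_div_comm, one_mul]
      have hpos : 0 < (1 - Real.exp (-σ)) * Real.exp (((l : ℝ) + 1) * σ) := by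
        have := Real.exp_pos (((l : ℝ) + 1) * σ)
        have : 0 < 1 - Real.exp (-σ) := by linarith
        positivity
      rw [div_le_div_iff₀ h4 hpos]
      rw [Real.exp_neg] at h7
      have h9 : 1 ≤ Real.exp (-σ) * Real.exp (((l : ℝ) + 1) * σ) := by
        rw [← Real.exp_add]
        apply Real.one_le_exp
        have : (0 : ℝ) ≤ (l : ℝ) := by positivity
        nlinarith
      nlinarith
    calc (1 / ((l : ℝ) + 1)) * (1 / (Real.exp (((l : ℝ) + 1) * σ) - 1))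
        ≤ 1 * (1 / (Real.exp (((l : ℝ) + 1) * σ) - 1)) := by gcongr
      _ = 1 / (Real.exp (((l : ℝ) + 1) * σ) - 1) := one_mul _
      _ ≤ _ := h8

theorem Lr_lambert {σ : ℝ} (hσ : 0 < σ) :
    Lr σ = ∑' l : ℕ, (1 / ((l : ℝ) + 1)) * (1 / (Real.exp (((l : ℝ) + 1) * σ) - 1)) := by
  have h1 := L_lambert (s := (σ : ℂ)) (by simpa using hσ)
  rw [L_ofReal] at h1
  have h2 : ∑' l : ℕ, (1 / ((l : ℂ) + 1)) * (1 / (cexp (((l : ℂ) + 1) * (σ : ℂ)) - 1))
      = ((∑' l : ℕ, (1 / ((l : ℝ) + 1)) * (1 / (Real.exp (((l : ℝ) + 1) * σ) - 1)) : ℝ) : ℂ) := by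
    rw [Complex.ofReal_tsum]
    refine tsum_congr ?_
    intro l
    push_cast
    rfl
  rw [h2] at h1
  exact_mod_cast h1

theorem cexp_term (σ θ : ℝ) (l : ℕ) :
    ((l : ℂ) + 1) * ((σ : ℂ) + θ * I) = ((((l : ℝ) + 1) * σ : ℝ) : ℂ) + ((((l : ℝ) + 1) * θ : ℝ) : ℂ) * I := by
  push_cast; ring

theorem norm_inv_exp_le {u : ℝ} (hu : 0 < u) (v : ℝ) :
    ‖1 / (cexp ((u : ℂ) + v * I) - 1)‖ ≤ 1 / (Real.exp u - 1) := by
  have h1 : 1 < Real.exp u := Real.one_lt_exp_iff.mpr hu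
  rw [norm_div, norm_one]
  have h2 : Real.exp u - 1 ≤ ‖cexp ((u : ℂ) + v * I) - 1‖ := by
    have h3 := norm_sub_norm_le (cexp ((u : ℂ) + v * I)) 1
    rw [norm_one, Complex.norm_exp] at h3
    simpa using h3
  exact one_div_le_one_div_of_le (by linarith) h2

theorem summable_lambert_c {σ : ℝ} (hσ : 0 < σ) (θ : ℝ) :
    Summable fun l : ℕ => (1 / ((l : ℂ) + 1)) *
      (1 / (cexp (((l : ℂ) + 1) * ((σ : ℂ) + θ * I)) - 1)) := by
  refine Summable.of_norm_bounded (summable_lambert_r hσ) ?_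
  intro l
  rw [norm_mul, cexp_term]
  have h1 : ‖(1 / ((l : ℂ) + 1))‖ = 1 / ((l : ℝ) + 1) := by
    rw [norm_div, norm_one]
    congr 1
    have : ((l : ℂ) + 1) = (((l : ℝ) + 1 : ℝ) : ℂ) := by push_cast; ring
    rw [this, Complex.norm_real, Real.norm_of_nonneg (by positivity)]
  rw [h1]
  have h2 := norm_inv_exp_le (u := ((l : ℝ) + 1) * σ) (by positivity) (((l : ℝ) + 1) * θ)
  gcongr

theorem h_hasSum {σ : ℝ} (hσ : 0 < σ) (θ : ℝ) :
    HasSum (fun l : ℕ => (1 / ((l : ℝ) + 1)) * tau (((l : ℝ) + 1) * σ) (((l : ℝ) + 1) * θ)) (h σ θ) := by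
  have h1 := (summable_lambert_c hσ θ).hasSum
  rw [← L_lambert (s := (σ : ℂ) + θ * I) (by simpa using hσ)] at h1
  have h2 := Complex.hasSum_im h1
  have h3 := h2.neg
  unfold h
  refine h3.congr_fun ?_
  intro l
  rw [cexp_term]
  have h4 : (1 / ((l : ℂ) + 1)) = ((1 / ((l : ℝ) + 1) : ℝ) : ℂ) := by push_cast; ring
  rw [h4, Complex.im_ofReal_mul, im_inv_exp (by positivity)]
  ring

/-- The bound (U). -/
theorem h_upper {σ : ℝ} (hσ : 0 < σ) (θ : ℝ) :
    h σ θ ≤ Lr σ - Lr (2 * σ) - 1 / (2 * Real.sinh σ) + tau σ θ := by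
  have h1 := h_hasSum hσ θ
  have hS1 := (summable_lambert_r hσ).hasSum
  rw [← Lr_lambert hσ] at hS1
  have hS2 := (summable_lambert_r (σ := 2 * σ) (by linarith)).hasSum
  rw [← Lr_lambert (by linarith : 0 < 2 * σ)] at hS2
  have hd := (hS1.sub hS2).sub h1
  have hnn : ∀ l : ℕ, 0 ≤ (1 / ((l : ℝ) + 1)) * (1 / (Real.exp (((l : ℝ) + 1) * σ) - 1))
      - (1 / ((l : ℝ) + 1)) * (1 / (Real.exp (((l : ℝ) + 1) * (2 * σ)) - 1))
      - (1 / ((l : ℝ) + 1)) * tau (((l : ℝ) + 1) * σ) (((l : ℝ) + 1) * θ) := by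
    intro l
    have hl : 0 < ((l : ℝ) + 1) * σ := by positivity
    have h2 := tau_le hl (((l : ℝ) + 1) * θ)
    rw [one_div_sinh hl] at h2
    have h3 : ((l : ℝ) + 1) * (2 * σ) = 2 * (((l : ℝ) + 1) * σ) := by ring
    rw [h3]
    have h4 : (0 : ℝ) < 1 / ((l : ℝ) + 1) := by positivity
    have h5 : (1 / ((l : ℝ) + 1)) * (1 / (Real.exp (((l : ℝ) + 1) * σ) - 1))
      - (1 / ((l : ℝ) + 1)) * (1 / (Real.exp (2 * (((l : ℝ) + 1) * σ)) - 1))
      - (1 / ((l : ℝ) + 1)) * tau (((l : ℝ) + 1) * σ) (((l : ℝ) + 1) * θ)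
      = (1 / ((l : ℝ) + 1)) * ((1 / (Real.exp (((l : ℝ) + 1) * σ) - 1)
        - 1 / (Real.exp (2 * (((l : ℝ) + 1) * σ)) - 1)) - tau (((l : ℝ) + 1) * σ) (((l : ℝ) + 1) * θ)) := by
      ring
    rw [h5]
    apply mul_nonneg h4.le
    linarith
  have h6 := le_hasSum hd 0 (fun j _ => hnn j)
  simp only [Nat.cast_zero, zero_add, one_mul, div_one] at h6
  rw [one_div_sinh hσ]
  linarith

end Pool.Agent.Lib.MP_d73f62_nt
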