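import Mathlib

set_option autoImplicit false

open Set

namespace Pool.Agent.Lib.MP_d73f62_nt

/-- Nonnegativity from a nonnegative derivative. -/
theorem nonneg_of_deriv {f f' : ℝ → ℝ} {b : ℝ} (hf : ∀ x, HasDerivAt f (f' x) x)
    (h' : ∀ x, 0 < x → x < b → 0 ≤ f' x) (h0 : 0 ≤ f 0) {x : ℝ} (hx : 0 ≤ x) (hxb : x ≤ b) :
    0 ≤ f x := by
  have hm : MonotoneOn f (Icc 0 b) := by
    apply monotoneOn_of_deriv_nonneg (convex_Icc 0 b)
    · exact fun y _ => (hf y).continuousAt.continuousWithinAt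
    · exact fun y _ => (hf y).differentiableAt.differentiableWithinAt
    · intro y hy
      rw [interior_Icc] at hy
      rw [(hf y).deriv]
      exact h' y hy.1 hy.2
  have := hm ⟨le_refl 0, hx.trans hxb⟩ ⟨hx, hxb⟩ hx
  linarith

theorem sinh_le_mul_cosh {z : ℝ} (hz : 0 ≤ z) : Real.sinh z ≤ z * Real.cosh z := by
  have h := nonneg_of_deriv (f := fun z => z * Real.cosh z - Real.sinh z)
    (f' := fun z => z * Real.sinh z) (b := z) ?_ ?_ ?_ hz le_rfl
  · simpa using h
  · intro x
    have h1 := ((hasDerivAt_id x).mul (Real.hasDerivAt_cosh x)).sub (Real.hasDerivAt_sinh x)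
    exact h1.congr_deriv (by simp)
  · intro x hx _
    have := Real.sinh_pos_iff.mpr hx
    positivity
  · simp

theorem three_sinh {z : ℝ} (hz : 0 ≤ z) :
    3 * z * Real.cosh z ≤ (3 + z ^ 2) * Real.sinh z := by
  have h := nonneg_of_deriv (f := fun z => (3 + z ^ 2) * Real.sinh z - 3 * z * Real.cosh z)
    (f' := fun z => z * (z * Real.cosh z - Real.sinh z)) (b := z) ?_ ?_ ?_ hz le_rfl
  · simpa using h
  · intro x
    have h2 : HasDerivAt (fun z : ℝ => 3 + z ^ 2) (2 * x) x := by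
      simpa using (hasDerivAt_pow 2 x).const_add 3
    have h3 : HasDerivAt (fun z : ℝ => 3 * z) 3 x := by
      simpa using (hasDerivAt_id x).const_mul (3 : ℝ)
    have h1 := (h2.mul (Real.hasDerivAt_sinh x)).sub (h3.mul (Real.hasDerivAt_cosh x))
    exact h1.congr_deriv (by ring)
  · intro x hx _
    have := sinh_le_mul_cosh hx.le
    have h4 : 0 ≤ x * Real.cosh x - Real.sinh x := by linarith
    positivity
  · simp

theorem fifteen_sinh {z : ℝ} (hz : 0 ≤ z) :
    (15 + 6 * z ^ 2) * Real.sinh z ≤ z * (15 + z ^ 2) * Real.cosh z := by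
  have h := nonneg_of_deriv (f := fun z => z * (15 + z ^ 2) * Real.cosh z
      - (15 + 6 * z ^ 2) * Real.sinh z)
    (f' := fun z => z * ((3 + z ^ 2) * Real.sinh z - 3 * z * Real.cosh z)) (b := z) ?_ ?_ ?_ hz le_rfl
  · simpa using h
  · intro x
    have h2 : HasDerivAt (fun z : ℝ => z * (15 + z ^ 2)) (1 * (15 + x ^ 2) + x * (2 * x)) x := by
      have h2' : HasDerivAt (fun z : ℝ => 15 + z ^ 2) (2 * x) x := by
        simpa using (hasDerivAt_pow 2 x).const_add 15
      exact (hasDerivAt_id x).mul h2'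
    have h3 : HasDerivAt (fun z : ℝ => 15 + 6 * z ^ 2) (6 * (2 * x)) x := by
      simpa using ((hasDerivAt_pow 2 x).const_mul (6 : ℝ)).const_add 15
    have h1 := (h2.mul (Real.hasDerivAt_cosh x)).sub (h3.mul (Real.hasDerivAt_sinh x))
    exact h1.congr_deriv (by ring)
  · intro x hx _
    have := three_sinh hx.le
    have h4 : 0 ≤ (3 + x ^ 2) * Real.sinh x - 3 * x * Real.cosh x := by linarith
    positivity
  · simp

theorem mul_cos_le_sin {y : ℝ} (hy : 0 ≤ y) (hy2 : y ≤ Real.pi) : y * Real.cos y ≤ Real.sin y := by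
  have h := nonneg_of_deriv (f := fun z => Real.sin z - z * Real.cos z)
    (f' := fun z => z * Real.sin z) (b := Real.pi) ?_ ?_ ?_ hy hy2
  · simpa using h
  · intro x
    have h1 := (Real.hasDerivAt_sin x).sub ((hasDerivAt_id x).mul (Real.hasDerivAt_cos x))
    exact h1.congr_deriv (by simp)
  · intro x hx hx2
    have := Real.sin_pos_of_pos_of_lt_pi hx hx2
    positivity
  · simp

theorem three_sin {y : ℝ} (hy : 0 ≤ y) (hy2 : y ≤ Real.pi) :
    3 * y * Real.cos y ≤ (3 - y ^ 2) * Real.sin y := by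
  have h := nonneg_of_deriv (f := fun z => (3 - z ^ 2) * Real.sin z - 3 * z * Real.cos z)
    (f' := fun z => z * (Real.sin z - z * Real.cos z)) (b := Real.pi) ?_ ?_ ?_ hy hy2
  · simpa using h
  · intro x
    have h2 : HasDerivAt (fun z : ℝ => 3 - z ^ 2) (-(2 * x)) x := by
      simpa using (hasDerivAt_pow 2 x).const_sub 3
    have h3 : HasDerivAt (fun z : ℝ => 3 * z) 3 x := by
      simpa using (hasDerivAt_id x).const_mul (3 : ℝ)
    have h1 := (h2.mul (Real.hasDerivAt_sin x)).sub (h3.mul (Real.hasDerivAt_cos x))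
    exact h1.congr_deriv (by ring)
  · intro x hx hx2
    have := mul_cos_le_sin hx.le hx2.le
    have h4 : 0 ≤ Real.sin x - x * Real.cos x := by linarith
    positivity
  · simp

/-- `x - x^3/3 ≤ arctan x` for `x ≥ 0`. -/
theorem arctan_ge {x : ℝ} (hx : 0 ≤ x) : x - x ^ 3 / 3 ≤ Real.arctan x := by
  have h := nonneg_of_deriv (f := fun z => Real.arctan z - (z - z ^ 3 / 3))
    (f' := fun z => 1 / (1 + z ^ 2) - (1 - z ^ 2)) (b := x) ?_ ?_ ?_ hx le_rfl
  · simpa using h
  · intro x
    have h2 : HasDerivAt (fun z : ℝ => z - z ^ 3 / 3) (1 - 3 * x ^ 2 / 3) x := by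
      have := (hasDerivAt_id x).sub ((hasDerivAt_pow 3 x).div_const 3)
      exact this.congr_deriv (by norm_num)
    have h1 := (Real.hasDerivAt_arctan x).sub h2
    exact h1.congr_deriv (by ring)
  · intro x _ _
    have h3 : (1 : ℝ) / (1 + x ^ 2) - (1 - x ^ 2) = x ^ 4 / (1 + x ^ 2) := by
      field_simp
      ring
    rw [h3]
    positivity
  · simp

/-- Upper bound for `arctan` on `(-1, ∞)`. -/
theorem arctan_le {v x : ℝ} (hx : 0 ≤ x) (hvx : v = (1 - x) / (1 + x)) :
    Real.arctan v ≤ Real.pi / 4 - x + x ^ 3 / 3 := by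
  have h1 := arctan_ge hx
  have h3 : v * x < 1 := by
    rw [hvx]
    have h4 : 0 < 1 + x := by linarith
    rw [div_mul_eq_mul_div, div_lt_one h4]
    nlinarith
  have h2 := Real.arctan_add h3
  have h5 : (v + x) / (1 - v * x) = 1 := by
    rw [hvx]
    have h4 : (1 + x) ≠ 0 := by positivity
    field_simp
    have h6 : (1 : ℝ) + x - x * (1 - x) ≠ 0 := by nlinarith
    rw [div_eq_one_iff_eq h6]
    ring
  rw [h5, Real.arctan_one] at h2
  linarith

end Pool.Agent.Lib.MP_d73f62_nt
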