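import Mathlib
import Pool.Agent.Lib.MP_d73f62_nt.Hfun
import Pool.Agent.Lib.MP_d73f62_nt.LTransform
import Pool.Agent.Lib.MP_d73f62_nt.Ineq

set_option autoImplicit false

open Complex
open scoped Real

namespace Pool.Agent.Lib.MP_d73f62_nt

theorem exp_neg_three_lt : Real.exp (-3) < 1 / 18 := by
  have h1 : (2.7 : ℝ) < Real.exp 1 := by have := Real.exp_one_gt_d9; linarith
  have h2 : Real.exp 3 = Real.exp 1 ^ 3 := by rw [← Real.exp_nat_mul]; norm_num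
  rw [Real.exp_neg, h2, inv_lt_comm₀ (by positivity) (by norm_num)]
  calc (1 / 18 : ℝ)⁻¹ < 2.7 ^ 3 := by norm_num
    _ ≤ Real.exp 1 ^ 3 := by gcongr

theorem Dr_nonneg {c : ℕ → ℝ} (hc0 : ∀ k, 0 ≤ c k) (u : ℝ) : 0 ≤ Dr c u :=
  tsum_nonneg fun k => mul_nonneg (hc0 k) (Real.exp_pos _).le

theorem Dr_le_two_exp {c : ℕ → ℝ} (hc0 : ∀ k, 0 ≤ c k) (hc : ∀ k, c k ≤ 6 ^ k) {u : ℝ}
    (hu : 3 ≤ u) : Dr c u ≤ 2 * Real.exp (-u) := by
  have h1 : Real.exp (-u) ≤ 1 / 18 := (Real.exp_le_exp.mpr (by linarith)).trans exp_neg_three_lt.le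
  have h2 : 6 * Real.exp (-u) ≤ 1 / 3 := by linarith
  have h0 : 0 < Real.exp (-u) := Real.exp_pos _
  have hg := hasSum_geometric_of_lt_one (r := 6 * Real.exp (-u)) (by positivity) (by linarith)
  have hg2 := hg.mul_left (Real.exp (-u))
  have hle : ∀ k : ℕ, c k * Real.exp (-((k : ℝ) + 1) * u)
      ≤ Real.exp (-u) * (6 * Real.exp (-u)) ^ k := by
    intro k
    have h3 : Real.exp (-((k : ℝ) + 1) * u) = Real.exp (-u) * Real.exp (-u) ^ k := by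
      rw [← pow_succ', ← Real.exp_nat_mul]
      congr 1
      push_cast; ring
    rw [h3, mul_pow]
    have h4 := hc k
    calc c k * (Real.exp (-u) * Real.exp (-u) ^ k) ≤ 6 ^ k * (Real.exp (-u) * Real.exp (-u) ^ k) := by
          gcongr
      _ = _ := by ring
  have hs : Summable fun k : ℕ => c k * Real.exp (-((k : ℝ) + 1) * u) :=
    Summable.of_nonneg_of_le (fun k => mul_nonneg (hc0 k) (Real.exp_pos _).le) hle hg2.summable
  have h5 : Dr c u ≤ Real.exp (-u) * (1 - 6 * Real.exp (-u))⁻¹ := by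
    rw [← hg2.tsum_eq]
    exact hs.tsum_le_tsum hle hg2.summable
  have h6 : (1 - 6 * Real.exp (-u))⁻¹ ≤ 2 := by
    rw [inv_le_comm₀ (by linarith) (by norm_num)]
    linarith
  calc Dr c u ≤ Real.exp (-u) * (1 - 6 * Real.exp (-u))⁻¹ := h5
    _ ≤ Real.exp (-u) * 2 := by gcongr
    _ = _ := by ring

theorem sgr_le (k : ℕ) : ((sg (k + 1) : ℕ) : ℝ) ≤ 3 ^ k := by exact_mod_cast sg_le_pow k

theorem cG_le (k : ℕ) : cG k ≤ 6 ^ k := by
  unfold cG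
  calc ((sg (k + 1) : ℕ) : ℝ) ≤ 3 ^ k := sgr_le k
    _ ≤ 6 ^ k := by gcongr; norm_num

theorem cL_le_cG (k : ℕ) : cL k ≤ cG k := by
  unfold cL cG
  apply div_le_self (by positivity)
  have : (0 : ℝ) ≤ (k : ℝ) := by positivity
  linarith

theorem cL_le (k : ℕ) : cL k ≤ 6 ^ k := (cL_le_cG k).trans (cG_le k)

theorem cG1_le (k : ℕ) : cG1 k ≤ 6 ^ k := by
  unfold cG1
  have h1 : ((k : ℝ) + 1) ≤ 2 ^ k := by
    have := Nat.lt_two_pow_self (n := k)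
    exact_mod_cast this
  have h2 : (6 : ℝ) ^ k = 2 ^ k * 3 ^ k := by rw [← mul_pow]; norm_num
  rw [h2]
  have := sgr_le k
  gcongr

theorem Dr_anti {c : ℕ → ℝ} (h : Pg c) (hc0 : ∀ k, 0 ≤ c k) {u v : ℝ} (hu : 0 < u) (huv : u ≤ v) :
    Dr c v ≤ Dr c u := by
  refine (h.summable (hu.trans_le huv)).tsum_le_tsum ?_ (h.summable hu)
  intro k
  have := hc0 k
  have hk : (0 : ℝ) < (k : ℝ) + 1 := by positivity
  gcongr _ * Real.exp ?_
  nlinarith

theorem Lr_anti {u v : ℝ} (hu : 0 < u) (huv : u ≤ v) : Lr v ≤ Lr u :=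
  Dr_anti pg_cL cL_nonneg hu huv

theorem Lr_nonneg (u : ℝ) : 0 ≤ Lr u := Dr_nonneg cL_nonneg u

theorem Lr_transform {u : ℝ} (hu : 0 < u) :
    Lr u = π ^ 2 / (6 * u) + 1 / 2 * Real.log u - 1 / 2 * Real.log (2 * π) - u / 24
      + Lr (4 * π ^ 2 / u) := by
  have h1 := L_transform (u : ℂ) (by simpa using hu)
  have h2 : (4 * (π : ℂ) ^ 2 / (u : ℂ)) = ((4 * π ^ 2 / u : ℝ) : ℂ) := by push_cast; rfl
  have h3 : Complex.log (2 * (π : ℂ)) = ((Real.log (2 * π) : ℝ) : ℂ) := by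
    rw [Complex.ofReal_log (by positivity)]
    push_cast; rfl
  rw [h2, L_ofReal, L_ofReal, h3, ← Complex.ofReal_log hu.le] at h1
  apply Complex.ofReal_injective
  rw [h1]
  push_cast
  ring

theorem Lr_diff_le {σ : ℝ} (hσ : 0 < σ) :
    Lr σ - Lr (2 * σ) ≤ π ^ 2 / (12 * σ) - Real.log 2 / 2 + σ / 24 := by
  rw [Lr_transform hσ, Lr_transform (by linarith : 0 < 2 * σ)]
  have h1 : Real.log (2 * σ) = Real.log 2 + Real.log σ := Real.log_mul (by norm_num) hσ.ne'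
  have h2 : Lr (4 * π ^ 2 / σ) ≤ Lr (4 * π ^ 2 / (2 * σ)) := by
    apply Lr_anti (by positivity)
    gcongr
    linarith
  have h3 : π ^ 2 / (6 * σ) - π ^ 2 / (6 * (2 * σ)) = π ^ 2 / (12 * σ) := by
    field_simp
    norm_num
  rw [h1]
  linarith

/-- The point `σ(1 + i v)`. -/
theorem re_pt (σ v : ℝ) : ((σ : ℂ) + (v * σ : ℝ) * I).re = σ := by simp

theorem normSq_pt (σ v : ℝ) : Complex.normSq ((σ : ℂ) + (v * σ : ℝ) * I) = σ ^ 2 * (1 + v ^ 2) := by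
  rw [Complex.normSq_apply]
  simp
  ring

theorem re_inv_pt {σ : ℝ} (hσ : 0 < σ) (v : ℝ) :
    (4 * (π : ℂ) ^ 2 / ((σ : ℂ) + (v * σ : ℝ) * I)).re = 4 * π ^ 2 / (σ * (1 + v ^ 2)) := by
  have h1 : (4 * (π : ℂ) ^ 2 / ((σ : ℂ) + (v * σ : ℝ) * I))
      = ((4 * π ^ 2 : ℝ) : ℂ) * ((σ : ℂ) + (v * σ : ℝ) * I)⁻¹ := by
    push_cast; rw [div_eq_mul_inv]
  rw [h1, Complex.re_ofReal_mul, Complex.inv_re, normSq_pt, re_pt]
  have hv : 0 < 1 + v ^ 2 := by positivity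
  field_simp

theorem h_lower {σ v : ℝ} (hσ : 0 < σ) :
    π ^ 2 * v / (6 * σ * (1 + v ^ 2)) - Real.arctan v / 2 + v * σ / 24
      - Lr (4 * π ^ 2 / (σ * (1 + v ^ 2))) ≤ h σ (v * σ) := by
  have hs : 0 < ((σ : ℂ) + (v * σ : ℝ) * I).re := by rw [re_pt]; exact hσ
  have hv : 0 < 1 + v ^ 2 := by positivity
  set s : ℂ := (σ : ℂ) + (v * σ : ℝ) * I with hsdef
  have h1 := L_transform s hs
  unfold h
  rw [← hsdef, h1]
  have e1 : ((π : ℂ) ^ 2 / (6 * s)).im = -(π ^ 2 * v / (6 * σ * (1 + v ^ 2))) := by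
    have h2 : (π : ℂ) ^ 2 / (6 * s) = ((π ^ 2 / 6 : ℝ) : ℂ) * s⁻¹ := by
      push_cast; rw [div_mul_eq_div_div, div_eq_mul_inv (_ / _) s]
    rw [h2, Complex.im_ofReal_mul, Complex.inv_im, hsdef, normSq_pt]
    simp
    field_simp
  have e2 : (1 / 2 * Complex.log s).im = Real.arctan v / 2 := by
    have h2 : (1 / 2 * Complex.log s) = ((1 / 2 : ℝ) : ℂ) * Complex.log s := by push_cast; ring
    rw [h2, Complex.im_ofReal_mul, Complex.log_im]
    have h3 : Complex.arg s = Real.arctan v := by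
      have h4 : s = (σ : ℂ) * (1 + v * I) := by rw [hsdef]; push_cast; ring
      rw [h4, Complex.arg_real_mul _ hσ]
      have h5 := Complex.arg_of_re_nonneg (x := 1 + v * I) (by simp)
      rw [h5, Real.arctan_eq_arcsin]
      congr 1
      rw [Complex.norm_def]
      simp [Complex.normSq_apply]
      ring_nf
    rw [h3]; ring
  have e3 : (1 / 2 * Complex.log (2 * (π : ℂ))).im = 0 := by
    have h2 : (1 / 2 * Complex.log (2 * (π : ℂ))) = ((1 / 2 * Real.log (2 * π) : ℝ) : ℂ) := by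
      push_cast
      rw [Complex.ofReal_log (by positivity)]
      push_cast; rfl
    rw [h2, Complex.ofReal_im]
  have e4 : (s / 24).im = v * σ / 24 := by
    have h2 : s / 24 = ((1 / 24 : ℝ) : ℂ) * s := by push_cast; ring
    rw [h2, Complex.im_ofReal_mul, hsdef]
    simp
    ring
  have e5 : |(L (4 * (π : ℂ) ^ 2 / s)).im| ≤ Lr (4 * π ^ 2 / (σ * (1 + v ^ 2))) := by
    refine (Complex.abs_im_le_norm _).trans ?_
    have h2 := norm_Ds_le pg_cL cL_nonneg (re_inv_pos hs)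
    rw [hsdef, re_inv_pt hσ, ← hsdef] at h2
    exact h2
  simp only [Complex.add_im, Complex.sub_im]
  rw [e1, e2, e3, e4]
  have := (abs_le.mp e5).2
  linarith

theorem Gr_transform_le {u : ℝ} (hu : 0 < u) (hu2 : u ≤ 12) : Dr cG u ≤ π ^ 2 / (6 * u ^ 2) := by
  have h1 := G_transform (u : ℂ) (by simpa using hu)
  have h2 : (4 * (π : ℂ) ^ 2 / (u : ℂ)) = ((4 * π ^ 2 / u : ℝ) : ℂ) := by push_cast; rfl
  unfold G at h1
  rw [h2, Ds_ofReal, Ds_ofReal] at h1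
  have h3 : Dr cG u = π ^ 2 / (6 * u ^ 2) - 1 / (2 * u) + 1 / 24
      - 4 * π ^ 2 / u ^ 2 * Dr cG (4 * π ^ 2 / u) := by
    apply Complex.ofReal_injective
    rw [h1]
    push_cast
    ring
  rw [h3]
  have h4 : 0 ≤ 4 * π ^ 2 / u ^ 2 * Dr cG (4 * π ^ 2 / u) :=
    mul_nonneg (by positivity) (Dr_nonneg cG_nonneg _)
  have h5 : (1 : ℝ) / 24 ≤ 1 / (2 * u) := by
    apply one_div_le_one_div_of_le (by positivity)
    linarith
  linarith

theorem mul_exp_neg_le (y : ℝ) : y * Real.exp (-y) ≤ 10 / 27 := by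
  have h1 : y ≤ Real.exp (y - 1) := by
    have := Real.add_one_le_exp (y - 1)
    linarith
  have h2 : (2.7 : ℝ) < Real.exp 1 := by have := Real.exp_one_gt_d9; linarith
  have h3 : Real.exp (-1) ≤ 10 / 27 := by
    rw [Real.exp_neg, inv_le_comm₀ (by positivity) (by norm_num)]
    norm_num at h2 ⊢
    linarith
  calc y * Real.exp (-y) ≤ Real.exp (y - 1) * Real.exp (-y) := by
        have := Real.exp_pos (-y)
        gcongr
    _ = Real.exp (-1) := by rw [← Real.exp_add]; ring_nf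
    _ ≤ 10 / 27 := h3

theorem Dr_mul_le {c : ℕ → ℝ} (h : Pg c) (hc0 : ∀ k, 0 ≤ c k) {u a : ℝ} (hu : 0 < u) (ha : 0 < a) :
    Dr (fun k => ((k : ℝ) + 1) * c k) (u + a) ≤ 10 / (27 * a) * Dr c u := by
  unfold Dr
  rw [← tsum_mul_left]
  refine (h.mul.summable (by linarith)).tsum_le_tsum ?_ ((h.summable hu).mul_left _)
  intro k
  have h1 := mul_exp_neg_le (((k : ℝ) + 1) * a)
  have h2 := hc0 k
  have h3 : Real.exp (-((k : ℝ) + 1) * (u + a))
      = Real.exp (-((k : ℝ) + 1) * u) * Real.exp (-(((k : ℝ) + 1) * a)) := by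
    rw [← Real.exp_add]; ring_nf
  rw [h3]
  have h4 : ((k : ℝ) + 1) * Real.exp (-(((k : ℝ) + 1) * a)) ≤ 10 / (27 * a) := by
    rw [le_div_iff₀ (by positivity)]
    nlinarith
  calc ((k : ℝ) + 1) * c k * (Real.exp (-((k : ℝ) + 1) * u) * Real.exp (-(((k : ℝ) + 1) * a)))
      = (((k : ℝ) + 1) * Real.exp (-(((k : ℝ) + 1) * a))) * (c k * Real.exp (-((k : ℝ) + 1) * u)) := by
        ring
    _ ≤ 10 / (27 * a) * (c k * Real.exp (-((k : ℝ) + 1) * u)) := by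
        have := Real.exp_pos (-((k : ℝ) + 1) * u)
        gcongr

theorem pi_sq_lt : π ^ 2 < 9.8697 := by
  have h := Real.pi_lt_d6
  have h0 := Real.pi_pos
  nlinarith

theorem pi_sq_gt : 9.8695 < π ^ 2 := by
  have h := Real.pi_gt_d6
  nlinarith

/-- `G1(σ) ≤ 5/σ³`. -/
theorem G1r_le {σ : ℝ} (hσ : 0 < σ) (hσ2 : σ ≤ 12) : Dr cG1 σ ≤ 5 / σ ^ 3 := by
  have h1 := Dr_mul_le pg_cG cG_nonneg (u := σ / 2) (a := σ / 2) (by linarith) (by linarith)
  have h2 := Gr_transform_le (u := σ / 2) (by linarith) (by linarith)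
  have h3 : σ / 2 + σ / 2 = σ := by ring
  rw [h3] at h1
  have h4 : Dr cG1 σ ≤ 10 / (27 * (σ / 2)) * (π ^ 2 / (6 * (σ / 2) ^ 2)) := by
    refine le_trans h1 ?_
    gcongr
  refine h4.trans ?_
  have h5 : 10 / (27 * (σ / 2)) * (π ^ 2 / (6 * (σ / 2) ^ 2)) = (80 / 162 * π ^ 2) / σ ^ 3 := by
    field_simp
    ring
  rw [h5]
  gcongr
  have := pi_sq_lt
  norm_num at this ⊢
  linarith

/-- `G2(σ) ≤ 16/σ⁴`. -/
theorem G2r_le {σ : ℝ} (hσ : 0 < σ) (hσ2 : σ ≤ 12) : Dr cG2 σ ≤ 16 / σ ^ 4 := by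
  have h1 := Dr_mul_le pg_cG cG_nonneg (u := σ / 2) (a := σ / 4) (by linarith) (by linarith)
  have h1' := Dr_mul_le pg_cG1 cG1_nonneg (u := σ / 2 + σ / 4) (a := σ / 4) (by linarith) (by linarith)
  have h2 := Gr_transform_le (u := σ / 2) (by linarith) (by linarith)
  have h3 : σ / 2 + σ / 4 + σ / 4 = σ := by ring
  rw [h3] at h1'
  have h4 : Dr cG2 σ ≤ 10 / (27 * (σ / 4)) * (10 / (27 * (σ / 4)) * (π ^ 2 / (6 * (σ / 2) ^ 2))) := by
    refine le_trans h1' ?_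
    have h1'' : Dr cG1 (σ / 2 + σ / 4) ≤ 10 / (27 * (σ / 4)) * Dr cG (σ / 2) := h1
    calc 10 / (27 * (σ / 4)) * Dr cG1 (σ / 2 + σ / 4)
        ≤ 10 / (27 * (σ / 4)) * (10 / (27 * (σ / 4)) * Dr cG (σ / 2)) := by gcongr
      _ ≤ _ := by gcongr
  refine h4.trans ?_
  have h5 : 10 / (27 * (σ / 4)) * (10 / (27 * (σ / 4)) * (π ^ 2 / (6 * (σ / 2) ^ 2)))
      = (6400 / 4374 * π ^ 2) / σ ^ 4 := by
    field_simp
    ring
  rw [h5]
  gcongr
  have := pi_sq_lt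
  norm_num at this ⊢
  linarith

end Pool.Agent.Lib.MP_d73f62_nt
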