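import Mathlib
import Pool.Agent.Lib.MP_d73f62_nt.Hbounds

set_option autoImplicit false

open Complex
open scoped Real

namespace Pool.Agent.Lib.MP_d73f62_nt

theorem two_add_exp_le {x x0 : ℝ} (hx0 : 0 ≤ x0) (hx : x0 ≤ x) :
    (2 + x) * Real.exp (-x) ≤ (2 + x0) * Real.exp (-x0) := by
  have h1 : 1 + (x - x0) ≤ Real.exp (x - x0) := by
    have := Real.add_one_le_exp (x - x0)
    linarith
  have h2 : Real.exp (-x0) = Real.exp (-x) * Real.exp (x - x0) := by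
    rw [← Real.exp_add]; ring_nf
  rw [h2]
  have h3 : 2 + x ≤ (2 + x0) * (1 + (x - x0)) := by nlinarith
  have h4 := Real.exp_pos (-x)
  calc (2 + x) * Real.exp (-x) ≤ ((2 + x0) * (1 + (x - x0))) * Real.exp (-x) := by gcongr
    _ ≤ ((2 + x0) * Real.exp (x - x0)) * Real.exp (-x) := by gcongr
    _ = _ := by ring

theorem pt_eq (σ v : ℝ) : ((σ : ℂ) + (v * σ : ℝ) * I) = (σ : ℂ) * (1 + v * I) := by
  push_cast; ring

/-- Lower bound for the concavity. -/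
theorem conc_lower {σ v : ℝ} (hσ : 0 < σ) (hx : 3 ≤ 4 * π ^ 2 / (σ * (1 + v ^ 2))) :
    v * (π ^ 2 / 3 * (3 - v ^ 2) - σ * (1 + v ^ 2))
      - 8 * π ^ 2 * (1 + v ^ 2) ^ 2 * ((2 + 4 * π ^ 2 / (σ * (1 + v ^ 2)))
        * Real.exp (-(4 * π ^ 2 / (σ * (1 + v ^ 2)))))
    ≤ -(G1 ((σ : ℂ) + (v * σ : ℝ) * I)).im * (σ ^ 3 * (1 + v ^ 2) ^ 3) := by
  have hs : 0 < ((σ : ℂ) + (v * σ : ℝ) * I).re := by rw [re_pt]; exact hσ
  have hy : 0 < 1 + v ^ 2 := by positivity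
  have hpi := Real.pi_pos
  set s : ℂ := (σ : ℂ) + (v * σ : ℝ) * I with hsdef
  set x : ℝ := 4 * π ^ 2 / (σ * (1 + v ^ 2)) with hxdef
  have hs0 := ne_zero_of_re_pos hs
  have h1 := G1_transform s hs
  have hwre : (4 * (π : ℂ) ^ 2 / s).re = x := by rw [hsdef, re_inv_pt hσ]
  have hG : ‖G (4 * (π : ℂ) ^ 2 / s)‖ ≤ 2 * Real.exp (-x) := by
    have h2 := norm_Ds_le pg_cG cG_nonneg (re_inv_pos hs)
    rw [hwre] at h2
    exact h2.trans (Dr_le_two_exp cG_nonneg cG_le hx)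
  have hG1 : ‖G1 (4 * (π : ℂ) ^ 2 / s)‖ ≤ 2 * Real.exp (-x) := by
    have h2 := norm_Ds_le pg_cG1 cG1_nonneg (re_inv_pos hs)
    rw [hwre] at h2
    exact h2.trans (Dr_le_two_exp cG1_nonneg cG1_le hx)
  have hn2 : ‖s‖ ^ 2 = σ ^ 2 * (1 + v ^ 2) := by
    rw [← Complex.normSq_eq_norm_sq, hsdef, normSq_pt]
  have hnσ : σ ≤ ‖s‖ := by
    have := Complex.abs_re_le_norm s
    rw [hsdef, re_pt, abs_of_pos hσ] at this
    exact this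
  have hn3 : σ ^ 3 * (1 + v ^ 2) ≤ ‖s‖ ^ 3 := by
    calc σ ^ 3 * (1 + v ^ 2) = (σ ^ 2 * (1 + v ^ 2)) * σ := by ring
      _ = ‖s‖ ^ 2 * σ := by rw [hn2]
      _ ≤ ‖s‖ ^ 2 * ‖s‖ := by gcongr
      _ = _ := by ring
  have hn4 : ‖s‖ ^ 4 = σ ^ 4 * (1 + v ^ 2) ^ 2 := by
    calc ‖s‖ ^ 4 = (‖s‖ ^ 2) ^ 2 := by ring
      _ = _ := by rw [hn2]; ring
  -- the error terms
  have he1 : ‖8 * (π : ℂ) ^ 2 / s ^ 3 * G (4 * (π : ℂ) ^ 2 / s)‖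
      ≤ 8 * π ^ 2 / (σ ^ 3 * (1 + v ^ 2)) * (2 * Real.exp (-x)) := by
    rw [norm_mul, norm_div, norm_pow]
    have h2 : ‖(8 * (π : ℂ) ^ 2)‖ = 8 * π ^ 2 := by
      have : (8 * (π : ℂ) ^ 2) = ((8 * π ^ 2 : ℝ) : ℂ) := by push_cast; ring
      rw [this, Complex.norm_real, Real.norm_of_nonneg (by positivity)]
    rw [h2]
    have h3 : 0 < σ ^ 3 * (1 + v ^ 2) := by positivity
    gcongr
  have he2 : ‖16 * (π : ℂ) ^ 4 / s ^ 4 * G1 (4 * (π : ℂ) ^ 2 / s)‖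
      ≤ 16 * π ^ 4 / (σ ^ 4 * (1 + v ^ 2) ^ 2) * (2 * Real.exp (-x)) := by
    rw [norm_mul, norm_div, norm_pow, hn4]
    have h2 : ‖(16 * (π : ℂ) ^ 4)‖ = 16 * π ^ 4 := by
      have : (16 * (π : ℂ) ^ 4) = ((16 * π ^ 4 : ℝ) : ℂ) := by push_cast; ring
      rw [this, Complex.norm_real, Real.norm_of_nonneg (by positivity)]
    rw [h2]
    gcongr
  have hvI : (1 + (v : ℂ) * I) ≠ 0 := by
    intro h
    have := congrArg Complex.re h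
    simp at this
  have hσc : (σ : ℂ) ≠ 0 := by exact_mod_cast hσ.ne'
  have hyc : (((1 + v ^ 2 : ℝ)) : ℂ) = (1 + (v : ℂ) * I) * (1 - (v : ℂ) * I) := by
    push_cast
    ring_nf
    rw [Complex.I_sq]
    ring
  have hvI' : (1 - (v : ℂ) * I) ≠ 0 := by
    intro h
    have := congrArg Complex.re h
    simp at this
  -- imaginary parts of main terms
  have em1 : ((π : ℂ) ^ 2 / (3 * s ^ 3)).im
      = -(π ^ 2 / 3 * (v * (3 - v ^ 2)) / (σ ^ 3 * (1 + v ^ 2) ^ 3)) := by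
    have h2 : (π : ℂ) ^ 2 / (3 * s ^ 3)
        = ((π ^ 2 / 3 / (σ ^ 3 * (1 + v ^ 2) ^ 3) : ℝ) : ℂ) * (1 - (v : ℂ) * I) ^ 3 := by
      have h3 : ((π ^ 2 / 3 / (σ ^ 3 * (1 + v ^ 2) ^ 3) : ℝ) : ℂ)
          = (π : ℂ) ^ 2 / 3 / ((σ : ℂ) ^ 3 * (((1 + v ^ 2 : ℝ)) : ℂ) ^ 3) := by push_cast; ring
      rw [h3, hyc, hsdef, pt_eq]
      field_simp
    rw [h2, Complex.im_ofReal_mul]
    have h4 : ((1 - (v : ℂ) * I) ^ 3).im = -(v * (3 - v ^ 2)) := by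
      have h5 : (1 - (v : ℂ) * I) ^ 3 = ((1 - 3 * v ^ 2 : ℝ) : ℂ) + ((-(v * (3 - v ^ 2)) : ℝ) : ℂ) * I := by
        push_cast
        have : (1 - (v : ℂ) * I) ^ 3 = 1 - 3 * v * I + 3 * v ^ 2 * I ^ 2 - v ^ 3 * (I ^ 2 * I) := by ring
        rw [this, Complex.I_sq]
        ring
      rw [h5, Complex.add_im, Complex.ofReal_im, Complex.im_ofReal_mul, Complex.I_im]
      ring
    rw [h4]
    ring
  have em2 : (1 / (2 * s ^ 2)).im = -(v / (σ ^ 2 * (1 + v ^ 2) ^ 2)) := by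
    have h2 : 1 / (2 * s ^ 2)
        = ((1 / 2 / (σ ^ 2 * (1 + v ^ 2) ^ 2) : ℝ) : ℂ) * (1 - (v : ℂ) * I) ^ 2 := by
      have h3 : ((1 / 2 / (σ ^ 2 * (1 + v ^ 2) ^ 2) : ℝ) : ℂ)
          = 1 / 2 / ((σ : ℂ) ^ 2 * (((1 + v ^ 2 : ℝ)) : ℂ) ^ 2) := by push_cast; ring
      rw [h3, hyc, hsdef, pt_eq]
      field_simp
    rw [h2, Complex.im_ofReal_mul]
    have h4 : ((1 - (v : ℂ) * I) ^ 2).im = -(2 * v) := by
      have h5 : (1 - (v : ℂ) * I) ^ 2 = ((1 - v ^ 2 : ℝ) : ℂ) + ((-(2 * v) : ℝ) : ℂ) * I := by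
        push_cast
        have : (1 - (v : ℂ) * I) ^ 2 = 1 - 2 * v * I + v ^ 2 * I ^ 2 := by ring
        rw [this, Complex.I_sq]
        ring
      rw [h5, Complex.add_im, Complex.ofReal_im, Complex.im_ofReal_mul, Complex.I_im]
      ring
    rw [h4]
    ring
  have ha1 := (abs_le.mp ((Complex.abs_im_le_norm _).trans he1))
  have ha2 := (abs_le.mp ((Complex.abs_im_le_norm _).trans he2))
  rw [h1]
  simp only [Complex.add_im, Complex.sub_im]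
  rw [em1, em2]
  set E1 := (8 * (π : ℂ) ^ 2 / s ^ 3 * G (4 * (π : ℂ) ^ 2 / s)).im
  set E2 := (16 * (π : ℂ) ^ 4 / s ^ 4 * G1 (4 * (π : ℂ) ^ 2 / s)).im
  have hW : 0 < σ ^ 3 * (1 + v ^ 2) ^ 3 := by positivity
  have hmain : -(-(π ^ 2 / 3 * (v * (3 - v ^ 2)) / (σ ^ 3 * (1 + v ^ 2) ^ 3))
      - -(v / (σ ^ 2 * (1 + v ^ 2) ^ 2)) - E1 + E2) * (σ ^ 3 * (1 + v ^ 2) ^ 3)
      = v * (π ^ 2 / 3 * (3 - v ^ 2) - σ * (1 + v ^ 2)) + (E1 - E2) * (σ ^ 3 * (1 + v ^ 2) ^ 3) := by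
    field_simp
    ring
  rw [hmain]
  have hE : -(8 * π ^ 2 / (σ ^ 3 * (1 + v ^ 2)) * (2 * Real.exp (-x))
      + 16 * π ^ 4 / (σ ^ 4 * (1 + v ^ 2) ^ 2) * (2 * Real.exp (-x))) * (σ ^ 3 * (1 + v ^ 2) ^ 3)
      ≤ (E1 - E2) * (σ ^ 3 * (1 + v ^ 2) ^ 3) := by
    apply mul_le_mul_of_nonneg_right _ hW.le
    linarith [ha1.1, ha2.2]
  have hE2 : (8 * π ^ 2 / (σ ^ 3 * (1 + v ^ 2)) * (2 * Real.exp (-x))
      + 16 * π ^ 4 / (σ ^ 4 * (1 + v ^ 2) ^ 2) * (2 * Real.exp (-x))) * (σ ^ 3 * (1 + v ^ 2) ^ 3)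
      = 8 * π ^ 2 * (1 + v ^ 2) ^ 2 * ((2 + x) * Real.exp (-x)) := by
    have hx4 : x = 4 * π ^ 2 / (σ * (1 + v ^ 2)) := hxdef
    generalize Real.exp (-x) = ex
    rw [hx4]
    field_simp
    ring
  linarith

/-- A cubic is bounded below by its end values. -/
theorem cubic_end {p q va vb v m : ℝ} (hq : 0 ≤ q) (hva : 0 ≤ va) (h1 : va ≤ v) (h2 : v ≤ vb)
    (hea : m ≤ va * (p - q * va ^ 2)) (heb : m ≤ vb * (p - q * vb ^ 2)) :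
    m ≤ v * (p - q * v ^ 2) := by
  rcases eq_or_lt_of_le (h1.trans h2) with hab | hab
  · have : v = va := le_antisymm (by linarith) h1
    rw [this]; exact hea
  · have h3 : (vb - va) * (v * (p - q * v ^ 2))
        = (vb - v) * (va * (p - q * va ^ 2)) + (v - va) * (vb * (p - q * vb ^ 2))
          + q * ((vb - va) * ((v - va) * (vb - v) * (v + va + vb))) := by ring
    have h4 : 0 ≤ q * ((vb - va) * ((v - va) * (vb - v) * (v + va + vb))) := by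
      apply mul_nonneg hq
      apply mul_nonneg (by linarith)
      apply mul_nonneg (mul_nonneg (by linarith) (by linarith))
      linarith
    have h5 : (vb - v) * m ≤ (vb - v) * (va * (p - q * va ^ 2)) :=
      mul_le_mul_of_nonneg_left hea (by linarith)
    have h6 : (v - va) * m ≤ (v - va) * (vb * (p - q * vb ^ 2)) :=
      mul_le_mul_of_nonneg_left heb (by linarith)
    have h7 : (vb - va) * m ≤ (vb - va) * (v * (p - q * v ^ 2)) := by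
      rw [h3]; linarith
    exact le_of_mul_le_mul_left h7 (by linarith)

/-- Concavity on a box. -/
theorem conc_box {σ b v va vb x0 E c1 : ℝ} (hσ : 0 < σ) (hb : σ ≤ b) (hva : 0 ≤ va)
    (h1 : va ≤ v) (h2 : v ≤ vb) (hx0 : 3 ≤ x0) (hc1 : 0 ≤ c1)
    (hxb : x0 * (b * (1 + vb ^ 2)) ≤ 39.478)
    (hE : (2 + x0) * Real.exp (-x0) ≤ E)
    (hea : 8 * 9.8697 * (1 + vb ^ 2) ^ 2 * E + 2 * c1 * (1 + vb ^ 2) ^ 3
      ≤ va * ((9.8695 - b) - (9.8697 / 3 + b) * va ^ 2))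
    (heb : 8 * 9.8697 * (1 + vb ^ 2) ^ 2 * E + 2 * c1 * (1 + vb ^ 2) ^ 3
      ≤ vb * ((9.8695 - b) - (9.8697 / 3 + b) * vb ^ 2)) :
    2 * c1 / σ ^ 3 ≤ -(G1 ((σ : ℂ) + (v * σ : ℝ) * I)).im := by
  have hb0 : 0 < b := hσ.trans_le hb
  have hv : 0 ≤ v := hva.trans h1
  have hy : 0 < 1 + v ^ 2 := by positivity
  have hyb : 0 < 1 + vb ^ 2 := by positivity
  have hyy : 1 + v ^ 2 ≤ 1 + vb ^ 2 := by gcongr
  have hpi := pi_sq_gt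
  have hpi2 := pi_sq_lt
  have hx : x0 ≤ 4 * π ^ 2 / (σ * (1 + v ^ 2)) := by
    rw [le_div_iff₀ (by positivity)]
    have h3 : x0 * (σ * (1 + v ^ 2)) ≤ x0 * (b * (1 + vb ^ 2)) := by gcongr
    linarith
  have h3 := conc_lower hσ (hx0.trans hx)
  have h4 := (two_add_exp_le (by linarith) hx).trans hE
  have h5 := cubic_end (p := 9.8695 - b) (q := 9.8697 / 3 + b) (by linarith) hva h1 h2 hea heb
  have h6 : v * ((9.8695 - b) - (9.8697 / 3 + b) * v ^ 2)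
      ≤ v * (π ^ 2 / 3 * (3 - v ^ 2) - σ * (1 + v ^ 2)) := by
    apply mul_le_mul_of_nonneg_left _ hv
    have h7 : σ * (1 + v ^ 2) ≤ b * (1 + v ^ 2) := by gcongr
    have h8 : π ^ 2 / 3 * v ^ 2 ≤ 9.8697 / 3 * v ^ 2 := by gcongr
    nlinarith
  have hE0 : 0 ≤ E := le_trans (by positivity) hE
  have h7 : 8 * π ^ 2 * (1 + v ^ 2) ^ 2 * ((2 + 4 * π ^ 2 / (σ * (1 + v ^ 2)))
        * Real.exp (-(4 * π ^ 2 / (σ * (1 + v ^ 2))))) ≤ 8 * 9.8697 * (1 + vb ^ 2) ^ 2 * E := by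
    gcongr
  have h8 : 2 * c1 * (1 + v ^ 2) ^ 3 ≤ 2 * c1 * (1 + vb ^ 2) ^ 3 := by gcongr
  have h9 : 2 * c1 * (1 + v ^ 2) ^ 3
      ≤ -(G1 ((σ : ℂ) + (v * σ : ℝ) * I)).im * (σ ^ 3 * (1 + v ^ 2) ^ 3) := by linarith
  rw [div_le_iff₀ (by positivity)]
  have h10 : (2 * c1) * (1 + v ^ 2) ^ 3
      ≤ (-(G1 ((σ : ℂ) + (v * σ : ℝ) * I)).im * σ ^ 3) * (1 + v ^ 2) ^ 3 := by linarith
  exact le_of_mul_le_mul_right h10 (by positivity)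

end Pool.Agent.Lib.MP_d73f62_nt
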