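import Mathlib
import Pool.Agent.Lib.MP_d73f62_nt.Hbounds

set_option autoImplicit false

open Complex
open scoped Real

namespace Pool.Agent.Lib.MP_d73f62_nt

theorem tau_gap {σ : ℝ} (hσ : 0 < σ) (θ : ℝ) :
    1 / (2 * Real.sinh σ) - tau σ θ = 1 / (2 * Real.sinh σ) *
      ((Real.sinh (σ / 2) * Real.cos (θ / 2) - Real.cosh (σ / 2) * Real.sin (θ / 2)) ^ 2 /
      ((Real.sinh (σ / 2) * Real.cos (θ / 2)) ^ 2 + (Real.cosh (σ / 2) * Real.sin (θ / 2)) ^ 2)) := by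
  have h1 := cosh_sub_cos_pos hσ θ
  have h2 : 0 < Real.sinh σ := Real.sinh_pos_iff.mpr hσ
  have e1 : Real.cosh σ = Real.cosh (σ / 2) ^ 2 + Real.sinh (σ / 2) ^ 2 := by
    rw [← Real.cosh_two_mul]; congr 1; ring
  have e2 : Real.sinh σ = 2 * Real.sinh (σ / 2) * Real.cosh (σ / 2) := by
    rw [← Real.sinh_two_mul]; congr 1; ring
  have e3 : Real.cos θ = 2 * Real.cos (θ / 2) ^ 2 - 1 := by
    rw [← Real.cos_two_mul]; congr 1; ring
  have e4 : Real.sin θ = 2 * Real.sin (θ / 2) * Real.cos (θ / 2) := by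
    rw [← Real.sin_two_mul]; congr 1; ring
  have e5 := Real.cosh_sq (σ / 2)
  have e6 := Real.sin_sq_add_cos_sq (θ / 2)
  set A := Real.sinh (σ / 2)
  set B := Real.cosh (σ / 2)
  set C := Real.cos (θ / 2)
  set D := Real.sin (θ / 2)
  have hden : Real.cosh σ - Real.cos θ = 2 * ((A * C) ^ 2 + (B * D) ^ 2) := by
    rw [e1, e3]
    have h3 : D ^ 2 = 1 - C ^ 2 := by linarith
    rw [mul_pow, mul_pow, e5, h3]
    ring
  have hpos : 0 < (A * C) ^ 2 + (B * D) ^ 2 := by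
    rw [hden] at h1; linarith
  rw [tau, hden, e4]
  rw [e2] at h2 ⊢
  have hA : A * B ≠ 0 := by
    intro h
    have : 2 * A * B = 2 * (A * B) := by ring
    rw [this, h] at h2
    simp at h2
  have hA1 : A ≠ 0 := left_ne_zero_of_mul hA
  have hB1 : B ≠ 0 := right_ne_zero_of_mul hA
  have hsq : (A * C - B * D) ^ 2 = ((A * C) ^ 2 + (B * D) ^ 2) - 2 * (A * B * C * D) := by ring
  rw [hsq]
  generalize (A * C) ^ 2 + (B * D) ^ 2 = N at hpos
  have hN : N ≠ 0 := hpos.ne'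
  field_simp

theorem gapK {A B X K : ℝ} (hAB : 0 < A ^ 2 + B ^ 2) (hK : K * (1 + X ^ 2) ≤ (X - 1) ^ 2)
    (hp : 0 ≤ (X * A - B) * (A - X * B)) : K ≤ (A - B) ^ 2 / (A ^ 2 + B ^ 2) := by
  rw [le_div_iff₀ hAB]
  have h1 : (A - B) ^ 2 * (1 + X ^ 2) - (X - 1) ^ 2 * (A ^ 2 + B ^ 2)
      = 2 * ((X * A - B) * (A - X * B)) := by ring
  have h2 : K * (1 + X ^ 2) * (A ^ 2 + B ^ 2) ≤ (X - 1) ^ 2 * (A ^ 2 + B ^ 2) := by gcongr
  have h3 : (0 : ℝ) < 1 + X ^ 2 := by positivity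
  have h4 : (K * (A ^ 2 + B ^ 2)) * (1 + X ^ 2) ≤ (A - B) ^ 2 * (1 + X ^ 2) := by nlinarith only [h2, hp]
  exact le_of_mul_le_mul_right h4 h3

/-- General form of the gap. -/
theorem h_le_of_prod {σ X K : ℝ} (hσ : 0 < σ) (θ : ℝ) (hK : K * (1 + X ^ 2) ≤ (X - 1) ^ 2)
    (hp : 0 ≤ (X * (Real.sinh (σ / 2) * Real.cos (θ / 2)) - Real.cosh (σ / 2) * Real.sin (θ / 2)) *
      (Real.sinh (σ / 2) * Real.cos (θ / 2) - X * (Real.cosh (σ / 2) * Real.sin (θ / 2)))) :
    h σ θ ≤ Lr σ - Lr (2 * σ) - K / (2 * Real.sinh σ) := by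
  have h1 := h_upper hσ θ
  have h2 := tau_gap hσ θ
  have h3 : 0 < Real.sinh σ := Real.sinh_pos_iff.mpr hσ
  have hpos : 0 < (Real.sinh (σ / 2) * Real.cos (θ / 2)) ^ 2
      + (Real.cosh (σ / 2) * Real.sin (θ / 2)) ^ 2 := by
    have hs : 0 < Real.sinh (σ / 2) := Real.sinh_pos_iff.mpr (by linarith)
    have hc : 0 < Real.cosh (σ / 2) := Real.cosh_pos _
    have e5 := Real.cosh_sq (σ / 2)
    have e6 := Real.sin_sq_add_cos_sq (θ / 2)
    rw [mul_pow, mul_pow, e5]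
    nlinarith only [e6, hs, sq_nonneg (Real.sin (θ / 2)), sq_pos_of_pos hs]
  have h4 := gapK hpos hK hp
  have h5 : K / (2 * Real.sinh σ) ≤ 1 / (2 * Real.sinh σ) - tau σ θ := by
    rw [h2, div_eq_mul_inv, mul_comm, ← one_div]
    gcongr
  linarith

theorem cos_half_nonneg {θ : ℝ} (h1 : -π ≤ θ) (h2 : θ ≤ π) : 0 ≤ Real.cos (θ / 2) :=
  Real.cos_nonneg_of_neg_pi_div_two_le_of_le (by linarith) (by linarith)

/-- Upper side. -/
theorem h_le_upper {σ θ vb X K : ℝ} (hσ : 0 < σ) (hθ : vb * σ ≤ θ) (hθ2 : θ ≤ π) (hvb : 0 < vb)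
    (hX : 1 ≤ X) (hK : K * (1 + X ^ 2) ≤ (X - 1) ^ 2)
    (hcond : 0 ≤ 15 * (vb - X) + (σ / 2) ^ 2 * (6 * vb - X + 5 * X * vb ^ 2)
      + X * vb ^ 2 * (σ / 2) ^ 4 / 3) :
    h σ θ ≤ Lr σ - Lr (2 * σ) - K / (2 * Real.sinh σ) := by
  have hpi := Real.pi_pos
  have hθ0 : 0 < θ := lt_of_lt_of_le (by positivity) hθ
  refine h_le_of_prod hσ θ hK ?_
  have hC : 0 ≤ Real.cos (θ / 2) := cos_half_nonneg (by linarith) hθ2
  have hS : 0 < Real.sin (θ / 2) := Real.sin_pos_of_pos_of_lt_pi (by linarith) (by linarith)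
  have hs : 0 < Real.sinh (σ / 2) := Real.sinh_pos_iff.mpr (by linarith)
  have hc : 0 < Real.cosh (σ / 2) := Real.cosh_pos _
  have hz : 0 < σ / 2 := by linarith
  have h15 := fifteen_sinh hz.le
  have h3 := three_sin (y := θ / 2) (by linarith) (by linarith)
  set z := σ / 2 with hzdef
  set C := Real.cos (θ / 2)
  set S := Real.sin (θ / 2)
  set sh := Real.sinh z
  set ch := Real.cosh z
  have hy0 : vb * z ≤ θ / 2 := by rw [hzdef]; linarith
  have hy1 : θ / 2 ≤ 1.5708 := by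
    have := Real.pi_lt_d6
    linarith
  have hy0' : 0 < vb * z := by positivity
  have hyy : (vb * z) ^ 2 ≤ (θ / 2) ^ 2 := by gcongr
  have hy3 : (θ / 2) ^ 2 < 3 := by nlinarith only [hy1, hθ0]
  have h4 : 3 * (vb * z) * C ≤ (3 - (vb * z) ^ 2) * S := by
    have h5 : 3 * (vb * z) * C ≤ 3 * (θ / 2) * C := by gcongr
    have h6 : (3 - (θ / 2) ^ 2) * S ≤ (3 - (vb * z) ^ 2) * S := by
      apply mul_le_mul_of_nonneg_right _ hS.le
      linarith
    linarith
  -- X sinh C ≤ cosh S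
  have hD : 0 < 3 - (vb * z) ^ 2 := by linarith
  have hE : 0 < 15 + 6 * z ^ 2 := by positivity
  have h7 : X * z * (15 + z ^ 2) * (3 - (vb * z) ^ 2) ≤ (15 + 6 * z ^ 2) * (3 * (vb * z)) := by
    have h8 : (15 + 6 * z ^ 2) * (3 * (vb * z)) - X * z * (15 + z ^ 2) * (3 - (vb * z) ^ 2)
        = 3 * z * (15 * (vb - X) + z ^ 2 * (6 * vb - X + 5 * X * vb ^ 2)
      + X * vb ^ 2 * z ^ 4 / 3) := by ring
    have h9 : 0 ≤ 3 * z * (15 * (vb - X) + z ^ 2 * (6 * vb - X + 5 * X * vb ^ 2)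
      + X * vb ^ 2 * z ^ 4 / 3) := by positivity
    linarith only [h9]
  have h8 : X * (z * (15 + z ^ 2)) * C ≤ (15 + 6 * z ^ 2) * S := by
    have h9 : (X * (z * (15 + z ^ 2)) * C) * (3 - (vb * z) ^ 2)
        ≤ ((15 + 6 * z ^ 2) * S) * (3 - (vb * z) ^ 2) := by
      calc (X * (z * (15 + z ^ 2)) * C) * (3 - (vb * z) ^ 2)
          = (X * z * (15 + z ^ 2) * (3 - (vb * z) ^ 2)) * C := by ring
        _ ≤ ((15 + 6 * z ^ 2) * (3 * (vb * z))) * C := by gcongr
        _ = (15 + 6 * z ^ 2) * (3 * (vb * z) * C) := by ring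
        _ ≤ (15 + 6 * z ^ 2) * ((3 - (vb * z) ^ 2) * S) := by gcongr
        _ = _ := by ring
    exact le_of_mul_le_mul_right h9 hD
  have h10 : X * (sh * C) ≤ ch * S := by
    have h11 : (X * (sh * C)) * (15 + 6 * z ^ 2) ≤ (ch * S) * (15 + 6 * z ^ 2) := by
      calc (X * (sh * C)) * (15 + 6 * z ^ 2) = ((15 + 6 * z ^ 2) * sh) * (X * C) := by ring
        _ ≤ (z * (15 + z ^ 2) * ch) * (X * C) := by gcongr
        _ = ch * (X * (z * (15 + z ^ 2)) * C) := by ring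
        _ ≤ ch * ((15 + 6 * z ^ 2) * S) := by gcongr
        _ = _ := by ring
    exact le_of_mul_le_mul_right h11 hE
  have h12 : 0 ≤ sh * C := by positivity
  have h13 : 0 ≤ ch * S := by positivity
  have h14 : sh * C ≤ X * (ch * S) := by nlinarith
  nlinarith only [h10, h14]

/-- Lower side, with slope `0.24` and `X = 1/2`. -/
theorem h_le_lower {σ θ : ℝ} (hσ : 0 < σ) (hσ2 : σ ≤ 3.3) (hθ : θ ≤ 0.24 * σ) (hθ2 : -π ≤ θ) :
    h σ θ ≤ Lr σ - Lr (2 * σ) - (1 / 5) / (2 * Real.sinh σ) := by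
  have hpi := Real.pi_gt_d6
  refine h_le_of_prod (X := 1 / 2) hσ θ (by norm_num) ?_
  have hC : 0 ≤ Real.cos (θ / 2) := cos_half_nonneg hθ2 (by nlinarith only [hpi, hθ, hσ2])
  have hs : 0 < Real.sinh (σ / 2) := Real.sinh_pos_iff.mpr (by linarith)
  have hc : 0 < Real.cosh (σ / 2) := Real.cosh_pos _
  have hz : 0 < σ / 2 := by linarith
  have hkey : Real.cosh (σ / 2) * Real.sin (θ / 2) ≤ 1 / 2 * (Real.sinh (σ / 2) * Real.cos (θ / 2)) := by
    rcases le_or_gt θ 0 with hθ0 | hθ0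
    · have h1 : Real.sin (θ / 2) ≤ 0 :=
        Real.sin_nonpos_of_nonpos_of_neg_pi_le (by linarith) (by linarith)
      have h2 : Real.cosh (σ / 2) * Real.sin (θ / 2) ≤ 0 :=
        mul_nonpos_of_nonneg_of_nonpos hc.le h1
      have h3 : 0 ≤ 1 / 2 * (Real.sinh (σ / 2) * Real.cos (θ / 2)) := by positivity
      linarith
    · have h1 : Real.sin (θ / 2) ≤ θ / 2 := Real.sin_le (by linarith)
      have h2 : 1 - (θ / 2) ^ 2 / 2 ≤ Real.cos (θ / 2) := Real.one_sub_sq_div_two_le_cos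
      have h3 := three_sinh hz.le
      set z := σ / 2 with hzdef
      set C := Real.cos (θ / 2)
      set S := Real.sin (θ / 2)
      set sh := Real.sinh z
      set ch := Real.cosh z
      have hy : θ / 2 ≤ 0.24 * z := by rw [hzdef]; linarith
      have hzz : z ≤ 1.65 := by rw [hzdef]; linarith
      have hw : z ^ 2 ≤ 2.7225 := by nlinarith only [hz, hzdef, hσ, hσ2]
      have hyy : (θ / 2) ^ 2 ≤ 0.0576 * z ^ 2 := by nlinarith only [hz, hzdef, hθ, hθ0, hσ]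
      have hE : 0 < 3 + z ^ 2 := by positivity
      have h4 : 2 * (ch * S) * (3 + z ^ 2) ≤ (sh * C) * (3 + z ^ 2) := by
        have h5 : 0 ≤ 1 - (θ / 2) ^ 2 / 2 := by nlinarith only [hw, hyy, hθ, hθ0, hσ2]
        calc 2 * (ch * S) * (3 + z ^ 2) = ch * (2 * S * (3 + z ^ 2)) := by ring
          _ ≤ ch * (2 * (0.24 * z) * (3 + z ^ 2)) := by
              have : S ≤ 0.24 * z := h1.trans hy
              gcongr
          _ ≤ ch * (3 * z * (1 - (θ / 2) ^ 2 / 2)) := by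
              apply mul_le_mul_of_nonneg_left _ hc.le
              have h6 : 0.48 * (3 + z ^ 2) ≤ 3 * (1 - (θ / 2) ^ 2 / 2) := by nlinarith only [hw, hyy, hθ, hθ0, hσ2]
              nlinarith only [hw, hyy, hzdef, hθ, hθ0, hσ]
          _ ≤ ch * (3 * z * C) := by gcongr
          _ = (3 * z * ch) * C := by ring
          _ ≤ ((3 + z ^ 2) * sh) * C := by gcongr
          _ = _ := by ring
      have h5 := le_of_mul_le_mul_right h4 hE
      linarith
  have h12 : 0 ≤ Real.sinh (σ / 2) * Real.cos (θ / 2) := by positivity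
  have h14 : 1 / 2 * (Real.cosh (σ / 2) * Real.sin (θ / 2))
      ≤ Real.sinh (σ / 2) * Real.cos (θ / 2) := by linarith
  apply mul_nonneg <;> linarith

/-- `sinh x / x` is increasing. -/
theorem sinh_le_linear {σ b S : ℝ} (hσ : 0 < σ) (hb : σ ≤ b) (hS : Real.sinh b ≤ S * b) :
    Real.sinh σ ≤ S * σ := by
  have hm : MonotoneOn (fun x : ℝ => Real.sinh x / x) (Set.Ioi 0) := by
    apply monotoneOn_of_deriv_nonneg (convex_Ioi 0)
    · intro x hx
      have hx' : x ≠ 0 := (ne_of_gt hx)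
      exact (Real.continuous_sinh.continuousAt.div continuousAt_id hx').continuousWithinAt
    · intro x hx
      rw [interior_Ioi] at hx
      have hx' : x ≠ 0 := (ne_of_gt hx)
      exact ((Real.hasDerivAt_sinh x).div (hasDerivAt_id x) hx').differentiableAt.differentiableWithinAt
    · intro x hx
      rw [interior_Ioi] at hx
      have hx0 : 0 < x := hx
      have h1 : HasDerivAt (fun x : ℝ => Real.sinh x / x)
          ((Real.cosh x * x - Real.sinh x * 1) / x ^ 2) x :=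
        (Real.hasDerivAt_sinh x).div (hasDerivAt_id x) hx0.ne'
      rw [h1.deriv]
      have := sinh_le_mul_cosh hx0.le
      apply div_nonneg _ (by positivity)
      linarith
  have hb0 : 0 < b := hσ.trans_le hb
  have h := hm (Set.mem_Ioi.mpr hσ) (Set.mem_Ioi.mpr hb0) hb
  have h' : Real.sinh σ / σ ≤ Real.sinh b / b := h
  have h2 : Real.sinh b / b ≤ S := by rwa [div_le_iff₀ hb0]
  have h3 := h'.trans h2
  rwa [div_le_iff₀ hσ] at h3

/-- The gap inequality. -/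
theorem gap_ineq {σ v K c p α S a b : ℝ} (hσ : 0 < σ) (ha : a ≤ σ) (hb : σ ≤ b)
    (hK : 0 ≤ K) (hS : Real.sinh b ≤ S * b) (hv : v ≤ 1)
    (hp : π ^ 2 / 12 * ((1 - v) ^ 2 / (1 + v ^ 2)) ≤ p)
    (hα : Real.arctan v / 2 - Real.log 2 / 2 + Lr (4 * π ^ 2 / (σ * (1 + v ^ 2))) ≤ α)
    (hea : p + c + α * a + (1 - v) / 24 * a ^ 2 ≤ K / (2 * S))
    (heb : p + c + α * b + (1 - v) / 24 * b ^ 2 ≤ K / (2 * S)) :
    Lr σ - Lr (2 * σ) - K / (2 * Real.sinh σ) ≤ h σ (v * σ) - c / σ := by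
  have h1 := Lr_diff_le hσ
  have h2 := h_lower (v := v) hσ
  have h3 := sinh_le_linear hσ hb hS
  have hs : 0 < Real.sinh σ := Real.sinh_pos_iff.mpr hσ
  have h4 : K / (2 * S) / σ ≤ K / (2 * Real.sinh σ) := by
    rw [div_div]
    apply div_le_div_of_nonneg_left hK (by positivity)
    linarith
  -- quadratic bound
  have h5 : p + c + α * σ + (1 - v) / 24 * σ ^ 2 ≤ K / (2 * S) := by
    rcases eq_or_lt_of_le (ha.trans hb) with hab | hab
    · have : σ = a := le_antisymm (by linarith) ha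
      rw [this]; exact hea
    · have hq : σ ^ 2 ≤ (a + b) * σ - a * b := by nlinarith only [ha, hb]
      have h6 : p + c + α * σ + (1 - v) / 24 * σ ^ 2
          ≤ p + c + α * σ + (1 - v) / 24 * ((a + b) * σ - a * b) := by
        have : 0 ≤ (1 - v) / 24 := by linarith
        gcongr
      -- linear interpolation
      have h7 : (b - a) * (p + c + α * σ + (1 - v) / 24 * ((a + b) * σ - a * b))
          = (b - σ) * (p + c + α * a + (1 - v) / 24 * a ^ 2)
            + (σ - a) * (p + c + α * b + (1 - v) / 24 * b ^ 2) := by ring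
      have h8 : (b - σ) * (p + c + α * a + (1 - v) / 24 * a ^ 2)
            + (σ - a) * (p + c + α * b + (1 - v) / 24 * b ^ 2)
          ≤ (b - σ) * (K / (2 * S)) + (σ - a) * (K / (2 * S)) := by
        have h9 : 0 ≤ b - σ := by linarith
        have h10 : 0 ≤ σ - a := by linarith
        gcongr
      have h9 : (b - a) * (p + c + α * σ + (1 - v) / 24 * ((a + b) * σ - a * b))
          ≤ (b - a) * (K / (2 * S)) := by
        rw [h7]
        refine h8.trans (le_of_eq ?_)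
        ring
      have h10 := le_of_mul_le_mul_left h9 (by linarith)
      linarith only [h10, h6]
  have h6 : (p + c + α * σ + (1 - v) / 24 * σ ^ 2) / σ ≤ K / (2 * S) / σ := by gcongr
  have h7 : (p + c + α * σ + (1 - v) / 24 * σ ^ 2) / σ = p / σ + c / σ + α + (1 - v) / 24 * σ := by
    field_simp
  have h8 : π ^ 2 / 12 * ((1 - v) ^ 2 / (1 + v ^ 2)) / σ ≤ p / σ := by gcongr
  have hy : 0 < 1 + v ^ 2 := by positivity
  have h9 : π ^ 2 / 12 * ((1 - v) ^ 2 / (1 + v ^ 2)) / σ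
      = π ^ 2 / (12 * σ) - π ^ 2 * v / (6 * σ * (1 + v ^ 2)) := by
    field_simp
    ring
  rw [h9] at h8
  rw [h7] at h6
  linarith only [h1, h2, h4, h6, h8, hα]

end Pool.Agent.Lib.MP_d73f62_nt
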