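import Mathlib
import Pool.Agent.Lib.MP_d73f62_nt.Geo
import Pool.Agent.Lib.MP_d73f62_nt.Conc

set_option autoImplicit false

open Complex Set
open scoped Real

namespace Pool.Agent.Lib.MP_d73f62_nt

theorem re_pt' (σ θ : ℝ) : ((σ : ℂ) + (θ : ℝ) * I).re = σ := by simp

theorem hasDerivAt_path (σ θ : ℝ) : HasDerivAt (fun θ : ℝ => (σ : ℂ) + (θ : ℂ) * I) I θ := by
  have h1 : HasDerivAt (fun θ : ℝ => (θ : ℂ)) 1 θ := Complex.ofRealCLM.hasDerivAt
  have h2 := (h1.mul_const I).const_add (σ : ℂ)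
  exact h2.congr_deriv (by ring)

theorem hasDerivAt_Lpath {σ : ℝ} (hσ : 0 < σ) (θ : ℝ) :
    HasDerivAt (fun θ : ℝ => L ((σ : ℂ) + (θ : ℂ) * I)) (-(G ((σ : ℂ) + (θ : ℂ) * I)) * I) θ := by
  have h1 : HasDerivAt L (-(G ((σ : ℂ) + (θ : ℂ) * I))) ((σ : ℂ) + (θ : ℂ) * I) :=
    hasDerivAt_L (by rw [re_pt']; exact hσ)
  exact HasDerivAt.comp (h₂ := L) (h := fun θ : ℝ => (σ : ℂ) + (θ : ℂ) * I) θ h1 (hasDerivAt_path σ θ)

theorem hasDerivAt_Gpath {σ : ℝ} (hσ : 0 < σ) (θ : ℝ) :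
    HasDerivAt (fun θ : ℝ => G ((σ : ℂ) + (θ : ℂ) * I)) (-(G1 ((σ : ℂ) + (θ : ℂ) * I)) * I) θ := by
  have h1 : HasDerivAt G (-(G1 ((σ : ℂ) + (θ : ℂ) * I))) ((σ : ℂ) + (θ : ℂ) * I) :=
    hasDerivAt_G (by rw [re_pt']; exact hσ)
  exact HasDerivAt.comp (h₂ := G) (h := fun θ : ℝ => (σ : ℂ) + (θ : ℂ) * I) θ h1 (hasDerivAt_path σ θ)

theorem hasDerivAt_h {σ : ℝ} (hσ : 0 < σ) (θ : ℝ) :
    HasDerivAt (h σ) (G ((σ : ℂ) + (θ : ℂ) * I)).re θ := by
  have h1 := (Complex.imCLM.hasFDerivAt).comp_hasDerivAt θ (hasDerivAt_Lpath hσ θ)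
  have h2 := h1.neg
  refine (h2.congr_deriv ?_).congr_of_eventuallyEq ?_
  · simp
  · exact Filter.Eventually.of_forall fun z => rfl

theorem hasDerivAt_reG {σ : ℝ} (hσ : 0 < σ) (θ : ℝ) :
    HasDerivAt (fun θ : ℝ => (G ((σ : ℂ) + (θ : ℂ) * I)).re) (G1 ((σ : ℂ) + (θ : ℂ) * I)).im θ := by
  have h1 := (Complex.reCLM.hasFDerivAt).comp_hasDerivAt θ (hasDerivAt_Gpath hσ θ)
  refine (h1.congr_deriv ?_).congr_of_eventuallyEq ?_
  · simp
  · exact Filter.Eventually.of_forall fun z => rfl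

/-- The good profile property of the abscissa `σ` and the ordinate `θ0`. -/
def GPat (c1 σ θ0 : ℝ) : Prop := 0 < θ0 - σ / 8 ∧ θ0 + σ / 8 ≤ π ∧ θ0 ≤ 3 / 2 * σ ∧
  (G ((σ : ℂ) + (θ0 : ℂ) * I)).re = 0 ∧
  2 * c1 / σ ^ 3 ≤ -(G1 ((σ : ℂ) + (θ0 : ℂ) * I)).im ∧
  (∀ θ : ℝ, |θ - θ0| ≤ σ / 8 → h σ θ ≤ h σ θ0 - c1 * (θ - θ0) ^ 2 / σ ^ 3) ∧
  (∀ θ : ℝ, -π ≤ θ → θ ≤ π → σ / 8 ≤ |θ - θ0| → h σ θ ≤ h σ θ0 - c1 / 64 / σ)

/-- The good profile property of the abscissa `σ`. -/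
def GP (c1 σ : ℝ) : Prop := ∃ θ0 : ℝ, GPat c1 σ θ0

theorem gp_of {σ va vt vb c c1 : ℝ} (hσ : 0 < σ) (hc1 : 0 < c1) (hc : c1 / 64 ≤ c)
    (hva : 1 / 8 ≤ va) (hat : va < vt) (htb : vt < vb) (hvb : vb ≤ 3 / 2) (hpi : vb * σ + σ / 8 ≤ π)
    (hA : ∀ θ, -π ≤ θ → θ ≤ π → (θ ≤ va * σ ∨ vb * σ ≤ θ) → h σ θ ≤ h σ (vt * σ) - c / σ)
    (hB : ∀ v, va ≤ v → v ≤ vb → 2 * c1 / σ ^ 3 ≤ -(G1 ((σ : ℂ) + (v * σ : ℝ) * I)).im) :
    GP c1 σ := by
  have hpi0 := Real.pi_pos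
  have hc0 : 0 < c := by linarith
  have hcont : Continuous (h σ) := by
    rw [continuous_iff_continuousAt]
    intro θ
    exact (hasDerivAt_h hσ θ).continuousAt
  have hab : va * σ ≤ vb * σ := by gcongr; linarith
  obtain ⟨θ0, hθ0, hmax⟩ := isCompact_Icc.exists_isMaxOn (nonempty_Icc.mpr hab)
    (hcont.continuousOn (s := Icc (va * σ) (vb * σ)))
  have hmax' : ∀ θ ∈ Icc (va * σ) (vb * σ), h σ θ ≤ h σ θ0 := fun θ hθ => hmax hθ
  have ht : h σ (vt * σ) ≤ h σ θ0 := hmax' _ ⟨by gcongr, by gcongr⟩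
  have hcσ : 0 < c / σ := by positivity
  have hvb0 : vb * σ ≤ π := by linarith
  have hva0 : 0 < va * σ := by positivity
  have hne1 : va * σ < θ0 := by
    rcases eq_or_lt_of_le hθ0.1 with h1 | h1
    · have h2 := hA θ0 (by linarith) (by linarith [hθ0.2]) (Or.inl h1.symm.le)
      linarith
    · exact h1
  have hne2 : θ0 < vb * σ := by
    rcases eq_or_lt_of_le hθ0.2 with h1 | h1
    · have h2 := hA θ0 (by linarith) (by linarith [hθ0.2]) (Or.inr h1.symm.le)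
      linarith
    · exact h1
  have hlocal : IsLocalMax (h σ) θ0 := by
    have hn : Icc (va * σ) (vb * σ) ∈ nhds θ0 := Icc_mem_nhds hne1 hne2
    filter_upwards [hn] with θ hθ
    exact hmax' θ hθ
  have hcrit : (G ((σ : ℂ) + (θ0 : ℂ) * I)).re = 0 := hlocal.hasDerivAt_eq_zero (hasDerivAt_h hσ θ0)
  have hB' : ∀ θ ∈ Icc (va * σ) (vb * σ), 2 * c1 / σ ^ 3 ≤ -(G1 ((σ : ℂ) + (θ : ℂ) * I)).im := by
    intro θ hθ
    have h1 := hB (θ / σ) (by rw [le_div_iff₀ hσ]; exact hθ.1) (by rw [div_le_iff₀ hσ]; exact hθ.2)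
    have h2 : θ / σ * σ = θ := by field_simp
    rwa [h2] at h1
  -- the auxiliary function
  have hF : ∀ θ : ℝ, HasDerivAt (fun θ => h σ θ + c1 * (θ - θ0) ^ 2 / σ ^ 3)
      ((G ((σ : ℂ) + (θ : ℂ) * I)).re + 2 * c1 / σ ^ 3 * (θ - θ0)) θ := by
    intro θ
    have h1 := hasDerivAt_h hσ θ
    have h2 : HasDerivAt (fun θ : ℝ => c1 * (θ - θ0) ^ 2 / σ ^ 3) (2 * c1 / σ ^ 3 * (θ - θ0)) θ := by
      have h3 : HasDerivAt (fun θ : ℝ => θ - θ0) 1 θ := (hasDerivAt_id θ).sub_const θ0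
      have h4 := ((h3.pow 2).const_mul c1).div_const (σ ^ 3)
      exact h4.congr_deriv (by ring)
    exact h1.add h2
  have hF' : ∀ θ : ℝ, HasDerivAt (fun θ : ℝ => (G ((σ : ℂ) + (θ : ℂ) * I)).re
      + 2 * c1 / σ ^ 3 * (θ - θ0)) ((G1 ((σ : ℂ) + (θ : ℂ) * I)).im + 2 * c1 / σ ^ 3) θ := by
    intro θ
    have h1 := hasDerivAt_reG hσ θ
    have h2 : HasDerivAt (fun θ : ℝ => 2 * c1 / σ ^ 3 * (θ - θ0)) (2 * c1 / σ ^ 3) θ := by
      have h3 : HasDerivAt (fun θ : ℝ => θ - θ0) 1 θ := (hasDerivAt_id θ).sub_const θ0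
      exact (h3.const_mul (2 * c1 / σ ^ 3)).congr_deriv (by ring)
    exact h1.add h2
  have hanti : AntitoneOn (fun θ : ℝ => (G ((σ : ℂ) + (θ : ℂ) * I)).re
      + 2 * c1 / σ ^ 3 * (θ - θ0)) (Icc (va * σ) (vb * σ)) := by
    apply antitoneOn_of_deriv_nonpos (convex_Icc _ _)
    · exact fun θ _ => (hF' θ).continuousAt.continuousWithinAt
    · exact fun θ _ => (hF' θ).differentiableAt.differentiableWithinAt
    · intro θ hθ
      rw [(hF' θ).deriv]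
      have := hB' θ (interior_subset hθ)
      linarith
  have hθ0m : θ0 ∈ Icc (va * σ) (vb * σ) := ⟨hne1.le, hne2.le⟩
  have hin : ∀ θ ∈ Icc (va * σ) (vb * σ), h σ θ ≤ h σ θ0 - c1 * (θ - θ0) ^ 2 / σ ^ 3 := by
    intro θ hθ
    rcases le_total θ θ0 with hle | hle
    · have hm : MonotoneOn (fun θ => h σ θ + c1 * (θ - θ0) ^ 2 / σ ^ 3) (Icc (va * σ) θ0) := by
        apply monotoneOn_of_deriv_nonneg (convex_Icc _ _)
        · exact fun θ _ => (hF θ).continuousAt.continuousWithinAt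
        · exact fun θ _ => (hF θ).differentiableAt.differentiableWithinAt
        · intro y hy
          have hy' := interior_subset hy
          rw [(hF y).deriv]
          have h3 := hanti ⟨hy'.1, hy'.2.trans hne2.le⟩ hθ0m hy'.2
          simp only [sub_self, mul_zero, add_zero] at h3
          rw [hcrit] at h3
          exact h3
      have h4 := hm ⟨hθ.1, hle⟩ ⟨hne1.le, le_rfl⟩ hle
      simp only [sub_self] at h4
      norm_num at h4
      linarith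
    · have hm : AntitoneOn (fun θ => h σ θ + c1 * (θ - θ0) ^ 2 / σ ^ 3) (Icc θ0 (vb * σ)) := by
        apply antitoneOn_of_deriv_nonpos (convex_Icc _ _)
        · exact fun θ _ => (hF θ).continuousAt.continuousWithinAt
        · exact fun θ _ => (hF θ).differentiableAt.differentiableWithinAt
        · intro y hy
          have hy' := interior_subset hy
          rw [(hF y).deriv]
          have h3 := hanti hθ0m ⟨hne1.le.trans hy'.1, hy'.2⟩ hy'.1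
          simp only [sub_self, mul_zero, add_zero] at h3
          rw [hcrit] at h3
          exact h3
      have h4 := hm ⟨le_rfl, hne2.le⟩ ⟨hle, hθ.2⟩ hle
      simp only [sub_self] at h4
      norm_num at h4
      linarith
  refine ⟨θ0, ?_, ?_, ?_, hcrit, hB' θ0 hθ0m, ?_, ?_⟩
  · have : σ / 8 ≤ va * σ := by nlinarith
    linarith
  · linarith
  · have : vb * σ ≤ 3 / 2 * σ := by gcongr
    linarith
  · intro θ hθ
    have hθ' := abs_le.mp hθ
    by_cases hm : θ ∈ Icc (va * σ) (vb * σ)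
    · exact hin θ hm
    · have h1 : θ ≤ va * σ ∨ vb * σ ≤ θ := by
        rw [mem_Icc, not_and_or, not_le, not_le] at hm
        rcases hm with h2 | h2
        · exact Or.inl h2.le
        · exact Or.inr h2.le
      have h0 : σ / 8 ≤ va * σ := by nlinarith
      have h2 := hA θ (by linarith) (by linarith) h1
      have h3 : c1 * (θ - θ0) ^ 2 / σ ^ 3 ≤ c / σ := by
        have h4 : (θ - θ0) ^ 2 ≤ (σ / 8) ^ 2 := by
          rw [← sq_abs (θ - θ0)]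
          gcongr
        calc c1 * (θ - θ0) ^ 2 / σ ^ 3 ≤ c1 * (σ / 8) ^ 2 / σ ^ 3 := by gcongr
          _ = c1 / 64 / σ := by
              field_simp
              norm_num
          _ ≤ c / σ := by gcongr
      linarith
  · intro θ h1 h2 h3
    by_cases hm : θ ∈ Icc (va * σ) (vb * σ)
    · have h4 := hin θ hm
      have h5 : c1 / 64 / σ ≤ c1 * (θ - θ0) ^ 2 / σ ^ 3 := by
        have h4 : (σ / 8) ^ 2 ≤ (θ - θ0) ^ 2 := by
          rw [← sq_abs (θ - θ0)]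
          gcongr
        calc c1 / 64 / σ = c1 * (σ / 8) ^ 2 / σ ^ 3 := by
              field_simp
              norm_num
          _ ≤ c1 * (θ - θ0) ^ 2 / σ ^ 3 := by gcongr
      linarith
    · have h4 : θ ≤ va * σ ∨ vb * σ ≤ θ := by
        rw [mem_Icc, not_and_or, not_le, not_le] at hm
        rcases hm with h2 | h2
        · exact Or.inl h2.le
        · exact Or.inr h2.le
      have h5 := hA θ h1 h2 h4
      have h6 : c1 / 64 / σ ≤ c / σ := by gcongr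
      linarith

end Pool.Agent.Lib.MP_d73f62_nt
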