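import Mathlib
import Pool.Agent.Lib.MP_d73f62_nt.Hbounds

set_option autoImplicit false

open Complex Set Filter Topology
open scoped Real

namespace Pool.Agent.Lib.MP_d73f62_nt

/-- Subexponential growth of `P_n(x)`. -/
theorem P_growth_exp (x : ℂ) {ε : ℝ} (hε : 0 < ε) :
    ∃ M : ℝ, 0 ≤ M ∧ ∀ n : ℕ, ‖P n x‖ ≤ M * Real.exp (ε * n) := by
  set g : ℝ := Dr cG ε with hg
  have hg0 : 0 ≤ g := Dr_nonneg cG_nonneg ε
  obtain ⟨N0, hN0⟩ := exists_nat_ge (‖x‖ * g)
  set M : ℝ := ∑ m ∈ Finset.range (N0 + 1), ‖P m x‖ with hM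
  have hM0 : 0 ≤ M := Finset.sum_nonneg fun m _ => norm_nonneg _
  refine ⟨M, hM0, ?_⟩
  intro n
  induction n using Nat.strong_induction_on with
  | _ n ih =>
    rcases le_or_gt n N0 with hn | hn
    · have h1 : ‖P n x‖ ≤ M :=
        Finset.single_le_sum (f := fun m => ‖P m x‖) (fun m _ => norm_nonneg _)
          (Finset.mem_range.mpr (by omega))
      have h2 : 1 ≤ Real.exp (ε * n) := Real.one_le_exp (by positivity)
      nlinarith
    · obtain ⟨m, rfl⟩ : ∃ m, n = m + 1 := ⟨n - 1, by omega⟩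
      have h1 := P_succ m x
      have h2 : ((m : ℝ) + 1) * ‖P (m + 1) x‖
          ≤ ‖x‖ * ∑ k ∈ Finset.range (m + 1), cG k * ‖P (m - k) x‖ := by
        have h3 : ‖((m : ℂ) + 1) * P (m + 1) x‖ = ((m : ℝ) + 1) * ‖P (m + 1) x‖ := by
          rw [norm_mul]
          congr 1
          have : ((m : ℂ) + 1) = (((m : ℝ) + 1 : ℝ) : ℂ) := by push_cast; ring
          rw [this, Complex.norm_real, Real.norm_of_nonneg (by positivity)]
        rw [← h3, h1, norm_mul]
        gcongr
        refine (norm_sum_le _ _).trans (Finset.sum_le_sum ?_)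
        intro k _
        rw [norm_mul, Complex.norm_natCast]
        rfl
      have h4 : ∑ k ∈ Finset.range (m + 1), cG k * ‖P (m - k) x‖
          ≤ M * Real.exp (ε * ((m + 1 : ℕ) : ℝ)) * g := by
        have h5 : ∑ k ∈ Finset.range (m + 1), cG k * ‖P (m - k) x‖
            ≤ ∑ k ∈ Finset.range (m + 1), M * Real.exp (ε * ((m + 1 : ℕ) : ℝ)) *
              (cG k * Real.exp (-((k : ℝ) + 1) * ε)) := by
          apply Finset.sum_le_sum
          intro k hk
          have hk' : k ≤ m := by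
            have := Finset.mem_range.mp hk
            omega
          have h6 := ih (m - k) (by omega)
          have h7 : Real.exp (ε * ((m - k : ℕ) : ℝ))
              = Real.exp (ε * ((m + 1 : ℕ) : ℝ)) * Real.exp (-((k : ℝ) + 1) * ε) := by
            rw [← Real.exp_add]
            congr 1
            push_cast [Nat.cast_sub hk']
            ring
          rw [h7] at h6
          have h8 := cG_nonneg k
          calc cG k * ‖P (m - k) x‖
              ≤ cG k * (M * (Real.exp (ε * ((m + 1 : ℕ) : ℝ)) * Real.exp (-((k : ℝ) + 1) * ε))) := by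
                gcongr
            _ = _ := by ring
        refine h5.trans ?_
        rw [← Finset.mul_sum]
        have h9 : ∑ k ∈ Finset.range (m + 1), cG k * Real.exp (-((k : ℝ) + 1) * ε) ≤ g := by
          rw [hg]
          exact (pg_cG.summable hε).sum_le_tsum _
            (fun k _ => mul_nonneg (cG_nonneg k) (Real.exp_pos _).le)
        gcongr
      have h5 : ‖x‖ * g ≤ (m : ℝ) + 1 := by
        have : (N0 : ℝ) ≤ (m : ℝ) := by exact_mod_cast (by omega : N0 ≤ m)
        linarith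
      have h6 : ((m : ℝ) + 1) * ‖P (m + 1) x‖
          ≤ ((m : ℝ) + 1) * (M * Real.exp (ε * ((m + 1 : ℕ) : ℝ))) := by
        calc ((m : ℝ) + 1) * ‖P (m + 1) x‖
            ≤ ‖x‖ * ∑ k ∈ Finset.range (m + 1), cG k * ‖P (m - k) x‖ := h2
          _ ≤ ‖x‖ * (M * Real.exp (ε * ((m + 1 : ℕ) : ℝ)) * g) := by gcongr
          _ = (‖x‖ * g) * (M * Real.exp (ε * ((m + 1 : ℕ) : ℝ))) := by ring
          _ ≤ ((m : ℝ) + 1) * (M * Real.exp (ε * ((m + 1 : ℕ) : ℝ))) := by
              have : 0 ≤ M * Real.exp (ε * ((m + 1 : ℕ) : ℝ)) := by positivity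
              gcongr
      exact le_of_mul_le_mul_left h6 (by positivity)

/-- Summability with a polynomial factor. -/
theorem P_summable (x : ℂ) {u : ℝ} (hu : 0 < u) (j : ℕ) :
    Summable fun n : ℕ => (n : ℝ) ^ j * (‖P n x‖ * Real.exp (-(n : ℝ) * u)) := by
  obtain ⟨M, hM, h⟩ := P_growth_exp x (ε := u / 2) (by linarith)
  have hr : ‖Real.exp (-(u / 2))‖ < 1 := by
    rw [Real.norm_of_nonneg (Real.exp_pos _).le]
    exact Real.exp_lt_one_iff.mpr (by linarith)
  have h1 := (summable_pow_mul_geometric_of_norm_lt_one j hr).mul_left M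
  refine Summable.of_nonneg_of_le (fun n => by positivity) ?_ h1
  intro n
  have h2 : Real.exp (-(n : ℝ) * u) = Real.exp (-(u / 2)) ^ n * Real.exp (-(u / 2 * n)) := by
    rw [← Real.exp_nat_mul, ← Real.exp_add]
    congr 1
    ring
  have h3 : Real.exp (u / 2 * n) * Real.exp (-(u / 2 * n)) = 1 := by
    rw [← Real.exp_add]; simp
  calc (n : ℝ) ^ j * (‖P n x‖ * Real.exp (-(n : ℝ) * u))
      ≤ (n : ℝ) ^ j * ((M * Real.exp (u / 2 * n)) * Real.exp (-(n : ℝ) * u)) := by
        have := h n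
        gcongr
    _ = M * ((n : ℝ) ^ j * Real.exp (-(u / 2)) ^ n) * (Real.exp (u / 2 * n) * Real.exp (-(u / 2 * n))) := by
        rw [h2]; ring
    _ = M * ((n : ℝ) ^ j * Real.exp (-(u / 2)) ^ n) := by rw [h3, mul_one]

/-- The generating function. -/
noncomputable def U (x s : ℂ) : ℂ := ∑' n : ℕ, P n x * cexp (-(n : ℂ) * s)

theorem norm_U_term (x s : ℂ) (n : ℕ) :
    ‖P n x * cexp (-(n : ℂ) * s)‖ = ‖P n x‖ * Real.exp (-(n : ℝ) * s.re) := by
  rw [norm_mul, Complex.norm_exp]
  congr 2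
  have : (-(n : ℂ)) = ((-(n : ℝ) : ℝ) : ℂ) := by push_cast; ring
  rw [this, Complex.re_ofReal_mul]

theorem U_summable_norm (x : ℂ) {s : ℂ} (hs : 0 < s.re) :
    Summable fun n : ℕ => ‖P n x * cexp (-(n : ℂ) * s)‖ := by
  refine (P_summable x hs 0).congr ?_
  intro n
  rw [norm_U_term]
  simp

theorem U_deriv (x : ℂ) {s : ℂ} (hs : 0 < s.re) :
    HasDerivAt (U x) (-(∑' n : ℕ, (n : ℂ) * (P n x * cexp (-(n : ℂ) * s)))) s := by
  set r := s.re / 2 with hr
  have hr0 : 0 < r := by rw [hr]; linarith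
  have hsr : s ∈ {z : ℂ | r < z.re} := by
    show r < s.re
    rw [hr]; linarith
  have key := hasDerivAt_tsum_of_isPreconnected
    (g := fun (n : ℕ) (z : ℂ) => P n x * cexp (-(n : ℂ) * z))
    (g' := fun (n : ℕ) (z : ℂ) => P n x * (cexp (-(n : ℂ) * z) * (-(n : ℂ))))
    (u := fun n : ℕ => (n : ℝ) ^ 1 * (‖P n x‖ * Real.exp (-(n : ℝ) * r)))
    (t := {z : ℂ | r < z.re}) (y₀ := s) (y := s)
    (P_summable x hr0 1) (isOpen_re r) (isPreconnected_re r) ?_ ?_ hsr (U_summable_norm x hs).of_norm hsr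
  · have h2 : (∑' n : ℕ, P n x * (cexp (-(n : ℂ) * s) * (-(n : ℂ))))
        = -(∑' n : ℕ, (n : ℂ) * (P n x * cexp (-(n : ℂ) * s))) := by
      rw [← tsum_neg]
      refine tsum_congr ?_
      intro k
      ring
    rw [h2] at key
    exact key
  · intro k z _
    have h3 : HasDerivAt (fun z : ℂ => (-(k : ℂ)) * z) (-(k : ℂ)) z := by
      simpa using (hasDerivAt_id z).const_mul (-(k : ℂ))
    exact (h3.cexp).const_mul (P k x)
  · intro k z hz
    have hz' : r < z.re := hz
    have h4 : P k x * (cexp (-(k : ℂ) * z) * (-(k : ℂ)))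
        = -((k : ℂ) * (P k x * cexp (-(k : ℂ) * z))) := by
      ring
    rw [h4, norm_neg, norm_mul, norm_U_term, Complex.norm_natCast, pow_one]
    gcongr (k : ℝ) * (‖P k x‖ * Real.exp ?_)
    have hk : (0 : ℝ) ≤ (k : ℝ) := by positivity
    nlinarith

/-- The Cauchy product. -/
theorem U_cauchy (x : ℂ) {s : ℂ} (hs : 0 < s.re) :
    x * (G s * U x s) = ∑' n : ℕ, (n : ℂ) * (P n x * cexp (-(n : ℂ) * s)) := by
  have h1 := tsum_mul_tsum_eq_tsum_sum_range_of_summable_norm (pg_cG.summable_norm hs)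
    (U_summable_norm x hs)
  have h2 : G s * U x s = ∑' n : ℕ, ∑ k ∈ Finset.range (n + 1),
      ((cG k : ℂ) * cexp (-((k : ℂ) + 1) * s)) * (P (n - k) x * cexp (-((n - k : ℕ) : ℂ) * s)) := h1
  rw [h2, ← tsum_mul_left]
  have h3 : Summable fun n : ℕ => (n : ℂ) * (P n x * cexp (-(n : ℂ) * s)) := by
    refine Summable.of_norm ?_
    refine (P_summable x hs 1).congr ?_
    intro n
    rw [norm_mul, norm_U_term, Complex.norm_natCast, pow_one]
  rw [h3.tsum_eq_zero_add]
  simp only [Nat.cast_zero, zero_mul, zero_add]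
  refine tsum_congr ?_
  intro n
  have h4 := P_succ n x
  push_cast
  rw [← mul_assoc, h4, mul_assoc, Finset.sum_mul]
  congr 1
  apply Finset.sum_congr rfl
  intro k hk
  have hk' : k ≤ n := by
    have := Finset.mem_range.mp hk
    omega
  have h5 : cexp (-((k : ℂ) + 1) * s) * cexp (-((n - k : ℕ) : ℂ) * s) = cexp (-((n : ℂ) + 1) * s) := by
    rw [← Complex.exp_add]
    congr 1
    push_cast [Nat.cast_sub hk']
    ring
  have h6 : (cG k : ℂ) = ((ArithmeticFunction.sigma 1 (k + 1) : ℕ) : ℂ) := by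
    unfold cG sg
    push_cast
    rfl
  rw [h6, ← h5]
  ring

theorem U_mul_exp_deriv (x : ℂ) {s : ℂ} (hs : 0 < s.re) :
    HasDerivAt (fun z => U x z * cexp (-x * L z)) 0 s := by
  have h1 := U_deriv x hs
  rw [← U_cauchy x hs] at h1
  have h2 : HasDerivAt (fun z => -x * L z) (-x * (-(G s))) s := (hasDerivAt_L hs).const_mul (-x)
  have h3 := h1.mul h2.cexp
  exact h3.congr_deriv (by ring)

theorem U_const (x : ℂ) {s w : ℂ} (hs : 0 < s.re) (hw : 0 < w.re) :
    U x s * cexp (-x * L s) = U x w * cexp (-x * L w) := by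
  have hconv : Convex ℝ {z : ℂ | 0 < z.re} := convex_halfSpace_re_gt 0
  have h := hconv.norm_image_sub_le_of_norm_hasDerivWithin_le
    (f := fun z => U x z * cexp (-x * L z)) (f' := fun _ => 0) (C := 0)
    (fun y hy => (U_mul_exp_deriv x hy).hasDerivWithinAt) (fun y _ => by simp) hw hs
  rw [zero_mul] at h
  have := norm_le_zero_iff.mp h
  exact sub_eq_zero.mp this

theorem U_tendsto (x : ℂ) : Tendsto (fun u : ℝ => U x (u : ℂ)) atTop (𝓝 1) := by
  have h1 : Tendsto (fun u : ℝ => ∑' n : ℕ, P n x * cexp (-(n : ℂ) * (u : ℂ))) atTop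
      (𝓝 (∑' n : ℕ, if n = 0 then (1 : ℂ) else 0)) := by
    apply tendsto_tsum_of_dominated_convergence (P_summable x (u := 1) one_pos 0)
    · intro n
      rcases Nat.eq_zero_or_pos n with rfl | hn
      · simp [P_zero]
      · rw [if_neg (by omega)]
        rw [tendsto_zero_iff_norm_tendsto_zero]
        have h2 : (fun u : ℝ => ‖P n x * cexp (-(n : ℂ) * (u : ℂ))‖)
            = fun u : ℝ => ‖P n x‖ * Real.exp (-(n : ℝ) * u) := by
          funext u
          rw [norm_U_term, Complex.ofReal_re]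
        rw [h2]
        have h3 : Tendsto (fun u : ℝ => Real.exp (-(n : ℝ) * u)) atTop (𝓝 0) := by
          apply Real.tendsto_exp_atBot.comp
          apply tendsto_id.const_mul_atTop_of_neg
          have : (0 : ℝ) < n := by exact_mod_cast hn
          linarith
        simpa using h3.const_mul ‖P n x‖
    · filter_upwards [eventually_ge_atTop (1 : ℝ)] with u hu n
      rw [norm_U_term, Complex.ofReal_re, pow_zero, one_mul]
      have hn : (0 : ℝ) ≤ n := by positivity
      gcongr ‖P n x‖ * Real.exp ?_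
      nlinarith
  have h2 : (∑' n : ℕ, if n = 0 then (1 : ℂ) else 0) = 1 := by
    rw [tsum_ite_eq]
  rw [h2] at h1
  exact h1

theorem L_tendsto : Tendsto (fun u : ℝ => L (u : ℂ)) atTop (𝓝 0) := by
  rw [tendsto_zero_iff_norm_tendsto_zero]
  have h1 : Tendsto (fun u : ℝ => 2 * Real.exp (-u)) atTop (𝓝 0) := by
    simpa using (Real.tendsto_exp_neg_atTop_nhds_zero).const_mul 2
  refine squeeze_zero' (Eventually.of_forall fun u => norm_nonneg _) ?_ h1
  filter_upwards [eventually_ge_atTop (3 : ℝ)] with u hu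
  have h2 := norm_Ds_le pg_cL cL_nonneg (s := (u : ℂ)) (by simp; linarith)
  rw [Complex.ofReal_re] at h2
  exact h2.trans (Dr_le_two_exp cL_nonneg cL_le hu)

/-- The generating function identity. -/
theorem U_eq (x : ℂ) {s : ℂ} (hs : 0 < s.re) : U x s = cexp (x * L s) := by
  have h1 : Tendsto (fun u : ℝ => U x (u : ℂ) * cexp (-x * L (u : ℂ))) atTop
      (𝓝 (1 * cexp (-x * 0))) :=
    (U_tendsto x).mul ((Complex.continuous_exp.tendsto _).comp (L_tendsto.const_mul (-x)))
  have h2 : Tendsto (fun u : ℝ => U x (u : ℂ) * cexp (-x * L (u : ℂ))) atTop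
      (𝓝 (U x s * cexp (-x * L s))) := by
    refine tendsto_const_nhds.congr' ?_
    filter_upwards [eventually_gt_atTop (0 : ℝ)] with u hu
    exact U_const x hs (by simpa using hu)
  have h3 := tendsto_nhds_unique h2 h1
  rw [mul_zero, Complex.exp_zero, mul_one] at h3
  have h4 : cexp (-x * L s) * cexp (x * L s) = 1 := by
    rw [← Complex.exp_add]; simp
  calc U x s = U x s * (cexp (-x * L s) * cexp (x * L s)) := by rw [h4, mul_one]
    _ = (U x s * cexp (-x * L s)) * cexp (x * L s) := by ring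
    _ = cexp (x * L s) := by rw [h3, one_mul]

end Pool.Agent.Lib.MP_d73f62_nt
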