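import Mathlib
import Pool.Agent.Lib.MP_d73f62_nt.GenFun
import Pool.Agent.Lib.MP_d73f62_nt.GP

set_option autoImplicit false

open Complex Set Filter Topology
open scoped Real

namespace Pool.Agent.Lib.MP_d73f62_nt

theorem integral_exp_int {k : ℤ} (hk : k ≠ 0) :
    ∫ θ in (-π)..π, cexp ((k : ℂ) * I * θ) = 0 := by
  have hc : (k : ℂ) * I ≠ 0 := mul_ne_zero (by exact_mod_cast hk) I_ne_zero
  rw [integral_exp_mul_complex hc]
  have h1 : cexp ((k : ℂ) * I * (π : ℝ)) = cexp ((k : ℂ) * I * ((-π : ℝ) : ℂ)) := by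
    have h2 : (k : ℂ) * I * (π : ℝ) = (k : ℂ) * I * ((-π : ℝ) : ℂ) + (k : ℂ) * (2 * π * I) := by
      push_cast; ring
    rw [h2, Complex.exp_add, Complex.exp_int_mul_two_pi_mul_I, mul_one]
  rw [h1, sub_self, zero_div]

theorem term_integral (x : ℂ) (σ : ℝ) (n m : ℕ) :
    ∫ θ in (-π)..π, (P m x * cexp (-(m : ℂ) * ((σ : ℂ) + (θ : ℂ) * I)))
      * cexp ((n : ℂ) * ((σ : ℂ) + (θ : ℂ) * I)) = if m = n then 2 * π * P n x else 0 := by
  have h1 : ∀ θ : ℝ, (P m x * cexp (-(m : ℂ) * ((σ : ℂ) + (θ : ℂ) * I)))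
      * cexp ((n : ℂ) * ((σ : ℂ) + (θ : ℂ) * I))
      = (P m x * cexp (((n : ℂ) - m) * σ)) * cexp ((((n : ℤ) - (m : ℤ) : ℤ) : ℂ) * I * θ) := by
    intro θ
    rw [mul_assoc, mul_assoc, ← Complex.exp_add, ← Complex.exp_add]
    congr 2
    push_cast
    ring
  simp only [h1]
  rw [intervalIntegral.integral_const_mul]
  split_ifs with h
  · subst h
    simp
    ring
  · rw [integral_exp_int (by omega), mul_zero]

theorem coef_integral (x : ℂ) {σ : ℝ} (hσ : 0 < σ) (n : ℕ) :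
    ∫ θ in (-π)..π, cexp (x * L ((σ : ℂ) + (θ : ℂ) * I)) * cexp ((n : ℂ) * ((σ : ℂ) + (θ : ℂ) * I))
      = 2 * π * P n x := by
  have hre : ∀ θ : ℝ, 0 < ((σ : ℂ) + (θ : ℂ) * I).re := fun θ => by rw [re_pt']; exact hσ
  have h1 := intervalIntegral.hasSum_integral_of_dominated_convergence
    (μ := MeasureTheory.volume) (a := -π) (b := π)
    (F := fun (m : ℕ) (θ : ℝ) => (P m x * cexp (-(m : ℂ) * ((σ : ℂ) + (θ : ℂ) * I)))
      * cexp ((n : ℂ) * ((σ : ℂ) + (θ : ℂ) * I)))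
    (f := fun θ : ℝ => cexp (x * L ((σ : ℂ) + (θ : ℂ) * I))
      * cexp ((n : ℂ) * ((σ : ℂ) + (θ : ℂ) * I)))
    (fun (m : ℕ) (_ : ℝ) => (‖P m x‖ * Real.exp (-(m : ℝ) * σ)) * Real.exp ((n : ℝ) * σ))
    ?_ ?_ ?_ ?_ ?_
  · simp only [term_integral] at h1
    have h2 := hasSum_ite_eq n (2 * π * P n x)
    exact h1.unique h2
  · intro m
    apply Continuous.aestronglyMeasurable
    fun_prop
  · intro m
    refine Eventually.of_forall fun θ _ => ?_
    rw [norm_mul, norm_U_term, re_pt', Complex.norm_exp]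
    have : ((n : ℂ) * ((σ : ℂ) + (θ : ℂ) * I)).re = (n : ℝ) * σ := by
      have h3 : (n : ℂ) = ((n : ℝ) : ℂ) := by push_cast; rfl
      rw [h3, Complex.re_ofReal_mul, re_pt']
    rw [this]
  · refine Eventually.of_forall fun θ _ => ?_
    have h2 := (P_summable x hσ 0).mul_right (Real.exp ((n : ℝ) * σ))
    refine h2.congr ?_
    intro m
    rw [pow_zero, one_mul]
  · exact intervalIntegrable_const
  · refine Eventually.of_forall fun θ _ => ?_
    rw [← U_eq x (hre θ)]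
    exact (U_summable_norm x (hre θ)).of_norm.hasSum.mul_right _

end Pool.Agent.Lib.MP_d73f62_nt
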