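import Mathlib
import Pool.Agent.Lib.MP_d73f62_nt.Hbounds

set_option autoImplicit false

open Complex Set Filter Topology MeasureTheory
open scoped Real

namespace Pool.Agent.Lib.MP_d73f62_nt

/-- Lipschitz bound of the exponential on a left half-plane. -/
theorem exp_sub_le {z w : ℂ} {m : ℝ} (hz : z.re ≤ m) (hw : w.re ≤ m) :
    ‖cexp z - cexp w‖ ≤ Real.exp m * ‖z - w‖ := by
  have hconv : Convex ℝ {ζ : ℂ | ζ.re ≤ m} := convex_halfSpace_re_le m
  refine hconv.norm_image_sub_le_of_norm_hasDerivWithin_le (f := cexp) (f' := cexp)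
    (fun ζ _ => (Complex.hasDerivAt_exp ζ).hasDerivWithinAt) ?_ hw hz
  intro ζ hζ
  rw [Complex.norm_exp]
  exact Real.exp_le_exp.mpr hζ

theorem exp_path_deriv (ε : ℂ) (y : ℝ) : HasDerivAt (fun y : ℝ => cexp (ε * y)) (ε * cexp (ε * y)) y := by
  have h1 : HasDerivAt (fun y : ℝ => ε * (y : ℂ)) ε y := by
    have := (Complex.ofRealCLM.hasDerivAt (x := y)).const_mul ε
    exact this.congr_deriv (by simp)
  exact (h1.cexp).congr_deriv (by ring)

theorem exp_taylor0 {ε : ℂ} (hε : ‖ε‖ = 1) (hre : ε.re = 0) {y : ℝ} (hy : 0 ≤ y) :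
    ‖cexp (ε * y) - 1‖ ≤ y := by
  have h := image_norm_le_of_norm_deriv_right_le_deriv_boundary
    (f := fun y : ℝ => cexp (ε * y) - 1) (f' := fun y : ℝ => ε * cexp (ε * y)) (a := 0) (b := y)
    (B := fun y => y) (B' := fun _ => 1) ?_ ?_ ?_ ?_ ?_ (right_mem_Icc.mpr hy)
  · exact h
  · exact fun x _ => ((exp_path_deriv ε x).sub_const 1).continuousAt.continuousWithinAt
  · exact fun x _ => ((exp_path_deriv ε x).sub_const 1).hasDerivWithinAt
  · simp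
  · exact fun x => hasDerivAt_id x
  · intro x _
    rw [norm_mul, hε, Complex.norm_exp]
    have : (ε * (x : ℂ)).re = 0 := by
      rw [mul_comm, Complex.re_ofReal_mul, hre, mul_zero]
    rw [this]; simp

theorem exp_taylor1 {ε : ℂ} (hε : ‖ε‖ = 1) (hre : ε.re = 0) {y : ℝ} (hy : 0 ≤ y) :
    ‖cexp (ε * y) - 1 - ε * y‖ ≤ y ^ 2 / 2 := by
  have hd : ∀ x : ℝ, HasDerivAt (fun y : ℝ => cexp (ε * y) - 1 - ε * y) (ε * (cexp (ε * x) - 1)) x := by
    intro x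
    have h1 : HasDerivAt (fun y : ℝ => ε * (y : ℂ)) ε x := by
      have := (Complex.ofRealCLM.hasDerivAt (x := x)).const_mul ε
      exact this.congr_deriv (by simp)
    exact (((exp_path_deriv ε x).sub_const 1).sub h1).congr_deriv (by ring)
  have h := image_norm_le_of_norm_deriv_right_le_deriv_boundary
    (f := fun y : ℝ => cexp (ε * y) - 1 - ε * y) (f' := fun x : ℝ => ε * (cexp (ε * x) - 1))
    (a := 0) (b := y)
    (B := fun y => y ^ 2 / 2) (B' := fun x => x) ?_ ?_ ?_ ?_ ?_ (right_mem_Icc.mpr hy)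
  · exact h
  · exact fun x _ => (hd x).continuousAt.continuousWithinAt
  · exact fun x _ => (hd x).hasDerivWithinAt
  · simp
  · intro x
    have := (hasDerivAt_pow 2 x).div_const 2
    exact this.congr_deriv (by norm_num)
  · intro x hx
    rw [norm_mul, hε, one_mul]
    exact exp_taylor0 hε hre hx.1

theorem exp_taylor2 {ε : ℂ} (hε : ‖ε‖ = 1) (hre : ε.re = 0) {y : ℝ} (hy : 0 ≤ y) :
    ‖cexp (ε * y) - 1 - ε * y - (ε * y) ^ 2 / 2‖ ≤ y ^ 3 / 6 := by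
  have hd : ∀ x : ℝ, HasDerivAt (fun y : ℝ => cexp (ε * y) - 1 - ε * y - (ε * y) ^ 2 / 2)
      (ε * (cexp (ε * x) - 1 - ε * x)) x := by
    intro x
    have h1 : HasDerivAt (fun y : ℝ => ε * (y : ℂ)) ε x := by
      have := (Complex.ofRealCLM.hasDerivAt (x := x)).const_mul ε
      exact this.congr_deriv (by simp)
    have h2 := (h1.pow 2).div_const 2
    exact ((((exp_path_deriv ε x).sub_const 1).sub h1).sub h2).congr_deriv (by
      norm_num
      ring)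
  have h := image_norm_le_of_norm_deriv_right_le_deriv_boundary
    (f := fun y : ℝ => cexp (ε * y) - 1 - ε * y - (ε * y) ^ 2 / 2)
    (f' := fun x : ℝ => ε * (cexp (ε * x) - 1 - ε * x))
    (a := 0) (b := y)
    (B := fun y => y ^ 3 / 6) (B' := fun x => x ^ 2 / 2) ?_ ?_ ?_ ?_ ?_ (right_mem_Icc.mpr hy)
  · exact h
  · exact fun x _ => (hd x).continuousAt.continuousWithinAt
  · exact fun x _ => (hd x).hasDerivWithinAt
  · simp
  · intro x
    have := (hasDerivAt_pow 3 x).div_const 6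
    exact this.congr_deriv (by norm_num; ring)
  · intro x hx
    rw [norm_mul, hε, one_mul]
    exact exp_taylor1 hε hre hx.1

/-- Second order expansion of `e^{-iy}`. -/
theorem exp_taylor (y : ℝ) : ‖cexp (-(y : ℂ) * I) - 1 + y * I + y ^ 2 / 2‖ ≤ |y| ^ 3 / 6 := by
  rcases le_total 0 y with hy | hy
  · have h := exp_taylor2 (ε := -I) (by simp) (by simp) hy
    rw [abs_of_nonneg hy]
    refine le_trans (le_of_eq ?_) h
    congr 1
    have h1 : -(y : ℂ) * I = -I * y := by ring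
    have h2 : (-I * (y : ℂ)) ^ 2 = -(y : ℂ) ^ 2 := by
      rw [mul_pow, neg_sq, I_sq]; ring
    rw [h1, h2]
    ring
  · have h := exp_taylor2 (ε := I) (by simp) (by simp) (y := -y) (by linarith)
    rw [abs_of_nonpos hy]
    refine le_trans (le_of_eq ?_) h
    congr 1
    have h1 : -(y : ℂ) * I = I * ((-y : ℝ) : ℂ) := by push_cast; ring
    have h2 : (I * ((-y : ℝ) : ℂ)) ^ 2 = -(y : ℂ) ^ 2 := by
      push_cast
      rw [mul_pow, I_sq]; ring
    rw [h1, h2]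
    push_cast
    ring

/-- Second order expansion of `L` along a vertical line. -/
theorem L_taylor {s : ℂ} (hs : 0 < s.re) (φ : ℝ) :
    ‖L (s + φ * I) - L s + φ * I * G s + φ ^ 2 / 2 * G1 s‖ ≤ Dr cG2 s.re * (|φ| ^ 3 / 6) := by
  have hs' : 0 < (s + φ * I).re := by simpa using hs
  have h1 := (pg_cL.summable_c hs').hasSum
  have h2 := (pg_cL.summable_c hs).hasSum
  have h3 := ((pg_cG.summable_c hs).hasSum).mul_left ((φ : ℂ) * I)
  have h4 := ((pg_cG1.summable_c hs).hasSum).mul_left ((φ : ℂ) ^ 2 / 2)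
  have h5 := ((h1.sub h2).add h3).add h4
  have h6 : L (s + φ * I) - L s + φ * I * G s + φ ^ 2 / 2 * G1 s = ∑' k : ℕ,
      ((cL k : ℂ) * cexp (-((k : ℂ) + 1) * (s + φ * I)) - (cL k : ℂ) * cexp (-((k : ℂ) + 1) * s)
        + φ * I * ((cG k : ℂ) * cexp (-((k : ℂ) + 1) * s))
        + φ ^ 2 / 2 * ((cG1 k : ℂ) * cexp (-((k : ℂ) + 1) * s))) := h5.tsum_eq.symm
  rw [h6]
  have hb : ∀ k : ℕ, ‖((cL k : ℂ) * cexp (-((k : ℂ) + 1) * (s + φ * I))
        - (cL k : ℂ) * cexp (-((k : ℂ) + 1) * s)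
        + φ * I * ((cG k : ℂ) * cexp (-((k : ℂ) + 1) * s))
        + φ ^ 2 / 2 * ((cG1 k : ℂ) * cexp (-((k : ℂ) + 1) * s)))‖
      ≤ (cG2 k * Real.exp (-((k : ℝ) + 1) * s.re)) * (|φ| ^ 3 / 6) := by
    intro k
    have hk : (0 : ℝ) < (k : ℝ) + 1 := by positivity
    have e1 : (cG k : ℂ) = ((k : ℂ) + 1) * (cL k : ℂ) := by
      unfold cG cL
      push_cast
      have : ((k : ℂ) + 1) ≠ 0 := Nat.cast_add_one_ne_zero k
      field_simp
    have e2 : (cG1 k : ℂ) = ((k : ℂ) + 1) ^ 2 * (cL k : ℂ) := by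
      unfold cG1 cL
      push_cast
      have : ((k : ℂ) + 1) ≠ 0 := Nat.cast_add_one_ne_zero k
      field_simp
    have e3 : cG2 k = ((k : ℝ) + 1) ^ 3 * cL k := by
      unfold cG2 cG1 cL
      field_simp
    have e4 : cexp (-((k : ℂ) + 1) * (s + φ * I))
        = cexp (-((k : ℂ) + 1) * s) * cexp (-((((k : ℝ) + 1) * φ : ℝ) : ℂ) * I) := by
      rw [← Complex.exp_add]
      congr 1
      push_cast
      ring
    have e5 : ((cL k : ℂ) * cexp (-((k : ℂ) + 1) * (s + φ * I))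
        - (cL k : ℂ) * cexp (-((k : ℂ) + 1) * s)
        + φ * I * ((cG k : ℂ) * cexp (-((k : ℂ) + 1) * s))
        + φ ^ 2 / 2 * ((cG1 k : ℂ) * cexp (-((k : ℂ) + 1) * s)))
        = ((cL k : ℂ) * cexp (-((k : ℂ) + 1) * s)) *
          (cexp (-((((k : ℝ) + 1) * φ : ℝ) : ℂ) * I) - 1 + ((((k : ℝ) + 1) * φ : ℝ) : ℂ) * I
            + ((((k : ℝ) + 1) * φ : ℝ) : ℂ) ^ 2 / 2) := by
      rw [e4, e1, e2]
      push_cast
      ring
    rw [e5, norm_mul, norm_term, abs_of_nonneg (cL_nonneg k), e3]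
    have h7 := exp_taylor (((k : ℝ) + 1) * φ)
    have h8 : |((k : ℝ) + 1) * φ| ^ 3 = ((k : ℝ) + 1) ^ 3 * |φ| ^ 3 := by
      rw [abs_mul, abs_of_pos hk, mul_pow]
    rw [h8] at h7
    have h9 : 0 ≤ cL k * Real.exp (-((k : ℝ) + 1) * s.re) :=
      mul_nonneg (cL_nonneg k) (Real.exp_pos _).le
    calc cL k * Real.exp (-((k : ℝ) + 1) * s.re) * ‖cexp (-((((k : ℝ) + 1) * φ : ℝ) : ℂ) * I) - 1
            + ((((k : ℝ) + 1) * φ : ℝ) : ℂ) * I + ((((k : ℝ) + 1) * φ : ℝ) : ℂ) ^ 2 / 2‖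
        ≤ cL k * Real.exp (-((k : ℝ) + 1) * s.re) * (((k : ℝ) + 1) ^ 3 * |φ| ^ 3 / 6) := by gcongr
      _ = _ := by ring
  have hs2 : Summable fun k : ℕ => (cG2 k * Real.exp (-((k : ℝ) + 1) * s.re)) * (|φ| ^ 3 / 6) :=
    (pg_cG2.summable hs).mul_right _
  refine (tsum_of_norm_bounded hs2.hasSum hb).trans (le_of_eq ?_)
  rw [tsum_mul_right]
  rfl

theorem cubic_half {μ δ : ℝ} (hμ : 0 < μ) :
    ∫ φ in (0 : ℝ)..δ, φ ^ 3 * Real.exp (-μ * φ ^ 2) ≤ 1 / (2 * μ ^ 2) := by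
  have hd : ∀ φ : ℝ, HasDerivAt (fun φ : ℝ => -(φ ^ 2 / (2 * μ) + 1 / (2 * μ ^ 2))
      * Real.exp (-μ * φ ^ 2)) (φ ^ 3 * Real.exp (-μ * φ ^ 2)) φ := by
    intro φ
    have h1 : HasDerivAt (fun φ : ℝ => -μ * φ ^ 2) (-μ * (2 * φ)) φ := by
      have := (hasDerivAt_pow 2 φ).const_mul (-μ)
      exact this.congr_deriv (by norm_num)
    have h2 : HasDerivAt (fun φ : ℝ => -(φ ^ 2 / (2 * μ) + 1 / (2 * μ ^ 2))) (-(2 * φ / (2 * μ))) φ := by
      have := (((hasDerivAt_pow 2 φ).div_const (2 * μ)).add_const (1 / (2 * μ ^ 2))).neg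
      exact this.congr_deriv (by norm_num)
    refine (h2.mul h1.exp).congr_deriv ?_
    field_simp
    ring
  rw [intervalIntegral.integral_eq_sub_of_hasDerivAt (fun φ _ => hd φ)
    (by apply Continuous.intervalIntegrable; fun_prop)]
  have h1 : 0 ≤ (δ ^ 2 / (2 * μ) + 1 / (2 * μ ^ 2)) * Real.exp (-μ * δ ^ 2) := by positivity
  norm_num
  norm_num at h1
  linarith

theorem cubic_full {μ δ : ℝ} (hμ : 0 < μ) (hδ : 0 ≤ δ) :
    ∫ φ in (-δ)..δ, |φ| ^ 3 * Real.exp (-μ * φ ^ 2) ≤ 1 / μ ^ 2 := by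
  have hc : Continuous fun φ : ℝ => |φ| ^ 3 * Real.exp (-μ * φ ^ 2) := by fun_prop
  rw [← intervalIntegral.integral_add_adjacent_intervals (hc.intervalIntegrable _ 0)
    (hc.intervalIntegrable 0 _)]
  have h1 : ∫ φ in (0 : ℝ)..δ, |φ| ^ 3 * Real.exp (-μ * φ ^ 2)
      = ∫ φ in (0 : ℝ)..δ, φ ^ 3 * Real.exp (-μ * φ ^ 2) := by
    apply intervalIntegral.integral_congr
    intro φ hφ
    rw [uIcc_of_le hδ] at hφ
    show |φ| ^ 3 * Real.exp (-μ * φ ^ 2) = φ ^ 3 * Real.exp (-μ * φ ^ 2)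
    rw [abs_of_nonneg hφ.1]
  have h2 : ∫ φ in (-δ)..0, |φ| ^ 3 * Real.exp (-μ * φ ^ 2)
      = ∫ φ in (0 : ℝ)..δ, |φ| ^ 3 * Real.exp (-μ * φ ^ 2) := by
    have h3 := intervalIntegral.integral_comp_neg (a := 0) (b := δ)
      (fun φ : ℝ => |φ| ^ 3 * Real.exp (-μ * φ ^ 2))
    rw [neg_zero] at h3
    rw [← h3]
    apply intervalIntegral.integral_congr
    intro φ _
    show |(-φ)| ^ 3 * Real.exp (-μ * (-φ) ^ 2) = |φ| ^ 3 * Real.exp (-μ * φ ^ 2)
    rw [abs_neg, neg_sq]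
  rw [h2, h1]
  have h3 := cubic_half (δ := δ) hμ
  have h4 : 1 / μ ^ 2 = 1 / (2 * μ ^ 2) + 1 / (2 * μ ^ 2) := by field_simp; norm_num
  linarith

/-- Tail of the Gaussian integral. -/
theorem gauss_tail {b : ℂ} {μ δ : ℝ} (hμ : 0 < μ) (hb : μ ≤ b.re) (hδ : 0 ≤ δ) :
    ‖(∫ φ : ℝ, cexp (-b * (φ : ℂ) ^ 2)) - ∫ φ in (-δ)..δ, cexp (-b * (φ : ℂ) ^ 2)‖
      ≤ Real.exp (-(μ * δ ^ 2 / 2)) * √(2 * π / μ) := by
  have hint : Integrable (fun φ : ℝ => cexp (-b * (φ : ℂ) ^ 2)) :=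
    integrable_cexp_neg_mul_sq (by linarith)
  have h1 := integral_add_compl (measurableSet_Ioc (a := -δ) (b := δ)) hint
  rw [intervalIntegral.integral_of_le (by linarith), ← h1, add_sub_cancel_left]
  have hint2 : Integrable (fun φ : ℝ => Real.exp (-(μ / 2) * φ ^ 2)) :=
    integrable_exp_neg_mul_sq (by linarith)
  have h2 : ‖∫ φ in (Ioc (-δ) δ)ᶜ, cexp (-b * (φ : ℂ) ^ 2)‖
      ≤ ∫ φ in (Ioc (-δ) δ)ᶜ, Real.exp (-(μ * δ ^ 2 / 2)) * Real.exp (-(μ / 2) * φ ^ 2) := by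
    apply norm_integral_le_of_norm_le (hint2.const_mul _).integrableOn
    rw [ae_restrict_iff' measurableSet_Ioc.compl]
    refine Eventually.of_forall fun φ hφ => ?_
    have h3 : δ ^ 2 ≤ φ ^ 2 := by
      rw [mem_compl_iff, mem_Ioc, not_and_or, not_lt, not_le] at hφ
      rcases hφ with h | h
      · nlinarith
      · nlinarith
    rw [Complex.norm_exp, ← Real.exp_add]
    apply Real.exp_le_exp.mpr
    have h4 : (-b * (φ : ℂ) ^ 2).re = -(b.re * φ ^ 2) := by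
      have : (-b * (φ : ℂ) ^ 2) = ((φ ^ 2 : ℝ) : ℂ) * (-b) := by push_cast; ring
      rw [this, Complex.re_ofReal_mul, Complex.neg_re]
      ring
    rw [h4]
    have h5 : μ * φ ^ 2 ≤ b.re * φ ^ 2 := by gcongr
    nlinarith
  refine h2.trans ?_
  have h3 : ∫ φ in (Ioc (-δ) δ)ᶜ, Real.exp (-(μ * δ ^ 2 / 2)) * Real.exp (-(μ / 2) * φ ^ 2)
      ≤ ∫ φ : ℝ, Real.exp (-(μ * δ ^ 2 / 2)) * Real.exp (-(μ / 2) * φ ^ 2) :=
    setIntegral_le_integral (hint2.const_mul _) (Eventually.of_forall fun φ => by positivity)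
  refine h3.trans (le_of_eq ?_)
  rw [integral_const_mul, integral_gaussian]
  congr 2
  field_simp

/-- Modulus of the Gaussian integral. -/
theorem gauss_norm {b : ℂ} (hb : 0 < b.re) :
    ‖∫ φ : ℝ, cexp (-b * (φ : ℂ) ^ 2)‖ = √(π / ‖b‖) := by
  rw [integral_gaussian_complex hb]
  have h1 : ((1 : ℂ) / 2) = ((1 / 2 : ℝ) : ℂ) := by push_cast; rfl
  rw [h1, Complex.norm_cpow_real, norm_div, Complex.norm_real, Real.norm_of_nonneg Real.pi_pos.le,
    Real.sqrt_eq_rpow]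

end Pool.Agent.Lib.MP_d73f62_nt
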