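import Mathlib
import Pool.Agent.Lib.MP_d73f62_nt.GP

set_option autoImplicit false

open Complex Set
open scoped Real

namespace Pool.Agent.Lib.MP_d73f62_nt

theorem exp_neg_half (k : ℕ) : Real.exp (-((k : ℝ) / 2)) ≤ (10000 / 16487) ^ k := by
  have h1 : (1.6487 : ℝ) ≤ Real.exp (1 / 2) := by
    have h2 : Real.exp (1 / 2) ^ 2 = Real.exp 1 := by rw [← Real.exp_nat_mul]; norm_num
    have h3 := Real.exp_one_gt_d9
    by_contra hlt
    push Not at hlt
    have h4 : Real.exp (1 / 2) ^ 2 < 1.6487 ^ 2 := by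
      have := Real.exp_pos (1 / 2)
      gcongr
    rw [h2] at h4
    norm_num at h4
    linarith
  have h2 : Real.exp (-((k : ℝ) / 2)) = (Real.exp (1 / 2))⁻¹ ^ k := by
    rw [← Real.exp_neg, ← Real.exp_nat_mul]
    congr 1
    ring
  rw [h2]
  have h3 : (Real.exp (1 / 2))⁻¹ ≤ 10000 / 16487 := by
    rw [inv_le_comm₀ (Real.exp_pos _) (by norm_num)]
    norm_num at h1 ⊢
    linarith
  gcongr

theorem exp_tenth (k : ℕ) : Real.exp ((k : ℝ) / 10) ≤ 1.105171 ^ k := by
  have h1 : Real.exp (1 / 10) ≤ 1.105171 := by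
    have h2 := Real.exp_bound' (x := 1 / 10) (by norm_num) (by norm_num) (n := 6) (by norm_num)
    refine h2.trans ?_
    simp only [Finset.sum_range_succ, Finset.sum_range_zero, Nat.factorial]
    norm_num
  have h2 : Real.exp ((k : ℝ) / 10) = (Real.exp (1 / 10)) ^ k := by
    rw [← Real.exp_nat_mul]
    congr 1
    ring
  rw [h2]
  have := Real.exp_pos (1 / 10)
  gcongr

theorem sinh_bound {b U S : ℝ} (hU : Real.exp b ≤ U) (hS : (U - 1 / U) / 2 ≤ S * b) :
    Real.sinh b ≤ S * b := by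
  refine le_trans ?_ hS
  rw [Real.sinh_eq, Real.exp_neg]
  have h0 := Real.exp_pos b
  have h1 : 1 / U ≤ (Real.exp b)⁻¹ := by
    rw [← one_div]
    exact one_div_le_one_div_of_le h0 hU
  linarith

/-- The profile on one box of abscissas. -/
theorem gp_interval {σ a b vt X vb K S p α x0 E : ℝ} (hσ : 0 < σ) (ha : a ≤ σ) (hb : σ ≤ b)
    (ha0 : 0 ≤ a) (hb33 : b ≤ 3.3) (hK0 : 0 ≤ K) (hK5 : K ≤ 1 / 5) (hX : 1 ≤ X)
    (hK : K * (1 + X ^ 2) ≤ (X - 1) ^ 2) (hS : Real.sinh b ≤ S * b)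
    (hat : 0.24 < vt) (htb : vt < vb) (hvt1 : vt ≤ 1) (hvb3 : vb ≤ 3 / 2)
    (hpi : vb * b + b / 8 ≤ 3.1415)
    (hc0 : 0 ≤ 6 * vb - X + 5 * X * vb ^ 2)
    (hcond : 0 ≤ 15 * (vb - X) + (a / 2) ^ 2 * (6 * vb - X + 5 * X * vb ^ 2)
      + X * vb ^ 2 * (a / 2) ^ 4 / 3)
    (hp : 9.8697 / 12 * ((1 - vt) ^ 2 / (1 + vt ^ 2)) ≤ p)
    (hα : (3.141593 / 4 - (1 - vt) / (1 + vt) + ((1 - vt) / (1 + vt)) ^ 3 / 3) / 2
      - 0.6931 / 2 + 0.0001 ≤ α)
    (hea : p + 1 / 5000 + α * a + (1 - vt) / 24 * a ^ 2 ≤ K / (2 * S))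
    (heb : p + 1 / 5000 + α * b + (1 - vt) / 24 * b ^ 2 ≤ K / (2 * S))
    (hx10 : 10 * (b * (1 + vt ^ 2)) ≤ 39.478)
    (hx0 : 3 ≤ x0) (hxb : x0 * (b * (1 + vb ^ 2)) ≤ 39.478)
    (hE : (2 + x0) * Real.exp (-x0) ≤ E)
    (hca : 8 * 9.8697 * (1 + vb ^ 2) ^ 2 * E + 2 * (1 / 200) * (1 + vb ^ 2) ^ 3
      ≤ 0.24 * ((9.8695 - b) - (9.8697 / 3 + b) * 0.24 ^ 2))
    (hcb : 8 * 9.8697 * (1 + vb ^ 2) ^ 2 * E + 2 * (1 / 200) * (1 + vb ^ 2) ^ 3
      ≤ vb * ((9.8695 - b) - (9.8697 / 3 + b) * vb ^ 2)) : GP (1 / 200) σ := by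
  have hb0 : 0 < b := hσ.trans_le hb
  have hpid := Real.pi_gt_d6
  have hpid2 := Real.pi_lt_d6
  have hvt0 : 0 < vt := by linarith
  have hvb0 : 0 < vb := by linarith
  -- value of the transformed series
  have hLr : Lr (4 * π ^ 2 / (σ * (1 + vt ^ 2))) ≤ 0.0001 := by
    have h1 : (10 : ℝ) ≤ 4 * π ^ 2 / (σ * (1 + vt ^ 2)) := by
      rw [le_div_iff₀ (by positivity)]
      have h2 : 10 * (σ * (1 + vt ^ 2)) ≤ 10 * (b * (1 + vt ^ 2)) := by gcongr
      have := pi_sq_gt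
      linarith
    have h2 := Lr_anti (by norm_num) h1
    have h3 : Lr 10 ≤ 2 * Real.exp (-10) := Dr_le_two_exp cL_nonneg cL_le (by norm_num)
    have h4 := exp_neg_half 20
    have h5 : ((20 : ℕ) : ℝ) / 2 = 10 := by norm_num
    rw [h5] at h4
    have h6 : ((10000 : ℝ) / 16487) ^ 20 ≤ 0.00005 := by norm_num
    linarith
  have hgap : Lr σ - Lr (2 * σ) - K / (2 * Real.sinh σ) ≤ h σ (vt * σ) - (1 / 5000) / σ := by
    refine gap_ineq hσ ha hb hK0 hS hvt1 ?_ ?_ hea heb (c := 1 / 5000)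
    · refine le_trans ?_ hp
      have := pi_sq_lt
      gcongr
    · refine le_trans ?_ hα
      have h1 := arctan_le (v := vt) (x := (1 - vt) / (1 + vt))
        (div_nonneg (by linarith) (by linarith)) (by field_simp; ring)
      have h2 := Real.log_two_gt_d9
      linarith
  have hsσ : 0 < Real.sinh σ := Real.sinh_pos_iff.mpr hσ
  refine gp_of (va := 0.24) (vt := vt) (vb := vb) (c := 1 / 5000) hσ (by norm_num) (by norm_num)
    (by norm_num) hat htb hvb3 ?_ ?_ ?_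
  · have : vb * σ + σ / 8 ≤ vb * b + b / 8 := by gcongr
    linarith
  · intro θ hθ1 hθ2 hθ3
    refine le_trans ?_ hgap
    rcases hθ3 with h1 | h1
    · have h2 := h_le_lower hσ (by linarith) h1 hθ1
      have h3 : K / (2 * Real.sinh σ) ≤ (1 / 5) / (2 * Real.sinh σ) := by gcongr
      linarith
    · refine h_le_upper hσ h1 hθ2 hvb0 hX hK ?_
      have h2 : (a / 2) ^ 2 ≤ (σ / 2) ^ 2 := by gcongr
      have h3 : (a / 2) ^ 4 ≤ (σ / 2) ^ 4 := by gcongr
      have h4 : (a / 2) ^ 2 * (6 * vb - X + 5 * X * vb ^ 2)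
          ≤ (σ / 2) ^ 2 * (6 * vb - X + 5 * X * vb ^ 2) := by gcongr
      have h5 : X * vb ^ 2 * (a / 2) ^ 4 / 3 ≤ X * vb ^ 2 * (σ / 2) ^ 4 / 3 := by gcongr
      linarith
  · intro v hv1 hv2
    exact conc_box hσ hb (by norm_num) hv1 hv2 hx0 (by norm_num) hxb hE hca hcb

theorem gp1 {σ : ℝ} (hσ : 0 < σ) (hb : σ ≤ 0.6) : GP (1 / 200) σ := by
  refine gp_interval (a := 0) (b := 0.6) (vt := 1) (X := 1.5) (vb := 1.5) (K := 1 / 13)
    (S := 1.062) (p := 0) (α := 0.0463) (x0 := 20) (E := 0.0000001) hσ hσ.le hb (by norm_num)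
    (by norm_num) (by norm_num) (by norm_num) (by norm_num) (by norm_num) ?_ (by norm_num)
    (by norm_num)
    (by norm_num) (by norm_num) (by norm_num) (by norm_num) (by norm_num) (by norm_num)
    (by norm_num) (by norm_num) (by norm_num) (by norm_num) (by norm_num) (by norm_num) ?_
    (by norm_num) (by norm_num)
  · have h1 := exp_tenth 6
    have h2 : ((6 : ℕ) : ℝ) / 10 = 0.6 := by norm_num
    rw [h2] at h1
    exact sinh_bound h1 (by norm_num)
  · have h1 := exp_neg_half 40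
    have h2 : ((40 : ℕ) : ℝ) / 2 = 20 := by norm_num
    rw [h2] at h1
    have h3 : (2 + (20 : ℝ)) * (10000 / 16487) ^ 40 ≤ 0.0000001 := by norm_num
    linarith

theorem gp2 {σ : ℝ} (ha : 0.6 ≤ σ) (hb : σ ≤ 1) : GP (1 / 200) σ := by
  refine gp_interval (a := 0.6) (b := 1) (vt := 0.78) (X := 1.5) (vb := 1.38) (K := 1 / 13)
    (S := 1.1757) (p := 0.0248) (α := -0.0152) (x0 := 13.5) (E := 0.0000213) (by linarith) ha hb
    (by norm_num)
    (by norm_num) (by norm_num) (by norm_num) (by norm_num) (by norm_num) ?_ (by norm_num)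
    (by norm_num)
    (by norm_num) (by norm_num) (by norm_num) (by norm_num) (by norm_num) (by norm_num)
    (by norm_num) (by norm_num) (by norm_num) (by norm_num) (by norm_num) (by norm_num) ?_
    (by norm_num) (by norm_num)
  · have h1 := exp_tenth 10
    have h2 : ((10 : ℕ) : ℝ) / 10 = 1 := by norm_num
    rw [h2] at h1
    exact sinh_bound h1 (by norm_num)
  · have h1 := exp_neg_half 27
    have h2 : ((27 : ℕ) : ℝ) / 2 = 13.5 := by norm_num
    rw [h2] at h1
    have h3 : (2 + (13.5 : ℝ)) * (10000 / 16487) ^ 27 ≤ 0.0000213 := by norm_num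
    linarith

theorem gp3 {σ : ℝ} (ha : 1 ≤ σ) (hb : σ ≤ 1.5) : GP (1 / 200) σ := by
  refine gp_interval (a := 1) (b := 1.5) (vt := 0.74) (X := 1.5) (vb := 1.22) (K := 1 / 13)
    (S := 1.4202) (p := 0.036) (α := -0.0279) (x0 := 10.5) (E := 0.0003443) (by linarith) ha hb
    (by norm_num)
    (by norm_num) (by norm_num) (by norm_num) (by norm_num) (by norm_num) ?_ (by norm_num)
    (by norm_num)
    (by norm_num) (by norm_num) (by norm_num) (by norm_num) (by norm_num) (by norm_num)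
    (by norm_num) (by norm_num) (by norm_num) (by norm_num) (by norm_num) (by norm_num) ?_
    (by norm_num) (by norm_num)
  · have h1 := exp_tenth 15
    have h2 : ((15 : ℕ) : ℝ) / 10 = 1.5 := by norm_num
    rw [h2] at h1
    exact sinh_bound h1 (by norm_num)
  · have h1 := exp_neg_half 21
    have h2 : ((21 : ℕ) : ℝ) / 2 = 10.5 := by norm_num
    rw [h2] at h1
    have h3 : (2 + (10.5 : ℝ)) * (10000 / 16487) ^ 21 ≤ 0.0003443 := by norm_num
    linarith

theorem gp4 {σ : ℝ} (ha : 1.5 ≤ σ) (hb : σ ≤ 2.1) : GP (1 / 200) σ := by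
  refine gp_interval (a := 1.5) (b := 2.1) (vt := 0.68) (X := 1.6) (vb := 1.08) (K := 0.101)
    (S := 1.9165) (p := 0.0576) (α := -0.0478) (x0 := 8.5) (E := 0.0021369) (by linarith) ha hb
    (by norm_num)
    (by norm_num) (by norm_num) (by norm_num) (by norm_num) (by norm_num) ?_ (by norm_num)
    (by norm_num)
    (by norm_num) (by norm_num) (by norm_num) (by norm_num) (by norm_num) (by norm_num)
    (by norm_num) (by norm_num) (by norm_num) (by norm_num) (by norm_num) (by norm_num) ?_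
    (by norm_num) (by norm_num)
  · have h1 := exp_tenth 21
    have h2 : ((21 : ℕ) : ℝ) / 10 = 2.1 := by norm_num
    rw [h2] at h1
    exact sinh_bound h1 (by norm_num)
  · have h1 := exp_neg_half 17
    have h2 : ((17 : ℕ) : ℝ) / 2 = 8.5 := by norm_num
    rw [h2] at h1
    have h3 : (2 + (8.5 : ℝ)) * (10000 / 16487) ^ 17 ≤ 0.0021369 := by norm_num
    linarith

theorem gp5 {σ : ℝ} (ha : 2.1 ≤ σ) (hb : σ ≤ 2.7) : GP (1 / 200) σ := by
  refine gp_interval (a := 2.1) (b := 2.7) (vt := 0.58) (X := 1.7) (vb := 0.9) (K := 0.1259)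
    (S := 2.745) (p := 0.1086) (α := -0.0835) (x0 := 8) (E := 0.0033554) (by linarith) ha hb
    (by norm_num)
    (by norm_num) (by norm_num) (by norm_num) (by norm_num) (by norm_num) ?_ (by norm_num)
    (by norm_num)
    (by norm_num) (by norm_num) (by norm_num) (by norm_num) (by norm_num) (by norm_num)
    (by norm_num) (by norm_num) (by norm_num) (by norm_num) (by norm_num) (by norm_num) ?_
    (by norm_num) (by norm_num)
  · have h1 := exp_tenth 27
    have h2 : ((27 : ℕ) : ℝ) / 10 = 2.7 := by norm_num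
    rw [h2] at h1
    exact sinh_bound h1 (by norm_num)
  · have h1 := exp_neg_half 16
    have h2 : ((16 : ℕ) : ℝ) / 2 = 8 := by norm_num
    rw [h2] at h1
    have h3 : (2 + (8 : ℝ)) * (10000 / 16487) ^ 16 ≤ 0.0033554 := by norm_num
    linarith

theorem gp6 {σ : ℝ} (ha : 2.7 ≤ σ) (hb : σ ≤ 3.2) : GP (1 / 200) σ := by
  refine gp_interval (a := 2.7) (b := 3.2) (vt := 0.44) (X := 2) (vb := 0.8) (K := 0.2)
    (S := 3.83) (p := 0.2161) (α := -0.1383) (x0 := 7.5) (E := 0.0052554) (by linarith) ha hb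
    (by norm_num)
    (by norm_num) (by norm_num) (by norm_num) (by norm_num) (by norm_num) ?_ (by norm_num)
    (by norm_num)
    (by norm_num) (by norm_num) (by norm_num) (by norm_num) (by norm_num) (by norm_num)
    (by norm_num) (by norm_num) (by norm_num) (by norm_num) (by norm_num) (by norm_num) ?_
    (by norm_num) (by norm_num)
  · have h1 := exp_tenth 32
    have h2 : ((32 : ℕ) : ℝ) / 10 = 3.2 := by norm_num
    rw [h2] at h1
    exact sinh_bound h1 (by norm_num)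
  · have h1 := exp_neg_half 15
    have h2 : ((15 : ℕ) : ℝ) / 2 = 7.5 := by norm_num
    rw [h2] at h1
    have h3 : (2 + (7.5 : ℝ)) * (10000 / 16487) ^ 15 ≤ 0.0052554 := by norm_num
    linarith

/-- The good profile property holds for every `σ ∈ (0, 3.2]`. -/
theorem gp_all {σ : ℝ} (hσ : 0 < σ) (hb : σ ≤ 3.2) : GP (1 / 200) σ := by
  rcases le_total σ 0.6 with h1 | h1
  · exact gp1 hσ h1
  rcases le_total σ 1 with h2 | h2
  · exact gp2 h1 h2
  rcases le_total σ 1.5 with h3 | h3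
  · exact gp3 h2 h3
  rcases le_total σ 2.1 with h4 | h4
  · exact gp4 h3 h4
  rcases le_total σ 2.7 with h5 | h5
  · exact gp5 h4 h5
  exact gp6 h5 hb

end Pool.Agent.Lib.MP_d73f62_nt
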