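import Mathlib
import Pool.Agent.Lib.MP_d73f62_nt.Intervals

set_option autoImplicit false

open Complex Set
open scoped Real

namespace Pool.Agent.Lib.MP_d73f62_nt

/-- A map into a compact space with closed graph is continuous. -/
theorem continuous_of_closed_graph {X Y : Type*} [TopologicalSpace X] [TopologicalSpace Y]
    [CompactSpace Y] {f : X → Y} (h : IsClosed {p : X × Y | p.2 = f p.1}) : Continuous f := by
  rw [continuous_iff_isClosed]
  intro C hC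
  have h1 : f ⁻¹' C = Prod.fst '' ({p : X × Y | p.2 = f p.1} ∩ (Prod.snd ⁻¹' C)) := by
    ext x
    constructor
    · intro hx
      exact ⟨(x, f x), ⟨rfl, hx⟩, rfl⟩
    · rintro ⟨⟨x', y⟩, ⟨h1, h2⟩, rfl⟩
      have h1' : y = f x' := h1
      have h2' : y ∈ C := h2
      show f x' ∈ C
      rw [← h1']; exact h2'
  rw [h1]
  exact isClosedMap_fst_of_compactSpace _ (h.inter (hC.preimage continuous_snd))

theorem continuousOn_L : ContinuousOn L {s : ℂ | 0 < s.re} :=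
  fun _ hs => (hasDerivAt_L hs).continuousAt.continuousWithinAt

theorem continuousOn_G : ContinuousOn G {s : ℂ | 0 < s.re} :=
  fun _ hs => (hasDerivAt_G hs).continuousAt.continuousWithinAt

/-- The maximizer is unique in `[-π, π]`. -/
theorem GPat.unique {c1 σ θ0 θ : ℝ} (hσ : 0 < σ) (hc1 : 0 < c1) (hg : GPat c1 σ θ0)
    (hθ1 : -π ≤ θ) (hθ2 : θ ≤ π)
    (hmax : ∀ θ', -π ≤ θ' → θ' ≤ π → h σ θ' ≤ h σ θ) : θ = θ0 := by
  obtain ⟨h1, h2, h3, _, _, h6, h7⟩ := hg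
  have hpi := Real.pi_pos
  have h8 := hmax θ0 (by linarith) (by linarith)
  by_contra hne
  have hne' : 0 < |θ - θ0| := abs_pos.mpr (sub_ne_zero.mpr hne)
  rcases le_total |θ - θ0| (σ / 8) with h9 | h9
  · have h10 := h6 θ h9
    have h11 : 0 < c1 * (θ - θ0) ^ 2 / σ ^ 3 := by
      have : 0 < (θ - θ0) ^ 2 := by
        rw [← sq_abs]; positivity
      positivity
    linarith
  · have h10 := h7 θ hθ1 hθ2 h9
    have h11 : 0 < c1 / 64 / σ := by positivity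
    linarith

theorem GPat.isMax {c1 σ θ0 : ℝ} (hσ : 0 < σ) (hc1 : 0 < c1) (hg : GPat c1 σ θ0) :
    ∀ θ', -π ≤ θ' → θ' ≤ π → h σ θ' ≤ h σ θ0 := by
  obtain ⟨h1, h2, h3, _, _, h6, h7⟩ := hg
  intro θ hθ1 hθ2
  rcases le_total |θ - θ0| (σ / 8) with h9 | h9
  · have h10 := h6 θ h9
    have h11 : 0 ≤ c1 * (θ - θ0) ^ 2 / σ ^ 3 := by positivity
    linarith
  · have h10 := h7 θ hθ1 hθ2 h9
    have h11 : 0 < c1 / 64 / σ := by positivity
    linarith

/-- Bound of `-Im G` from below near the origin. -/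
theorem imG_lower {a v : ℝ} (ha : 0 < a) (ha2 : a ≤ 1 / 100) (hv : 1 / 8 ≤ v) (hv2 : v ≤ 3 / 2) :
    3 / 100 / a ^ 2 ≤ -(G ((a : ℂ) + (v * a : ℝ) * I)).im := by
  have hs : 0 < ((a : ℂ) + (v * a : ℝ) * I).re := by rw [re_pt]; exact ha
  have hy : 0 < 1 + v ^ 2 := by positivity
  have hv0 : 0 < v := by linarith
  have hpi := pi_sq_gt
  have hpi2 := pi_sq_lt
  set s : ℂ := (a : ℂ) + (v * a : ℝ) * I with hsdef
  set x : ℝ := 4 * π ^ 2 / (a * (1 + v ^ 2)) with hxdef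
  have hy2 : 1 + v ^ 2 ≤ 13 / 4 := by nlinarith only [hv, hv2]
  have hx : 1000 ≤ x := by
    rw [hxdef, le_div_iff₀ (by positivity)]
    have h3 : a * (1 + v ^ 2) ≤ 1 / 100 * (13 / 4) := by gcongr
    linarith
  have hwre : (4 * (π : ℂ) ^ 2 / s).re = x := by rw [hsdef, re_inv_pt ha]
  have hG : ‖G (4 * (π : ℂ) ^ 2 / s)‖ ≤ 1 / 9000 := by
    have h2 := norm_Ds_le pg_cG cG_nonneg (re_inv_pos hs)
    rw [hwre] at h2
    refine h2.trans ((Dr_le_two_exp cG_nonneg cG_le (by linarith only [ha, ha2, hx])).trans ?_)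
    have h3 : Real.exp (-x) ≤ Real.exp (-10) := Real.exp_le_exp.mpr (by linarith)
    have h4 := exp_neg_half 20
    have h5 : ((20 : ℕ) : ℝ) / 2 = 10 := by norm_num
    rw [h5] at h4
    have h6 : ((10000 : ℝ) / 16487) ^ 20 ≤ 0.00005 := by norm_num
    have h7 : (0.0001 : ℝ) ≤ 1 / 9000 := by norm_num
    linarith
  have hn2 : ‖s‖ ^ 2 = a ^ 2 * (1 + v ^ 2) := by
    rw [← Complex.normSq_eq_norm_sq, hsdef, normSq_pt]
  have he1 : ‖4 * (π : ℂ) ^ 2 / s ^ 2 * G (4 * (π : ℂ) ^ 2 / s)‖ ≤ 4 * π ^ 2 / a ^ 2 * (1 / 9000) := by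
    rw [norm_mul, norm_div, norm_pow, hn2]
    have h2 : ‖(4 * (π : ℂ) ^ 2)‖ = 4 * π ^ 2 := by
      have : (4 * (π : ℂ) ^ 2) = ((4 * π ^ 2 : ℝ) : ℂ) := by push_cast; ring
      rw [this, Complex.norm_real, Real.norm_of_nonneg (by positivity)]
    rw [h2]
    have h3 : a ^ 2 ≤ a ^ 2 * (1 + v ^ 2) := by nlinarith only [sq_nonneg (a * v)]
    gcongr
  have h1 := G_transform s hs
  have hvI : (1 + (v : ℂ) * I) ≠ 0 := by
    intro h
    have := congrArg Complex.re h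
    simp at this
  have hac : (a : ℂ) ≠ 0 := by exact_mod_cast ha.ne'
  have hyc : (((1 + v ^ 2 : ℝ)) : ℂ) = (1 + (v : ℂ) * I) * (1 - (v : ℂ) * I) := by
    push_cast
    ring_nf
    rw [Complex.I_sq]
    ring
  have hvI' : (1 - (v : ℂ) * I) ≠ 0 := by
    intro h
    have := congrArg Complex.re h
    simp at this
  have em1 : ((π : ℂ) ^ 2 / (6 * s ^ 2)).im = -(π ^ 2 / 3 * v / (a ^ 2 * (1 + v ^ 2) ^ 2)) := by
    have h2 : (π : ℂ) ^ 2 / (6 * s ^ 2)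
        = ((π ^ 2 / 6 / (a ^ 2 * (1 + v ^ 2) ^ 2) : ℝ) : ℂ) * (1 - (v : ℂ) * I) ^ 2 := by
      have h3 : ((π ^ 2 / 6 / (a ^ 2 * (1 + v ^ 2) ^ 2) : ℝ) : ℂ)
          = (π : ℂ) ^ 2 / 6 / ((a : ℂ) ^ 2 * (((1 + v ^ 2 : ℝ)) : ℂ) ^ 2) := by push_cast; ring
      rw [h3, hyc, hsdef, pt_eq]
      field_simp
    rw [h2, Complex.im_ofReal_mul]
    have h4 : ((1 - (v : ℂ) * I) ^ 2).im = -(2 * v) := by
      have h5 : (1 - (v : ℂ) * I) ^ 2 = ((1 - v ^ 2 : ℝ) : ℂ) + ((-(2 * v) : ℝ) : ℂ) * I := by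
        push_cast
        have : (1 - (v : ℂ) * I) ^ 2 = 1 - 2 * v * I + v ^ 2 * I ^ 2 := by ring
        rw [this, Complex.I_sq]
        ring
      rw [h5, Complex.add_im, Complex.ofReal_im, Complex.im_ofReal_mul, Complex.I_im]
      ring
    rw [h4]
    ring
  have em2 : (1 / (2 * s)).im = -(v / (2 * a * (1 + v ^ 2))) := by
    have h2 : 1 / (2 * s) = ((1 / 2 / (a * (1 + v ^ 2)) : ℝ) : ℂ) * (1 - (v : ℂ) * I) := by
      have h3 : ((1 / 2 / (a * (1 + v ^ 2)) : ℝ) : ℂ)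
          = 1 / 2 / ((a : ℂ) * (((1 + v ^ 2 : ℝ)) : ℂ)) := by push_cast; ring
      rw [h3, hyc, hsdef, pt_eq]
      field_simp
    rw [h2, Complex.im_ofReal_mul]
    have h4 : (1 - (v : ℂ) * I).im = -v := by simp
    rw [h4]
    field_simp
  have em3 : ((1 : ℂ) / 24).im = 0 := by
    have h2 : (1 : ℂ) / 24 = ((1 / 24 : ℝ) : ℂ) := by push_cast; ring
    rw [h2, Complex.ofReal_im]
  have ha1 := (abs_le.mp ((Complex.abs_im_le_norm _).trans he1))
  rw [h1]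
  simp only [Complex.add_im, Complex.sub_im]
  rw [em1, em2, em3]
  set E1 := (4 * (π : ℂ) ^ 2 / s ^ 2 * G (4 * (π : ℂ) ^ 2 / s)).im
  have hE : -(4 * π ^ 2 / a ^ 2 * (1 / 9000)) ≤ E1 := ha1.1
  have hA2 : 0 < a ^ 2 := by positivity
  rw [div_le_iff₀ hA2]
  have h2 : (-(-(π ^ 2 / 3 * v / (a ^ 2 * (1 + v ^ 2) ^ 2)) - -(v / (2 * a * (1 + v ^ 2))) + 0 - E1)) * a ^ 2
      = π ^ 2 / 3 * (v / (1 + v ^ 2) ^ 2) - a / 2 * (v / (1 + v ^ 2)) + E1 * a ^ 2 := by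
    field_simp
    ring
  rw [h2]
  have h3 : -(4 * π ^ 2 * (1 / 9000)) ≤ E1 * a ^ 2 := by
    have h4 : -(4 * π ^ 2 / a ^ 2 * (1 / 9000)) * a ^ 2 ≤ E1 * a ^ 2 := by gcongr
    have h5 : -(4 * π ^ 2 / a ^ 2 * (1 / 9000)) * a ^ 2 = -(4 * π ^ 2 * (1 / 9000)) := by
      field_simp
    linarith only [h4, h5]
  have h4 : v / (1 + v ^ 2) ≤ 1 / 2 := by
    rw [div_le_iff₀ hy]
    nlinarith only [sq_nonneg (v - 1)]
  have h5 : 0 ≤ v / (1 + v ^ 2) := by positivity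
  have h6 : (4 / 13) * (v / (1 + v ^ 2)) ≤ v / (1 + v ^ 2) ^ 2 := by
    rw [← mul_div_assoc, div_le_div_iff₀ hy (by positivity)]
    have h7 : 4 / 13 * (1 + v ^ 2) ≤ 1 := by linarith only [hy2]
    have h8 : 0 < v * (1 + v ^ 2) := by positivity
    nlinarith only [h8, ha, ha2, hy2]
  have h7 : (8 : ℝ) / 65 ≤ v / (1 + v ^ 2) := by
    rw [le_div_iff₀ hy]
    nlinarith only [hv, hv2]
  have h8 : π ^ 2 / 3 * ((4 / 13) * (v / (1 + v ^ 2))) ≤ π ^ 2 / 3 * (v / (1 + v ^ 2) ^ 2) := by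
    gcongr
  have h9 : a / 2 * (v / (1 + v ^ 2)) ≤ (1 / 100) / 2 * (v / (1 + v ^ 2)) := by gcongr
  nlinarith only [h3, h4, h7, h8, h9, ha, ha2, hpi]

theorem Gr_end : Dr cG 3.2 ≤ 1 / 20 := by
  have h1 : Real.exp (-3.2) ≤ 0.0415 := by
    have h3 : Real.exp (-3.2) = ((Real.exp 1)⁻¹) ^ 3 * Real.exp (-(1 / 5)) := by
      rw [← Real.exp_neg, ← Real.exp_nat_mul, ← Real.exp_add]
      congr 1
      norm_num
    have h4 : (6 / 5 : ℝ) ≤ Real.exp (1 / 5) := by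
      have := Real.add_one_le_exp (1 / 5 : ℝ)
      linarith
    have h5 : Real.exp (-(1 / 5)) ≤ 5 / 6 := by
      rw [Real.exp_neg, inv_le_comm₀ (Real.exp_pos _) (by norm_num)]
      norm_num at h4 ⊢
      linarith
    have h6 : (Real.exp 1)⁻¹ ≤ 10000 / 27182 := by
      have := Real.exp_one_gt_d9
      rw [inv_le_comm₀ (Real.exp_pos _) (by norm_num)]
      norm_num at this ⊢
      linarith
    rw [h3]
    have h7 : 0 < (Real.exp 1)⁻¹ := by positivity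
    calc ((Real.exp 1)⁻¹) ^ 3 * Real.exp (-(1 / 5)) ≤ (10000 / 27182) ^ 3 * (5 / 6) := by gcongr
      _ ≤ 0.0415 := by norm_num
  have h0 : 0 < Real.exp (-3.2) := Real.exp_pos _
  have hg := hasSum_geometric_of_lt_one (r := 3 * Real.exp (-3.2)) (by positivity) (by linarith)
  have hg2 := hg.mul_left (Real.exp (-3.2))
  have hle : ∀ k : ℕ, cG k * Real.exp (-((k : ℝ) + 1) * 3.2)
      ≤ Real.exp (-3.2) * (3 * Real.exp (-3.2)) ^ k := by
    intro k
    have h3 : Real.exp (-((k : ℝ) + 1) * 3.2) = Real.exp (-3.2) * Real.exp (-3.2) ^ k := by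
      rw [← pow_succ', ← Real.exp_nat_mul]
      congr 1
      push_cast; ring
    rw [h3, mul_pow]
    have h4 := sgr_le k
    unfold cG
    calc ((sg (k + 1) : ℕ) : ℝ) * (Real.exp (-3.2) * Real.exp (-3.2) ^ k)
        ≤ 3 ^ k * (Real.exp (-3.2) * Real.exp (-3.2) ^ k) := by
          gcongr
      _ = _ := by ring
  have hs : Summable fun k : ℕ => cG k * Real.exp (-((k : ℝ) + 1) * 3.2) :=
    pg_cG.summable (by norm_num)
  have h5 : Dr cG 3.2 ≤ Real.exp (-3.2) * (1 - 3 * Real.exp (-3.2))⁻¹ := by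
    rw [← hg2.tsum_eq]
    exact hs.tsum_le_tsum hle hg2.summable
  refine h5.trans ?_
  have h8 : 0 < 1 - 3 * Real.exp (-3.2) := by linarith
  rw [← div_eq_mul_inv, div_le_iff₀ h8]
  linarith

/-- Existence of the saddle point. -/
theorem saddle_exists {κ : ℝ} (hκ : 1 / 20 < κ) : ∃ σ θ0 : ℝ, 0 < σ ∧ σ ≤ 3.2 ∧
    GPat (1 / 200) σ θ0 ∧ G ((σ : ℂ) + (θ0 : ℂ) * I) = -(κ : ℂ) * I := by
  set a : ℝ := 1 / (100 * (1 + κ)) with ha
  have hκ0 : 0 < κ := by linarith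
  have ha0 : 0 < a := by positivity
  have ha1 : a ≤ 1 / 100 := by
    rw [ha]
    apply one_div_le_one_div_of_le (by norm_num)
    linarith
  have hmem : ∀ x : Icc a (3.2 : ℝ), 0 < (x : ℝ) := fun x => ha0.trans_le x.2.1
  have hGP : ∀ x : Icc a (3.2 : ℝ), ∃ θ0 : ℝ, GPat (1 / 200) x θ0 := fun x =>
    gp_all (hmem x) x.2.2
  choose T hT using hGP
  have hpi := Real.pi_pos
  have hTm : ∀ x, T x ∈ Icc (-π) π := by
    intro x
    obtain ⟨h1, h2, _⟩ := hT x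
    have := hmem x
    exact ⟨by linarith, by linarith⟩
  set T' : Icc a (3.2 : ℝ) → Icc (-π) π := fun x => ⟨T x, hTm x⟩ with hT'
  have hcontL : ∀ f : Icc a (3.2 : ℝ) × Icc (-π) π → ℝ, Continuous f →
      Continuous fun p : Icc a (3.2 : ℝ) × Icc (-π) π => h (p.1 : ℝ) (f p) := by
    intro f hf
    unfold h
    have h1 : Continuous fun p : Icc a (3.2 : ℝ) × Icc (-π) π =>
        L (((p.1 : ℝ) : ℂ) + ((f p : ℝ) : ℂ) * I) := by
      apply continuousOn_L.comp_continuous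
      · fun_prop
      · intro p
        show 0 < (((p.1 : ℝ) : ℂ) + ((f p : ℝ) : ℂ) * I).re
        rw [re_pt']; exact hmem p.1
    exact (Complex.continuous_im.comp h1).neg
  have hclosed : IsClosed {p : Icc a (3.2 : ℝ) × Icc (-π) π | p.2 = T' p.1} := by
    have h1 : {p : Icc a (3.2 : ℝ) × Icc (-π) π | p.2 = T' p.1}
        = ⋂ θ' : Icc (-π) π, {p | h (p.1 : ℝ) (θ' : ℝ) ≤ h (p.1 : ℝ) (p.2 : ℝ)} := by
      ext p
      simp only [mem_setOf_eq, mem_iInter]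
      constructor
      · intro hp θ'
        rw [hp]
        exact (hT p.1).isMax (hmem p.1) (by norm_num) θ' θ'.2.1 θ'.2.2
      · intro hp
        apply Subtype.ext
        show (p.2 : ℝ) = T p.1
        refine (hT p.1).unique (hmem p.1) (by norm_num) p.2.2.1 p.2.2.2 ?_
        intro θ' h2 h3
        exact hp ⟨θ', h2, h3⟩
    rw [h1]
    apply isClosed_iInter
    intro θ'
    exact isClosed_le (hcontL (fun _ => (θ' : ℝ)) continuous_const)
      (hcontL (fun p => (p.2 : ℝ)) (by fun_prop))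
  have hTc : Continuous T' := continuous_of_closed_graph hclosed
  have hTc' : Continuous T := continuous_subtype_val.comp hTc
  have hK : Continuous fun x : Icc a (3.2 : ℝ) => -(G (((x : ℝ) : ℂ) + (T x : ℂ) * I)).im := by
    have h1 : Continuous fun x : Icc a (3.2 : ℝ) => G (((x : ℝ) : ℂ) + (T x : ℂ) * I) := by
      apply continuousOn_G.comp_continuous
      · fun_prop
      · intro x
        show 0 < (((x : ℝ) : ℂ) + (T x : ℂ) * I).re
        rw [re_pt']; exact hmem x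
    exact (Complex.continuous_im.comp h1).neg
  haveI : PreconnectedSpace (Icc a (3.2 : ℝ)) := Subtype.preconnectedSpace isPreconnected_Icc
  have hlt : a ≤ 3.2 := by linarith
  have hlow : -(G ((((⟨3.2, hlt, le_rfl⟩ : Icc a (3.2 : ℝ)) : ℝ) : ℂ)
      + (T ⟨3.2, hlt, le_rfl⟩ : ℂ) * I)).im ≤ κ := by
    set x : Icc a (3.2 : ℝ) := ⟨3.2, hlt, le_rfl⟩ with hx
    have h1 := norm_Ds_le pg_cG cG_nonneg (s := ((x : ℝ) : ℂ) + (T x : ℂ) * I)
      (by rw [re_pt']; exact hmem x)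
    rw [re_pt'] at h1
    have h2 := (abs_le.mp ((Complex.abs_im_le_norm (G (((x : ℝ) : ℂ) + (T x : ℂ) * I))).trans h1)).1
    have h3 : ((x : ℝ)) = 3.2 := rfl
    have h4 := Gr_end
    rw [h3] at h2
    linarith
  have hhigh : κ ≤ -(G ((((⟨a, le_rfl, hlt⟩ : Icc a (3.2 : ℝ)) : ℝ) : ℂ)
      + (T ⟨a, le_rfl, hlt⟩ : ℂ) * I)).im := by
    set x : Icc a (3.2 : ℝ) := ⟨a, le_rfl, hlt⟩ with hx
    have hxa : (x : ℝ) = a := rfl
    obtain ⟨h1, h2, h3, _⟩ := hT x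
    rw [hxa] at h1 h3
    have h4 := imG_lower (a := a) (v := T x / a) ha0 ha1 (by rw [le_div_iff₀ ha0]; linarith)
      (by rw [div_le_iff₀ ha0]; linarith only [h3])
    have h5 : T x / a * a = T x := by field_simp
    rw [h5] at h4
    refine le_trans ?_ h4
    rw [ha]
    have h6 : 3 / 100 / (1 / (100 * (1 + κ))) ^ 2 = 300 * (1 + κ) ^ 2 := by
      field_simp
      norm_num
    rw [h6]
    nlinarith only [ha0, ha1, hκ]
  obtain ⟨x, hx⟩ := mem_range_of_exists_le_of_exists_ge hK ⟨_, hlow⟩ ⟨_, hhigh⟩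
  refine ⟨x, T x, hmem x, x.2.2, hT x, ?_⟩
  obtain ⟨_, _, _, hre, _⟩ := hT x
  apply Complex.ext
  · rw [hre]; simp
  · have h1 : -(G (((x : ℝ) : ℂ) + (T x : ℂ) * I)).im = κ := hx
    have h2 : (-(κ : ℂ) * I).im = -κ := by simp
    rw [h2]; linarith only [hx]

end Pool.Agent.Lib.MP_d73f62_nt
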