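import Mathlib
import Pool.Agent.Lib.MP_d73f62_nt.LapAux
import Pool.Agent.Lib.MP_d73f62_nt.Fourier
import Pool.Agent.Lib.MP_d73f62_nt.Saddle

set_option autoImplicit false

open Complex Set Filter Topology MeasureTheory
open scoped Real

namespace Pool.Agent.Lib.MP_d73f62_nt

/-- Final numerical comparison. -/
theorem num_final_gen {t σ : ℝ} (ht0 : 0 < t) (hσ : 0 < σ) (htσ : 3 * 10 ^ 10 * σ ≤ t)
    (h4 : Real.exp (-(t * ((1 / 200) / 64 / σ))) * (2 * π) ≤ 0.001 * √(σ ^ 3 / t)) :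
    Real.exp (-(t * (1 / 200) / σ ^ 3 * (σ / 8) ^ 2 / 2)) * √(2 * π / (t * (1 / 200) / σ ^ 3))
      + t * (16 / σ ^ 4) / 6 * (1 / (t * (1 / 200) / σ ^ 3) ^ 2)
      + Real.exp (-(t * ((1 / 200) / 64 / σ))) * (2 * π)
      < √(π / (t * (5 / σ ^ 3) / 2)) := by
  have hpi := Real.pi_gt_d6
  have hpi2 := Real.pi_lt_d6
  set Q : ℝ := √(σ ^ 3 / t) with hQ
  set q : ℝ := √(σ / t) with hq
  have hQ0 : 0 < Q := Real.sqrt_pos.mpr (by positivity)
  have hq0 : 0 < q := Real.sqrt_pos.mpr (by positivity)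
  have hqle : q ≤ 6 / 10 ^ 6 := by
    rw [hq]
    apply Real.sqrt_le_iff.mpr
    refine ⟨by norm_num, ?_⟩
    rw [div_le_iff₀ ht0]
    nlinarith only [htσ, hσ]
  have hqQ : q * Q = σ ^ 2 / t := by
    rw [hq, hQ, ← Real.sqrt_mul (by positivity)]
    have : σ / t * (σ ^ 3 / t) = (σ ^ 2 / t) ^ 2 := by
      field_simp
    rw [this, Real.sqrt_sq (by positivity)]
  -- left hand side
  have hL : 1.12 * Q ≤ √(π / (t * (5 / σ ^ 3) / 2)) := by
    apply Real.le_sqrt_of_sq_le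
    rw [mul_pow, hQ, Real.sq_sqrt (by positivity)]
    have : π / (t * (5 / σ ^ 3) / 2) = (2 * π / 5) * (σ ^ 3 / t) := by
      field_simp
    rw [this]
    have h1 : (1.12 : ℝ) ^ 2 ≤ 2 * π / 5 := by norm_num; linarith only [hpi, hq0, hqle]
    gcongr
  have h1 : √(2 * π / (t * (1 / 200) / σ ^ 3)) ≤ 36 * Q := by
    apply Real.sqrt_le_iff.mpr
    refine ⟨by positivity, ?_⟩
    rw [mul_pow, hQ, Real.sq_sqrt (by positivity)]
    have : 2 * π / (t * (1 / 200) / σ ^ 3) = (400 * π) * (σ ^ 3 / t) := by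
      field_simp
      norm_num
    rw [this]
    have h1 : 400 * π ≤ 36 ^ 2 := by norm_num; linarith only [hpi2, hq0, hqle]
    gcongr
  have h2 : Real.exp (-(t * (1 / 200) / σ ^ 3 * (σ / 8) ^ 2 / 2)) ≤ 1 / 10 ^ 6 := by
    have e1 : t * (1 / 200) / σ ^ 3 * (σ / 8) ^ 2 / 2 = t / (25600 * σ) := by
      field_simp
      norm_num
    have e2 : (10 : ℝ) ^ 6 ≤ t / (25600 * σ) := by
      rw [le_div_iff₀ (by positivity)]
      nlinarith only [htσ, hσ]
    rw [e1, Real.exp_neg, inv_eq_one_div]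
    apply one_div_le_one_div_of_le (by norm_num)
    have := Real.add_one_le_exp (t / (25600 * σ))
    linarith only [e2, hq0, hqle, this]
  have h3 : t * (16 / σ ^ 4) / 6 * (1 / (t * (1 / 200) / σ ^ 3) ^ 2) ≤ 0.64 * Q := by
    have e1 : t * (16 / σ ^ 4) / 6 * (1 / (t * (1 / 200) / σ ^ 3) ^ 2) = 320000 / 3 * (q * Q) := by
      rw [hqQ]
      field_simp
      norm_num
    rw [e1]
    have e2 : q * Q ≤ 6 / 10 ^ 6 * Q := by gcongr
    nlinarith only [e2]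
  have h5 : Real.exp (-(t * (1 / 200) / σ ^ 3 * (σ / 8) ^ 2 / 2)) * √(2 * π / (t * (1 / 200) / σ ^ 3))
      ≤ 1 / 10 ^ 6 * (36 * Q) := by
    gcongr
  nlinarith only [h3, h4, h5, hL, hQ0]

theorem num_final {t σ : ℝ} (ht : 10 ^ 11 ≤ t) (hσ : 0 < σ) (hσ2 : σ ≤ 3.2) :
    Real.exp (-(t * (1 / 200) / σ ^ 3 * (σ / 8) ^ 2 / 2)) * √(2 * π / (t * (1 / 200) / σ ^ 3))
      + t * (16 / σ ^ 4) / 6 * (1 / (t * (1 / 200) / σ ^ 3) ^ 2)
      + Real.exp (-(t * ((1 / 200) / 64 / σ))) * (2 * π)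
      < √(π / (t * (5 / σ ^ 3) / 2)) := by
  have ht0 : 0 < t := by linarith
  have hpi := Real.pi_gt_d6
  have hpi2 := Real.pi_lt_d6
  refine num_final_gen ht0 hσ (by nlinarith only [hpi, hpi2, ht, hσ2]) ?_
  set Q : ℝ := √(σ ^ 3 / t) with hQ
  set q : ℝ := √(σ / t) with hq
  have hQ0 : 0 < Q := Real.sqrt_pos.mpr (by positivity)
  have hq0 : 0 < q := Real.sqrt_pos.mpr (by positivity)
  have hqle : q ≤ 6 / 10 ^ 6 := by
    rw [hq]
    apply Real.sqrt_le_iff.mpr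
    refine ⟨by norm_num, ?_⟩
    rw [div_le_iff₀ ht0]
    nlinarith only [hpi, hpi2, ht, hσ2]
  have hqQ : q * Q = σ ^ 2 / t := by
    rw [hq, hQ, ← Real.sqrt_mul (by positivity)]
    have : σ / t * (σ ^ 3 / t) = (σ ^ 2 / t) ^ 2 := by
      field_simp
    rw [this, Real.sqrt_sq (by positivity)]
  set w : ℝ := t * ((1 / 200) / 64 / σ) with hw
  have hw0 : 0 < w := by positivity
  have e1 : Real.exp (-w) ≤ 2 / w ^ 2 := by
    rw [Real.exp_neg, inv_eq_one_div, div_le_div_iff₀ (Real.exp_pos _) (by positivity)]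
    have := Real.quadratic_le_exp_of_nonneg hw0.le
    nlinarith only [hq0, hqle, hw0, this]
  have e2 : 2 / w ^ 2 = 327680000 / t * (q * Q) := by
    rw [hqQ, hw]
    field_simp
    norm_num
  have e3 : 327680000 / t ≤ 0.01 := by
    rw [div_le_iff₀ ht0]
    nlinarith only [hq0, hqle, ht]
  have e4 : 2 / w ^ 2 ≤ 0.01 * (6 / 10 ^ 6 * Q) := by
    rw [e2]
    gcongr
  have e5 : Real.exp (-w) ≤ 0.01 * (6 / 10 ^ 6 * Q) := e1.trans e4
  calc Real.exp (-w) * (2 * π) ≤ (0.01 * (6 / 10 ^ 6 * Q)) * (2 * 4) := by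
        gcongr
        linarith only [hpi2, hq0, hqle]
    _ ≤ 0.001 * Q := by nlinarith only [hQ0]

/-- The core of the saddle point argument. -/
theorem P_ne_zero_core {t σ θ0 : ℝ} {n : ℕ} (ht0 : 0 < t) (hσ : 0 < σ) (hσ2 : σ ≤ 3.2)
    (hgp : GPat (1 / 200) σ θ0)
    (hG : G ((σ : ℂ) + (θ0 : ℂ) * I) = -(((n : ℝ) / t : ℝ) : ℂ) * I)
    (hfin : Real.exp (-(t * (1 / 200) / σ ^ 3 * (σ / 8) ^ 2 / 2))
        * √(2 * π / (t * (1 / 200) / σ ^ 3))
      + t * (16 / σ ^ 4) / 6 * (1 / (t * (1 / 200) / σ ^ 3) ^ 2)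
      + Real.exp (-(t * ((1 / 200) / 64 / σ))) * (2 * π)
      < √(π / (t * (5 / σ ^ 3) / 2))) :
    P n ((t : ℂ) * I) ≠ 0 := by
  obtain ⟨hg1, hg2, hg3, hg4, hg5, hg6, hg7⟩ := hgp
  intro h0
  have hpi := Real.pi_gt_d6
  have hint := coef_integral ((t : ℂ) * I) hσ n
  rw [h0, mul_zero] at hint
  have hre : ∀ θ : ℝ, 0 < ((σ : ℂ) + (θ : ℂ) * I).re := fun θ => by rw [re_pt']; exact hσ
  set s0 : ℂ := (σ : ℂ) + (θ0 : ℂ) * I with hs0
  have hs0re : s0.re = σ := by rw [hs0, re_pt']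
  have hs0pos : 0 < s0.re := by rw [hs0re]; exact hσ
  -- the exponent
  set a : ℝ → ℂ := fun θ => (t : ℂ) * I * (L ((σ : ℂ) + (θ : ℂ) * I) - L s0)
    + (n : ℂ) * ((θ : ℂ) - θ0) * I with ha
  set δ : ℝ := σ / 8 with hδ
  have hδ0 : 0 < δ := by positivity
  set μ : ℝ := t * (1 / 200) / σ ^ 3 with hμ
  have hμ0 : 0 < μ := by positivity
  set b : ℂ := (t : ℂ) * I * G1 s0 / 2 with hb
  have hLcont : Continuous fun θ : ℝ => L ((σ : ℂ) + (θ : ℂ) * I) := by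
    apply continuousOn_L.comp_continuous
    · fun_prop
    · intro θ; exact hre θ
  have hacont : Continuous a := by
    rw [ha]
    fun_prop
  have hfac : ∀ θ : ℝ, cexp ((t : ℂ) * I * L ((σ : ℂ) + (θ : ℂ) * I))
      * cexp ((n : ℂ) * ((σ : ℂ) + (θ : ℂ) * I))
      = cexp ((t : ℂ) * I * L s0 + (n : ℂ) * s0) * cexp (a θ) := by
    intro θ
    rw [← Complex.exp_add, ← Complex.exp_add]
    congr 1
    simp only [ha, hs0]
    ring
  have hint2 : ∫ θ in (-π)..π, cexp (a θ) = 0 := by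
    simp only [hfac] at hint
    rw [intervalIntegral.integral_const_mul] at hint
    rcases mul_eq_zero.mp hint with h1 | h1
    · exact absurd h1 (Complex.exp_ne_zero _)
    · exact h1
  -- real part of the exponent
  have hare : ∀ θ : ℝ, (a θ).re = t * (h σ θ - h σ θ0) := by
    intro θ
    have e1 : a θ = ((t : ℝ) : ℂ) * (I * (L ((σ : ℂ) + (θ : ℂ) * I) - L s0))
        + (((n : ℝ) * (θ - θ0) : ℝ) : ℂ) * I := by
      simp only [ha]
      push_cast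
      ring
    rw [e1, Complex.add_re, Complex.re_ofReal_mul, Complex.re_ofReal_mul, Complex.I_re, mul_zero,
      add_zero, Complex.I_mul_re]
    congr 1
    unfold h
    rw [Complex.sub_im]
    ring
  -- Taylor estimate
  have htay : ∀ φ : ℝ, ‖a (φ + θ0) - (-b * (φ : ℂ) ^ 2)‖ ≤ t * (16 / σ ^ 4) / 6 * |φ| ^ 3 := by
    intro φ
    have h1 := L_taylor hs0pos φ
    have h2 : a (φ + θ0) - (-b * (φ : ℂ) ^ 2)
        = (t : ℂ) * I * (L (s0 + φ * I) - L s0 + φ * I * G s0 + φ ^ 2 / 2 * G1 s0) := by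
      simp only [ha, hb]
      rw [hG]
      have e1 : (σ : ℂ) + ((φ + θ0 : ℝ) : ℂ) * I = s0 + φ * I := by
        rw [hs0]; push_cast; ring
      rw [e1]
      have e2 : ((((n : ℝ) / t : ℝ)) : ℂ) = (n : ℂ) / (t : ℂ) := by push_cast; rfl
      have htc : (t : ℂ) ≠ 0 := by exact_mod_cast ht0.ne'
      rw [e2]
      have e3 : (t : ℂ) * I * (L (s0 + φ * I) - L s0 + φ * I * (-((n : ℂ) / (t : ℂ)) * I)
          + φ ^ 2 / 2 * G1 s0) = (t : ℂ) * I * (L (s0 + φ * I) - L s0)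
          - (t : ℂ) * ((n : ℂ) / (t : ℂ)) * φ * (I * I * I) + (t : ℂ) * I * (φ ^ 2 / 2 * G1 s0) := by
        ring
      rw [e3, mul_div_cancel₀ _ htc, Complex.I_mul_I]
      push_cast
      ring
    rw [h2, norm_mul, norm_mul, Complex.norm_I, mul_one, Complex.norm_real,
      Real.norm_of_nonneg ht0.le]
    rw [hs0re] at h1
    have h3 := G2r_le hσ (by linarith only [hδ, hδ0, hσ2] : σ ≤ 12)
    calc t * ‖L (s0 + φ * I) - L s0 + φ * I * G s0 + φ ^ 2 / 2 * G1 s0‖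
        ≤ t * (Dr cG2 σ * (|φ| ^ 3 / 6)) := by gcongr
      _ ≤ t * (16 / σ ^ 4 * (|φ| ^ 3 / 6)) := by gcongr
      _ = _ := by ring
  -- real part and norm of b
  have hbre : μ ≤ b.re := by
    have e1 : b = ((t / 2 : ℝ) : ℂ) * (I * G1 s0) := by
      rw [hb]; push_cast; ring
    rw [e1, Complex.re_ofReal_mul, Complex.I_mul_re, hμ]
    calc t * (1 / 200) / σ ^ 3 = t / 2 * (2 * (1 / 200) / σ ^ 3) := by ring
      _ ≤ t / 2 * -(G1 s0).im := by gcongr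
  have hbpos : 0 < b.re := hμ0.trans_le hbre
  have hbnorm : ‖b‖ ≤ t * (5 / σ ^ 3) / 2 := by
    rw [hb, norm_div, norm_mul, norm_mul, Complex.norm_I, mul_one, Complex.norm_real,
      Real.norm_of_nonneg ht0.le]
    have h1 := norm_Ds_le pg_cG1 cG1_nonneg hs0pos
    rw [hs0re] at h1
    have h2 := G1r_le hσ (by linarith only [hδ, hδ0, hσ2] : σ ≤ 12)
    have h3 : ‖G1 s0‖ ≤ 5 / σ ^ 3 := h1.trans h2
    have h4 : ‖(2 : ℂ)‖ = 2 := by simp
    rw [h4]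
    gcongr
  have hbnorm0 : 0 < ‖b‖ := by
    apply norm_pos_iff.mpr
    intro h
    rw [h] at hbpos
    simp at hbpos
  -- splitting of the integral
  have hexpc : Continuous fun θ : ℝ => cexp (a θ) := Complex.continuous_exp.comp hacont
  have hI : ∀ u v : ℝ, IntervalIntegrable (fun θ : ℝ => cexp (a θ)) volume u v := fun u v =>
    hexpc.intervalIntegrable u v
  have hsplit : ∫ θ in (θ0 - δ)..(θ0 + δ), cexp (a θ)
      = -((∫ θ in (-π)..(θ0 - δ), cexp (a θ)) + ∫ θ in (θ0 + δ)..π, cexp (a θ)) := by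
    have h1 := intervalIntegral.integral_add_adjacent_intervals (hI (-π) (θ0 - δ))
      (hI (θ0 - δ) (θ0 + δ))
    have h2 := intervalIntegral.integral_add_adjacent_intervals (hI (-π) (θ0 + δ))
      (hI (θ0 + δ) π)
    rw [hint2, ← h1] at h2
    linear_combination h2
  set C2 : ℝ := Real.exp (-(t * ((1 / 200) / 64 / σ))) with hC2
  have hout : ∀ θ : ℝ, -π ≤ θ → θ ≤ π → δ ≤ |θ - θ0| → ‖cexp (a θ)‖ ≤ C2 := by
    intro θ h1 h2 h3
    rw [Complex.norm_exp, hare]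
    apply Real.exp_le_exp.mpr
    have h4 := hg7 θ h1 h2 h3
    nlinarith only [h4, ht0]
  have hleft : ‖∫ θ in (-π)..(θ0 - δ), cexp (a θ)‖ ≤ C2 * (θ0 - δ + π) := by
    have h1 := intervalIntegral.norm_integral_le_of_norm_le_const (a := -π) (b := θ0 - δ)
      (C := C2) (f := fun θ => cexp (a θ)) ?_
    · rw [abs_of_nonneg (by linarith)] at h1
      refine h1.trans (le_of_eq ?_)
      ring
    · intro θ hθ
      rw [uIoc_of_le (by linarith only [hg1, hpi, hδ, hδ0, hσ2])] at hθ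
      apply hout θ hθ.1.le (by linarith [hθ.2])
      rw [abs_of_nonpos (by linarith only [hδ0, hθ, hθ.2])]
      linarith [hθ.2]
  have hright : ‖∫ θ in (θ0 + δ)..π, cexp (a θ)‖ ≤ C2 * (π - (θ0 + δ)) := by
    have h1 := intervalIntegral.norm_integral_le_of_norm_le_const (a := θ0 + δ) (b := π)
      (C := C2) (f := fun θ => cexp (a θ)) ?_
    · rw [abs_of_nonneg (by linarith)] at h1
      exact h1
    · intro θ hθ
      rw [uIoc_of_le (by linarith)] at hθ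
      apply hout θ (by linarith [hθ.1]) hθ.2
      rw [abs_of_nonneg (by linarith [hθ.1])]
      linarith [hθ.1]
  have hC20 : 0 < C2 := Real.exp_pos _
  have hmid1 : ‖∫ θ in (θ0 - δ)..(θ0 + δ), cexp (a θ)‖ ≤ C2 * (2 * π) := by
    rw [hsplit, norm_neg]
    refine (norm_add_le _ _).trans ?_
    have : C2 * (θ0 - δ + π) + C2 * (π - (θ0 + δ)) ≤ C2 * (2 * π) := by nlinarith only [hC20, hδ, hσ]
    linarith
  -- middle part
  have hshift : ∫ θ in (θ0 - δ)..(θ0 + δ), cexp (a θ) = ∫ φ in (-δ)..δ, cexp (a (φ + θ0)) := by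
    rw [intervalIntegral.integral_comp_add_right (fun θ => cexp (a θ)) θ0]
    congr 1 <;> ring
  have hgc : Continuous fun φ : ℝ => cexp (-b * (φ : ℂ) ^ 2) := by fun_prop
  have hsc : Continuous fun φ : ℝ => cexp (a (φ + θ0)) :=
    hexpc.comp (continuous_id.add continuous_const)
  have hdiff : ‖(∫ φ in (-δ)..δ, cexp (-b * (φ : ℂ) ^ 2)) - ∫ φ in (-δ)..δ, cexp (a (φ + θ0))‖
      ≤ t * (16 / σ ^ 4) / 6 * (1 / μ ^ 2) := by
    rw [← intervalIntegral.integral_sub (hgc.intervalIntegrable _ _) (hsc.intervalIntegrable _ _)]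
    have hbc : Continuous fun φ : ℝ => t * (16 / σ ^ 4) / 6 * (|φ| ^ 3 * Real.exp (-μ * φ ^ 2)) := by
      fun_prop
    have h1 := intervalIntegral.norm_integral_le_of_norm_le (μ := volume) (a := -δ) (b := δ)
      (f := fun φ : ℝ => cexp (-b * (φ : ℂ) ^ 2) - cexp (a (φ + θ0)))
      (g := fun φ : ℝ => t * (16 / σ ^ 4) / 6 * (|φ| ^ 3 * Real.exp (-μ * φ ^ 2)))
      (by linarith) ?_ (hbc.intervalIntegrable _ _)
    · refine h1.trans ?_
      rw [intervalIntegral.integral_const_mul]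
      have := cubic_full hμ0 hδ0.le
      gcongr
    · refine Eventually.of_forall fun φ hφ => ?_
      have hφ' : |φ| ≤ δ := abs_le.mpr ⟨hφ.1.le, hφ.2⟩
      have h2 := htay φ
      have h3 : (a (φ + θ0)).re ≤ -μ * φ ^ 2 := by
        rw [hare]
        have h4 := hg6 (φ + θ0) (by simpa using hφ')
        have h5 : φ + θ0 - θ0 = φ := by ring
        rw [h5] at h4
        calc t * (h σ (φ + θ0) - h σ θ0) ≤ t * (-(1 / 200 * φ ^ 2 / σ ^ 3)) := by
              gcongr; linarith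
          _ = _ := by rw [hμ]; ring
      have h4 : (-b * (φ : ℂ) ^ 2).re ≤ -μ * φ ^ 2 := by
        have e1 : (-b * (φ : ℂ) ^ 2) = ((φ ^ 2 : ℝ) : ℂ) * (-b) := by push_cast; ring
        rw [e1, Complex.re_ofReal_mul, Complex.neg_re]
        nlinarith only [hbre, sq_nonneg φ]
      have h5 := exp_sub_le h4 h3
      rw [norm_sub_rev] at h2
      calc ‖cexp (-b * (φ : ℂ) ^ 2) - cexp (a (φ + θ0))‖
          ≤ Real.exp (-μ * φ ^ 2) * ‖-b * (φ : ℂ) ^ 2 - a (φ + θ0)‖ := h5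
        _ ≤ Real.exp (-μ * φ ^ 2) * (t * (16 / σ ^ 4) / 6 * |φ| ^ 3) := by gcongr
        _ = _ := by ring
  have htail := gauss_tail hμ0 hbre hδ0.le
  have hnorm := gauss_norm hbpos
  have hlow : √(π / (t * (5 / σ ^ 3) / 2)) ≤ √(π / ‖b‖) := by
    apply Real.sqrt_le_sqrt
    gcongr
  have htri : ‖∫ φ : ℝ, cexp (-b * (φ : ℂ) ^ 2)‖
      ≤ ‖(∫ φ : ℝ, cexp (-b * (φ : ℂ) ^ 2)) - ∫ φ in (-δ)..δ, cexp (-b * (φ : ℂ) ^ 2)‖
        + ‖(∫ φ in (-δ)..δ, cexp (-b * (φ : ℂ) ^ 2)) - ∫ φ in (-δ)..δ, cexp (a (φ + θ0))‖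
        + ‖∫ φ in (-δ)..δ, cexp (a (φ + θ0))‖ := by
    set A1 := ∫ φ : ℝ, cexp (-b * (φ : ℂ) ^ 2)
    set A2 := ∫ φ in (-δ)..δ, cexp (-b * (φ : ℂ) ^ 2)
    set A3 := ∫ φ in (-δ)..δ, cexp (a (φ + θ0))
    have : A1 = (A1 - A2) + (A2 - A3) + A3 := by ring
    calc ‖A1‖ = ‖(A1 - A2) + (A2 - A3) + A3‖ := by rw [← this]
      _ ≤ _ := norm_add₃_le
  rw [hshift] at hmid1
  rw [hnorm] at htri
  linarith only [hdiff, hfin, hlow, hmid1, htail, htri]

/-- Nonvanishing at `it` for large real `t` and `n > t / 20`. -/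
theorem P_ne_zero_saddle {t : ℝ} (ht : 10 ^ 11 ≤ t) {n : ℕ} (hn : t < 20 * n) :
    P n ((t : ℂ) * I) ≠ 0 := by
  have ht0 : 0 < t := by linarith
  have hκ : 1 / 20 < (n : ℝ) / t := by
    rw [lt_div_iff₀ ht0]
    linarith
  obtain ⟨σ, θ0, hσ, hσ2, hgp, hG⟩ := saddle_exists hκ
  exact P_ne_zero_core ht0 hσ hσ2 hgp hG (num_final ht hσ hσ2)

end Pool.Agent.Lib.MP_d73f62_nt
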