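import Mathlib
import Pool.Agent.Lib.MP_d73f62_nt.Laplace
import Pool.Agent.Lib.MP_d73f62_nt.Big

set_option autoImplicit false

open Polynomial

namespace Pool.Agent.Lib.MP_d73f62_nt

theorem P_conj (n : ℕ) (x : ℂ) : P n (starRingEnd ℂ x) = starRingEnd ℂ (P n x) := by
  unfold P
  have h := Polynomial.hom_eval₂ (dArcais n) (algebraMap ℚ ℂ) (starRingEnd ℂ) x
  rw [← Polynomial.aeval_def] at h
  rw [h]
  have h2 : (starRingEnd ℂ).comp (algebraMap ℚ ℂ) = algebraMap ℚ ℂ := Subsingleton.elim _ _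
  rw [h2, ← Polynomial.aeval_def]

/-- Nonvanishing for all real `t` with `|t| ≥ 10^11` and all `n`. -/
theorem real_large (n : ℕ) (t : ℝ) (ht : 10 ^ 11 ≤ |t|) : P n ((t : ℂ) * Complex.I) ≠ 0 := by
  have key : ∀ t : ℝ, 10 ^ 11 ≤ t → P n ((t : ℂ) * Complex.I) ≠ 0 := by
    intro t ht
    rcases lt_or_ge t (20 * (n : ℝ)) with h1 | h1
    · exact P_ne_zero_saddle ht h1
    · apply P_ne_zero_of_large
      rw [norm_mul, Complex.norm_I, mul_one, Complex.norm_real, Real.norm_of_nonneg (by linarith)]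
      exact h1
  rcases le_total 0 t with h0 | h0
  · rw [abs_of_nonneg h0] at ht
    exact key t ht
  · rw [abs_of_nonpos h0] at ht
    intro h
    apply key (-t) ht
    have h1 : (((-t : ℝ) : ℂ) * Complex.I) = starRingEnd ℂ ((t : ℂ) * Complex.I) := by
      rw [map_mul, Complex.conj_ofReal, Complex.conj_I]
      push_cast
      ring
    rw [h1, P_conj, h, map_zero]

theorem int_all (n : ℕ) (t : ℤ) (ht : t ≠ 0) : P n ((t : ℂ) * Complex.I) ≠ 0 := by
  intro h
  have h1 := big_abs t ht n h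
  have h2 : (10 : ℝ) ^ 11 ≤ |(t : ℝ)| := by
    have h3 : ((355646891721 : ℤ) : ℝ) ≤ ((|t| : ℤ) : ℝ) := by exact_mod_cast h1
    push_cast at h3
    linarith
  have h4 := real_large n (t : ℝ) h2
  apply h4
  have h5 : (((t : ℝ)) : ℂ) = (t : ℂ) := by push_cast; rfl
  rw [h5]
  exact h

end Pool.Agent.Lib.MP_d73f62_nt
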