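import Mathlib
import Pool.Agent.Lib.MP_d73f62_nt.Final

set_option autoImplicit false

open Complex Set Filter Topology MeasureTheory
open scoped Real

namespace Pool.Agent.Lib.MP_d73f62_nt

theorem num_final3 {t σ : ℝ} {n : ℕ} (hn : 1 ≤ n) (ht0 : 0 < t) (hσ : 0 < σ)
    (hσn : 1 / (100 * n) ≤ σ) (hW : 5 * 10 ^ 10 * (1 + Real.log n) * σ ≤ t) :
    Real.exp (-(t * ((1 / 200) / 64 / σ))) * (2 * π) ≤ 0.001 * √(σ ^ 3 / t) := by
  have hn0 : (0 : ℝ) < n := by exact_mod_cast hn
  have hn1 : (1 : ℝ) ≤ n := by exact_mod_cast hn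
  have hlog : 0 ≤ Real.log n := Real.log_nonneg hn1
  have hpi2 := Real.pi_lt_d6
  have hpi := Real.pi_gt_d6
  set W : ℝ := t / σ with hWdef
  have hW1 : 5 * 10 ^ 10 * (1 + Real.log n) ≤ W := by
    rw [hWdef, le_div_iff₀ hσ]; exact hW
  have hW2 : 5 * 10 ^ 10 ≤ W := by nlinarith
  have hW0 : 0 < W := by linarith
  have hw : t * ((1 / 200) / 64 / σ) = W / 12800 := by
    rw [hWdef]; field_simp; norm_num
  rw [hw]
  have htW : t = W * σ := by rw [hWdef]; field_simp
  have hroot : 1 / (100 * n) / W ≤ √(σ ^ 3 / t) := by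
    apply Real.le_sqrt_of_sq_le
    have e1 : σ ^ 3 / t = σ ^ 2 / W := by
      rw [htW]; field_simp
    rw [e1]
    calc (1 / (100 * n) / W) ^ 2 ≤ (σ / W) ^ 2 := by gcongr
      _ = σ ^ 2 / (W * W) := by field_simp
      _ ≤ σ ^ 2 / (W * 1) := by
          gcongr
          linarith
      _ = σ ^ 2 / W := by rw [mul_one]
  have e1 : Real.exp (-(W / 12800)) = Real.exp (-(W / 25600)) * Real.exp (-(W / 51200))
      * Real.exp (-(W / 51200)) := by
    rw [← Real.exp_add, ← Real.exp_add]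
    congr 1
    ring
  have e2 : Real.exp (-(W / 25600)) ≤ 1 / n := by
    have h1 : Real.log n ≤ W / 25600 := by
      rw [le_div_iff₀ (by norm_num)]
      nlinarith
    calc Real.exp (-(W / 25600)) ≤ Real.exp (-Real.log n) := Real.exp_le_exp.mpr (by linarith)
      _ = 1 / n := by rw [Real.exp_neg, Real.exp_log hn0, one_div]
  have e3 : Real.exp (-(W / 51200)) ≤ 2 / (W / 51200) ^ 2 := by
    rw [Real.exp_neg, inv_eq_one_div, div_le_div_iff₀ (Real.exp_pos _) (by positivity)]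
    have h0 : 0 ≤ W / 51200 := by positivity
    have := Real.quadratic_le_exp_of_nonneg h0
    nlinarith
  have e4 : Real.exp (-(W / 51200)) ≤ 1 / 900000 := by
    rw [Real.exp_neg, inv_eq_one_div]
    apply one_div_le_one_div_of_le (by norm_num)
    have := Real.add_one_le_exp (W / 51200)
    have h1 : (900000 : ℝ) ≤ W / 51200 := by
      rw [le_div_iff₀ (by norm_num)]
      linarith
    linarith
  rw [e1]
  have e5 : Real.exp (-(W / 25600)) * Real.exp (-(W / 51200)) * Real.exp (-(W / 51200)) * (2 * π)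
      ≤ (1 / n) * (2 / (W / 51200) ^ 2) * (1 / 900000) * (2 * 4) := by
    gcongr
    linarith
  refine e5.trans ?_
  have e6 : (1 / (n : ℝ)) * (2 / (W / 51200) ^ 2) * (1 / 900000) * (2 * 4)
      ≤ 0.001 * (1 / (100 * n) / W) := by
    have h1 : (1 / (n : ℝ)) * (2 / (W / 51200) ^ 2) * (1 / 900000) * (2 * 4)
        = (1 / (n * W)) * (16 * 51200 ^ 2 / 900000 / W) := by
      field_simp
      norm_num
    have h2 : 0.001 * (1 / (100 * (n : ℝ)) / W) = (1 / (n * W)) * 0.00001 := by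
      field_simp
      norm_num
    rw [h1, h2]
    have h3 : 16 * 51200 ^ 2 / 900000 / W ≤ 0.00001 := by
      rw [div_le_iff₀ hW0]
      nlinarith
    gcongr
  refine e6.trans ?_
  gcongr

/-- Nonvanishing for `t n ≥ 10^22 (1 + log n)^2`. -/
theorem P_ne_zero_log {t : ℝ} {n : ℕ} (hn : 1 ≤ n) (ht0 : 0 < t)
    (hbig : 10 ^ 22 * (1 + Real.log n) ^ 2 ≤ t * n) : P n ((t : ℂ) * I) ≠ 0 := by
  have hn0 : (0 : ℝ) < n := by exact_mod_cast hn
  have hn1 : (1 : ℝ) ≤ n := by exact_mod_cast hn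
  have hlog : 0 ≤ Real.log n := Real.log_nonneg hn1
  have hpi := Real.pi_gt_d6
  rcases lt_or_ge t (20 * (n : ℝ)) with h1 | h1
  swap
  · apply P_ne_zero_of_large
    rw [norm_mul, Complex.norm_I, mul_one, Complex.norm_real, Real.norm_of_nonneg ht0.le]
    exact h1
  have hκ : 1 / 20 < (n : ℝ) / t := by
    rw [lt_div_iff₀ ht0]
    linarith
  obtain ⟨σ, θ0, hσ, hσ2, hgp, hG⟩ := saddle_exists hκ
  -- upper bound for σ
  have hup : σ ^ 2 * n ≤ 1.645 * t := by
    have h2 := norm_Ds_le pg_cG cG_nonneg (s := (σ : ℂ) + (θ0 : ℂ) * I) (by rw [re_pt']; exact hσ)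
    rw [re_pt'] at h2
    have h3 : ‖G ((σ : ℂ) + (θ0 : ℂ) * I)‖ = n / t := by
      rw [hG, norm_mul, norm_neg, Complex.norm_I, mul_one, Complex.norm_real,
        Real.norm_of_nonneg (by positivity)]
    have h4 : (n : ℝ) / t ≤ π ^ 2 / (6 * σ ^ 2) := by
      rw [← h3]
      exact h2.trans (Gr_transform_le hσ (by linarith))
    rw [div_le_div_iff₀ ht0 (by positivity)] at h4
    have := pi_sq_lt
    nlinarith
  -- lower bound for σ
  have hlow : 1 / (100 * n) ≤ σ := by
    rcases le_or_gt σ (1 / 100) with h2 | h2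
    · have hg := hgp
      obtain ⟨hg1, hg2, hg3, _⟩ := hg
      have h3 := imG_lower (a := σ) (v := θ0 / σ) hσ h2 (by rw [le_div_iff₀ hσ]; linarith)
        (by rw [div_le_iff₀ hσ]; linarith)
      have h5 : θ0 / σ * σ = θ0 := by field_simp
      rw [h5, hG] at h3
      have h6 : (-(((n : ℝ) / t : ℝ) : ℂ) * I).im = -(n / t) := by simp
      rw [h6, neg_neg, div_le_div_iff₀ (by positivity) ht0] at h3
      -- 3/100 * t ≤ n * σ^2
      have h7 : (1 : ℝ) ≤ (100 * n * σ) ^ 2 := by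
        have h8 : (10 : ℝ) ^ 22 ≤ t * n := by
          have : (1 : ℝ) ≤ (1 + Real.log n) ^ 2 := by nlinarith
          linarith
        nlinarith
      rw [div_le_iff₀ (by positivity)]
      have h8 : 0 < 100 * n * σ := by positivity
      nlinarith
    · have h3 : 1 / (100 * (n : ℝ)) ≤ 1 / 100 := by
        apply one_div_le_one_div_of_le (by norm_num)
        linarith
      linarith
  have hW : 5 * 10 ^ 10 * (1 + Real.log n) * σ ≤ t := by
    have h2 : (5 * 10 ^ 10 * (1 + Real.log n) * σ) ^ 2 ≤ t ^ 2 := by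
      have h3 : (5 * 10 ^ 10 * (1 + Real.log n) * σ) ^ 2 * n ≤ t ^ 2 * n := by
        calc (5 * 10 ^ 10 * (1 + Real.log n) * σ) ^ 2 * n
            = (25 * 10 ^ 20 * (1 + Real.log n) ^ 2) * (σ ^ 2 * n) := by ring
          _ ≤ (25 * 10 ^ 20 * (1 + Real.log n) ^ 2) * (1.645 * t) := by gcongr
          _ = (25 * 1.645 * 10 ^ 20 * (1 + Real.log n) ^ 2) * t := by ring
          _ ≤ (t * n) * t := by
              apply mul_le_mul_of_nonneg_right _ ht0.le
              have : 0 ≤ (1 + Real.log n) ^ 2 := by positivity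
              linarith
          _ = t ^ 2 * n := by ring
      exact le_of_mul_le_mul_right h3 hn0
    exact abs_le_of_sq_le_sq' h2 ht0.le |>.2
  have hW' : 3 * 10 ^ 10 * σ ≤ t := by
    have : 3 * 10 ^ 10 * σ ≤ 5 * 10 ^ 10 * (1 + Real.log n) * σ := by
      apply mul_le_mul_of_nonneg_right _ hσ.le
      nlinarith
    linarith
  exact P_ne_zero_core ht0 hσ hσ2 hgp hG
    (num_final_gen ht0 hσ hW' (num_final3 hn ht0 hσ hlow hW))

/-- Combined real statement. -/
theorem real_region (n : ℕ) (hn : 1 ≤ n) (t : ℝ)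
    (ht : 10 ^ 11 ≤ |t| ∨ 10 ^ 22 * (1 + Real.log n) ^ 2 / n ≤ |t|) :
    P n ((t : ℂ) * Complex.I) ≠ 0 := by
  rcases ht with h | h
  · exact real_large n t h
  have hn0 : (0 : ℝ) < n := by exact_mod_cast hn
  have hn1 : (1 : ℝ) ≤ n := by exact_mod_cast hn
  have hlog : 0 ≤ Real.log n := Real.log_nonneg hn1
  have key : ∀ t : ℝ, 10 ^ 22 * (1 + Real.log n) ^ 2 / n ≤ t → P n ((t : ℂ) * Complex.I) ≠ 0 := by
    intro t ht
    have h1 : 0 < 10 ^ 22 * (1 + Real.log n) ^ 2 / n := by positivity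
    refine P_ne_zero_log hn (h1.trans_le ht) ?_
    rwa [div_le_iff₀ hn0] at ht
  rcases le_total 0 t with h0 | h0
  · rw [abs_of_nonneg h0] at h
    exact key t h
  · rw [abs_of_nonpos h0] at h
    intro h2
    apply key (-t) h
    have h1 : (((-t : ℝ) : ℂ) * Complex.I) = starRingEnd ℂ ((t : ℂ) * Complex.I) := by
      rw [map_mul, Complex.conj_ofReal, Complex.conj_I]
      push_cast
      ring
    rw [h1, P_conj, h2, map_zero]

end Pool.Agent.Lib.MP_d73f62_nt
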